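import Mathlib

/-! Jacobi polynomials of the unit interval with the weight `t ^ m`, by recursion. -/

set_option autoImplicit false

open Real Finset MeasureTheory intervalIntegral

namespace Pool.Agent.L5helper98.AN

/-- the pair `(P_n, S_n)` at the point `t` -/
noncomputable def PS (m : ℕ) (t : ℝ) : ℕ → ℝ × ℝ
  | 0 => (1, 0)
  | n + 1 =>
    ((PS m t n).1 - ((2 * (n : ℝ) + m + 2) / (((n : ℝ) + 1) * (n + 1 + m))) * (1 - t) *
      ((PS m t n).2 + (2 * (n : ℝ) + m + 1) * (PS m t n).1),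
     (PS m t n).2 + (2 * (n : ℝ) + m + 1) * (PS m t n).1)

/-- the polynomial `P_n`, orthogonal on the unit interval for the weight `t ^ m`, `P_n(1) = 1` -/
noncomputable def PP (m n : ℕ) (t : ℝ) : ℝ := (PS m t n).1

/-- the kernel `S_n = ∑_{j<n} (2 j + m + 1) P_j` -/
noncomputable def SP (m n : ℕ) (t : ℝ) : ℝ := (PS m t n).2

theorem PP_zero (m : ℕ) (t : ℝ) : PP m 0 t = 1 := rfl
theorem SP_zero (m : ℕ) (t : ℝ) : SP m 0 t = 0 := rfl
theorem SP_succ (m n : ℕ) (t : ℝ) : SP m (n + 1) t = SP m n t + (2 * (n : ℝ) + m + 1) * PP m n t := rfl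
theorem PP_succ (m n : ℕ) (t : ℝ) : PP m (n + 1) t =
    PP m n t - ((2 * (n : ℝ) + m + 2) / (((n : ℝ) + 1) * (n + 1 + m))) * (1 - t) * SP m (n + 1) t := rfl

theorem PP_one (m n : ℕ) : PP m n 1 = 1 := by
  induction n with
  | zero => rfl
  | succ n ih => rw [PP_succ, ih]; ring

theorem SP_one (m n : ℕ) : SP m n 1 = (n : ℝ) * (n + m) := by
  induction n with
  | zero => rw [SP_zero]; simp
  | succ n ih => rw [SP_succ, ih, PP_one]; push_cast; ring

theorem PP_SP_zero (m n : ℕ) : (n : ℝ) * PP m n 0 + SP m n 0 = 0 := by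
  induction n with
  | zero => rw [SP_zero]; simp
  | succ n ih =>
    rw [PP_succ, SP_succ]
    have h1 : ((n : ℝ) + 1) ≠ 0 := by positivity
    have h2 : ((n : ℝ) + 1 + m) ≠ 0 := by positivity
    push_cast
    field_simp
    linear_combination (-(1 : ℝ) - n) * ih

theorem PS_cont (m n : ℕ) : Continuous (PP m n) ∧ Continuous (SP m n) := by
  induction n with
  | zero => exact ⟨continuous_const, continuous_const⟩
  | succ n ih =>
    obtain ⟨h1, h2⟩ := ih
    have h3 : Continuous (SP m (n + 1)) := h2.add (continuous_const.mul h1)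
    exact ⟨h1.sub ((continuous_const.mul (continuous_const.sub continuous_id)).mul h3), h3⟩

theorem PP_cont (m n : ℕ) : Continuous (PP m n) := (PS_cont m n).1
theorem SP_cont (m n : ℕ) : Continuous (SP m n) := (PS_cont m n).2

theorem SP_sum (m n : ℕ) (t : ℝ) : SP m n t = ∑ j ∈ range n, (2 * (j : ℝ) + m + 1) * PP m j t := by
  induction n with
  | zero => simp [SP_zero]
  | succ n ih => rw [SP_succ, sum_range_succ, ih]

/-- Christoffel–Darboux at the endpoint -/
theorem CD (m n : ℕ) (t : ℝ) : (1 - t) * SP m (n + 1) t =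
    (((n : ℝ) + 1) * (n + 1 + m) / (2 * (n : ℝ) + m + 2)) * (PP m n t - PP m (n + 1) t) := by
  rw [PP_succ]
  have h1 : ((n : ℝ) + 1) ≠ 0 := by positivity
  have h2 : ((n : ℝ) + 1 + m) ≠ 0 := by positivity
  have h3 : (2 * (n : ℝ) + m + 2) ≠ 0 := by positivity
  field_simp
  ring

/-- the derivatives -/
theorem hd (m n : ℕ) {t : ℝ} (h0 : 0 < t) (h1 : t < 1) :
    HasDerivAt (PP m n) ((n * PP m n t + SP m n t) / t) t ∧
    HasDerivAt (SP m n) (-(((n + m : ℝ) - (n + m + 1) * t) * SP m n t + n * (n + m) * PP m n t) /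
      (t * (1 - t))) t := by
  induction n with
  | zero =>
    have e1 : PP m 0 = fun _ => (1 : ℝ) := rfl
    have e2 : SP m 0 = fun _ => (0 : ℝ) := rfl
    rw [e1, e2]
    constructor
    · refine (hasDerivAt_const t (1 : ℝ)).congr_deriv ?_
      simp
    · refine (hasDerivAt_const t (0 : ℝ)).congr_deriv ?_
      simp
  | succ n ih =>
    obtain ⟨h2, h3⟩ := ih
    have h4 : t ≠ 0 := h0.ne'
    have h5 : (1 - t) ≠ 0 := by linarith
    have h6 : ((n : ℝ) + 1) ≠ 0 := by positivity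
    have h7 : ((n : ℝ) + 1 + m) ≠ 0 := by positivity
    have hS : HasDerivAt (SP m (n + 1)) (-((((n : ℝ) + 1 + m) - ((n : ℝ) + 1 + m + 1) * t) * SP m (n + 1) t +
        ((n : ℝ) + 1) * ((n : ℝ) + 1 + m) * PP m (n + 1) t) / (t * (1 - t))) t := by
      have := h3.add (h2.const_mul (2 * (n : ℝ) + m + 1))
      refine this.congr_deriv ?_
      rw [PP_succ, SP_succ]
      field_simp
      ring
    constructor
    · have h8 : HasDerivAt (fun s : ℝ => 1 - s) (-1) t := by
        simpa using (hasDerivAt_id t).const_sub 1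
      have h9 := h2.sub ((h8.const_mul ((2 * (n : ℝ) + m + 2) / (((n : ℝ) + 1) * (n + 1 + m)))).mul hS)
      refine h9.congr_deriv ?_
      push_cast
      rw [PP_succ, SP_succ]
      field_simp
      ring
    · push_cast
      exact hS

/-- the Sturm–Liouville form -/
noncomputable def ZZ (m n : ℕ) (t : ℝ) : ℝ := t ^ m * ((1 - t) * (n * PP m n t + SP m n t))

theorem ZZ_cont (m n : ℕ) : Continuous (ZZ m n) :=
  (continuous_pow m).mul ((continuous_const.sub continuous_id).mul
    ((continuous_const.mul (PP_cont m n)).add (SP_cont m n)))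

theorem pow_hd (m : ℕ) {t : ℝ} (h0 : 0 < t) : HasDerivAt (fun s : ℝ => s ^ m) (m * t ^ m / t) t := by
  refine (hasDerivAt_pow m t).congr_deriv ?_
  cases m with
  | zero => simp
  | succ m =>
    simp only [Nat.add_sub_cancel]
    rw [pow_succ]
    field_simp

theorem ZZ_hd (m n : ℕ) {t : ℝ} (h0 : 0 < t) (h1 : t < 1) :
    HasDerivAt (ZZ m n) (-(n * (n + m + 1) * (t ^ m * PP m n t))) t := by
  obtain ⟨h2, h3⟩ := hd m n h0 h1
  have h4 : t ≠ 0 := h0.ne'
  have h5 : (1 - t) ≠ 0 := by linarith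
  have h8 : HasDerivAt (fun s : ℝ => 1 - s) (-1) t := by
    simpa using (hasDerivAt_id t).const_sub 1
  have := (pow_hd m h0).mul (h8.mul ((h2.const_mul (n : ℝ)).add h3))
  refine this.congr_deriv ?_
  simp only [Pi.add_apply, Pi.mul_apply]
  field_simp
  ring

theorem orth {m i j : ℕ} (hij : i < j) : ∫ t in (0 : ℝ)..1, t ^ m * (PP m i t * PP m j t) = 0 := by
  have hc : Continuous fun t => ZZ m i t * PP m j t - ZZ m j t * PP m i t :=
    ((ZZ_cont m i).mul (PP_cont m j)).sub ((ZZ_cont m j).mul (PP_cont m i))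
  have hd' : ∀ t ∈ Set.Ioo (0 : ℝ) 1, HasDerivAt (fun t => ZZ m i t * PP m j t - ZZ m j t * PP m i t)
      (((j : ℝ) * (j + m + 1) - i * (i + m + 1)) * (t ^ m * (PP m i t * PP m j t))) t := by
    intro t ht
    have h4 : t ≠ 0 := ht.1.ne'
    have := ((ZZ_hd m i ht.1 ht.2).mul (hd m j ht.1 ht.2).1).sub
      ((ZZ_hd m j ht.1 ht.2).mul (hd m i ht.1 ht.2).1)
    refine this.congr_deriv ?_
    unfold ZZ
    field_simp
    ring
  have hc2 : Continuous fun t : ℝ => ((j : ℝ) * (j + m + 1) - i * (i + m + 1)) * (t ^ m * (PP m i t * PP m j t)) :=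
    continuous_const.mul ((continuous_pow m).mul ((PP_cont m i).mul (PP_cont m j)))
  have h := integral_eq_sub_of_hasDerivAt_of_le zero_le_one hc.continuousOn hd' (hc2.intervalIntegrable _ _)
  have e1 : ∀ n, ZZ m n 1 = 0 := fun n => by unfold ZZ; ring
  have e0 : ∀ n, ZZ m n 0 = 0 := fun n => by unfold ZZ; rw [PP_SP_zero]; ring
  rw [e1, e1, e0, e0, intervalIntegral.integral_const_mul] at h
  have hij' : (i : ℝ) < j := by exact_mod_cast hij
  have h5 : (0 : ℝ) < (j : ℝ) * (j + m + 1) - i * (i + m + 1) := by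
    have : (0 : ℝ) ≤ i := Nat.cast_nonneg i
    have : (0 : ℝ) ≤ m := Nat.cast_nonneg m
    nlinarith
  have h6 : ((j : ℝ) * (j + m + 1) - i * (i + m + 1)) * ∫ t in (0 : ℝ)..1, t ^ m * (PP m i t * PP m j t) = 0 := by
    rw [h]; ring
  rcases mul_eq_zero.1 h6 with h7 | h7
  · exact absurd h7 h5.ne'
  · exact h7

theorem orthS (m n : ℕ) : ∫ t in (0 : ℝ)..1, t ^ m * (PP m n t * SP m n t) = 0 := by
  have e : ∀ t : ℝ, t ^ m * (PP m n t * SP m n t) =
      ∑ j ∈ range n, (2 * (j : ℝ) + m + 1) * (t ^ m * (PP m j t * PP m n t)) := by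
    intro t
    rw [SP_sum, mul_sum, mul_sum]
    exact sum_congr rfl fun j _ => by ring
  simp_rw [e]
  rw [intervalIntegral.integral_finsetSum fun j _ => ?_]
  · refine sum_eq_zero fun j hj => ?_
    rw [intervalIntegral.integral_const_mul, orth (mem_range.1 hj), mul_zero]
  · exact (continuous_const.mul ((continuous_pow m).mul
      ((PP_cont m j).mul (PP_cont m n)))).intervalIntegrable _ _

/-- the norm -/
theorem norm_P (m n : ℕ) : ∫ t in (0 : ℝ)..1, t ^ m * PP m n t ^ 2 = 1 / (2 * n + m + 1) := by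
  have hc : Continuous fun t : ℝ => t ^ m * (t * PP m n t ^ 2) :=
    (continuous_pow m).mul (continuous_id.mul ((PP_cont m n).pow 2))
  have hd' : ∀ t ∈ Set.Ioo (0 : ℝ) 1, HasDerivAt (fun t : ℝ => t ^ m * (t * PP m n t ^ 2))
      ((2 * n + m + 1) * (t ^ m * PP m n t ^ 2) + 2 * (t ^ m * (PP m n t * SP m n t))) t := by
    intro t ht
    have h4 : t ≠ 0 := ht.1.ne'
    have := (pow_hd m ht.1).mul ((hasDerivAt_id t).mul ((hd m n ht.1 ht.2).1.pow 2))
    refine this.congr_deriv ?_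
    simp only [Pi.mul_apply, Pi.pow_apply, id]
    field_simp
    ring
  have i1 : IntervalIntegrable (fun t : ℝ => (2 * n + m + 1) * (t ^ m * PP m n t ^ 2)) volume 0 1 :=
    (continuous_const.mul ((continuous_pow m).mul ((PP_cont m n).pow 2))).intervalIntegrable _ _
  have i2 : IntervalIntegrable (fun t : ℝ => 2 * (t ^ m * (PP m n t * SP m n t))) volume 0 1 :=
    (continuous_const.mul ((continuous_pow m).mul ((PP_cont m n).mul (SP_cont m n)))).intervalIntegrable _ _
  have h := integral_eq_sub_of_hasDerivAt_of_le zero_le_one hc.continuousOn hd' (i1.add i2)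
  rw [intervalIntegral.integral_add i1 i2, intervalIntegral.integral_const_mul,
    intervalIntegral.integral_const_mul, orthS, PP_one] at h
  simp only [one_pow, mul_one, mul_zero, add_zero, zero_mul, sub_zero] at h
  have : (2 * (n : ℝ) + m + 1) ≠ 0 := by positivity
  field_simp
  linarith

/-- the weighted norm of the kernel away from `1` -/
theorem norm_S (m n : ℕ) : ∫ t in (0 : ℝ)..1, t ^ m * ((1 - t) * SP m (n + 1) t) ^ 2 ≤
    2 * ((((n : ℝ) + 1) * (n + 1 + m) / (2 * (n : ℝ) + m + 2)) ^ 2 *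
      (1 / (2 * n + m + 1) + 1 / (2 * n + m + 3))) := by
  set c : ℝ := ((n : ℝ) + 1) * (n + 1 + m) / (2 * (n : ℝ) + m + 2) with hc
  have i1 : ∀ k, IntervalIntegrable (fun t : ℝ => t ^ m * PP m k t ^ 2) volume 0 1 := fun k =>
    ((continuous_pow m).mul ((PP_cont m k).pow 2)).intervalIntegrable _ _
  have h1 : ∫ t in (0 : ℝ)..1, t ^ m * ((1 - t) * SP m (n + 1) t) ^ 2 ≤
      ∫ t in (0 : ℝ)..1, 2 * c ^ 2 * (t ^ m * PP m n t ^ 2 + t ^ m * PP m (n + 1) t ^ 2) := by
    refine integral_mono_on zero_le_one ?_ (((i1 n).add (i1 (n + 1))).const_mul _) fun t ht => ?_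
    · exact ((continuous_pow m).mul (((continuous_const.sub continuous_id).mul
        (SP_cont m (n + 1))).pow 2)).intervalIntegrable _ _
    · rw [CD, ← hc]
      have : 0 ≤ t ^ m := pow_nonneg ht.1 m
      have h2 : (c * (PP m n t - PP m (n + 1) t)) ^ 2 ≤ 2 * c ^ 2 * (PP m n t ^ 2 + PP m (n + 1) t ^ 2) := by
        have : 0 ≤ c ^ 2 * (PP m n t + PP m (n + 1) t) ^ 2 := by positivity
        nlinarith
      calc t ^ m * (c * (PP m n t - PP m (n + 1) t)) ^ 2
          ≤ t ^ m * (2 * c ^ 2 * (PP m n t ^ 2 + PP m (n + 1) t ^ 2)) := by gcongr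
        _ = _ := by ring
  refine h1.trans (le_of_eq ?_)
  rw [intervalIntegral.integral_const_mul, intervalIntegral.integral_add (i1 n) (i1 (n + 1)), norm_P, norm_P]
  push_cast
  have e : 2 * ((n : ℝ) + 1) + m + 1 = 2 * n + m + 3 := by ring
  rw [e]
  ring

end Pool.Agent.L5helper98.AN
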