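import Mathlib
import Pool.Agent.L5helper98.AN.A1

/-! The operator on the half-line and its kernel formula. -/

set_option autoImplicit false

open Real Finset MeasureTheory intervalIntegral Filter Topology

namespace Pool.Agent.L5helper98.AN

/-- `t h' + c h` -/
noncomputable def Dc (c : ℂ) (h : ℝ → ℂ) (t : ℝ) : ℂ := c * h t + (t : ℂ) * deriv h t

/-- the output `∏_{j<n} (D + m + 1 + j) h` -/
noncomputable def VV (m : ℕ) : ℕ → (ℝ → ℂ) → ℝ → ℂ
  | 0, h => h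
  | n + 1, h => Dc ((m : ℂ) + n + 1) (VV m n h)

theorem VV_zero (m : ℕ) (h : ℝ → ℂ) : VV m 0 h = h := rfl
theorem VV_succ (m n : ℕ) (h : ℝ → ℂ) : VV m (n + 1) h = Dc ((m : ℂ) + n + 1) (VV m n h) := rfl

theorem deriv_smooth {h : ℝ → ℂ} (hh : ContDiff ℝ (⊤ : ℕ∞) h) : ContDiff ℝ (⊤ : ℕ∞) (deriv h) :=
  ((contDiff_infty_iff_deriv (f := h)).1 hh).2

theorem hda {h : ℝ → ℂ} (hh : ContDiff ℝ (⊤ : ℕ∞) h) (t : ℝ) : HasDerivAt h (deriv h t) t :=
  ((hh.differentiable (by norm_num)) t).hasDerivAt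

theorem Dc_smooth (c : ℂ) {h : ℝ → ℂ} (hh : ContDiff ℝ (⊤ : ℕ∞) h) : ContDiff ℝ (⊤ : ℕ∞) (Dc c h) :=
  (contDiff_const.mul hh).add (Complex.ofRealCLM.contDiff.mul (deriv_smooth hh))

theorem VV_smooth (m n : ℕ) {h : ℝ → ℂ} (hh : ContDiff ℝ (⊤ : ℕ∞) h) : ContDiff ℝ (⊤ : ℕ∞) (VV m n h) := by
  induction n with
  | zero => exact hh
  | succ n ih => exact Dc_smooth _ ih

theorem hd_of (t : ℝ) : HasDerivAt (fun s : ℝ => (s : ℂ)) 1 t := Complex.ofRealCLM.hasDerivAt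

theorem deriv_Dc (c : ℂ) {h : ℝ → ℂ} (hh : ContDiff ℝ (⊤ : ℕ∞) h) : deriv (Dc c h) = Dc (c + 1) (deriv h) := by
  funext t
  have h1 := ((hda hh t).const_mul c).add ((hd_of t).mul (hda (deriv_smooth hh) t))
  have h2 : HasDerivAt (Dc c h) _ t := h1
  rw [h2.deriv]
  unfold Dc
  ring

theorem Dc_comm (c d : ℂ) {h : ℝ → ℂ} (hh : ContDiff ℝ (⊤ : ℕ∞) h) : Dc c (Dc d h) = Dc d (Dc c h) := by
  funext t
  unfold Dc
  have e1 : deriv (fun t : ℝ => d * h t + (t : ℂ) * deriv h t) t = deriv (Dc d h) t := rfl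
  have e2 : deriv (fun t : ℝ => c * h t + (t : ℂ) * deriv h t) t = deriv (Dc c h) t := rfl
  rw [e1, e2, deriv_Dc d hh, deriv_Dc c hh]
  unfold Dc
  ring

theorem VV_Dc (m n : ℕ) (c : ℂ) {h : ℝ → ℂ} (hh : ContDiff ℝ (⊤ : ℕ∞) h) :
    VV m n (Dc c h) = Dc c (VV m n h) := by
  induction n with
  | zero => rfl
  | succ n ih => rw [VV_succ, ih, VV_succ, Dc_comm _ _ (VV_smooth m n hh)]

theorem VV_succ' (m n : ℕ) {h : ℝ → ℂ} (hh : ContDiff ℝ (⊤ : ℕ∞) h) :
    VV m (n + 1) h = VV m n (Dc ((m : ℂ) + n + 1) h) := by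
  rw [VV_Dc m n _ hh]; rfl

theorem deriv_VV (m n : ℕ) {h : ℝ → ℂ} (hh : ContDiff ℝ (⊤ : ℕ∞) h) :
    deriv (VV m n h) = VV (m + 1) n (deriv h) := by
  induction n with
  | zero => rfl
  | succ n ih =>
    rw [VV_succ, deriv_Dc _ (VV_smooth m n hh), ih, VV_succ]
    congr 1
    push_cast
    ring

theorem iter_VV (m n j : ℕ) {h : ℝ → ℂ} (hh : ContDiff ℝ (⊤ : ℕ∞) h) :
    iteratedDeriv j (VV m n h) = VV (m + j) n (iteratedDeriv j h) := by
  induction j generalizing m h with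
  | zero => simp
  | succ j ih =>
    rw [iteratedDeriv_succ', iteratedDeriv_succ', deriv_VV m n hh, ih (m + 1) (deriv_smooth hh)]
    congr 1
    omega

theorem iter_smooth {h : ℝ → ℂ} (hh : ContDiff ℝ (⊤ : ℕ∞) h) (n : ℕ) :
    ContDiff ℝ (⊤ : ℕ∞) (iteratedDeriv n h) := by
  induction n with
  | zero => simpa using hh
  | succ n ih => rw [iteratedDeriv_succ]; exact deriv_smooth ih

/-- the input `t ^ n h^(n)` -/
noncomputable def gg (n : ℕ) (h : ℝ → ℂ) (t : ℝ) : ℂ := (t : ℂ) ^ n * iteratedDeriv n h t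

theorem gg_smooth (n : ℕ) {h : ℝ → ℂ} (hh : ContDiff ℝ (⊤ : ℕ∞) h) : ContDiff ℝ (⊤ : ℕ∞) (gg n h) :=
  (Complex.ofRealCLM.contDiff.pow n).mul (iter_smooth hh n)

theorem cpow_hd (m : ℕ) {t : ℝ} (h0 : t ≠ 0) :
    HasDerivAt (fun s : ℝ => (s : ℂ) ^ m) (m * (t : ℂ) ^ m / t) t := by
  have h1 : HasDerivAt (fun s : ℝ => (s : ℂ) ^ m) (m * (t : ℂ) ^ (m - 1)) t := by
    exact (hasDerivAt_pow m (t : ℂ)).comp_ofReal
  refine h1.congr_deriv ?_
  have h2 : (t : ℂ) ≠ 0 := Complex.ofReal_ne_zero.2 h0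
  cases m with
  | zero => simp
  | succ m =>
    simp only [Nat.add_sub_cancel]
    rw [pow_succ]
    field_simp

theorem gg_D (n : ℕ) {h : ℝ → ℂ} (hh : ContDiff ℝ (⊤ : ℕ∞) h) (t : ℝ) :
    (t : ℂ) * deriv (gg n h) t - n * gg n h t = gg (n + 1) h t := by
  by_cases h0 : t = 0
  · subst h0
    unfold gg
    cases n with
    | zero => simp
    | succ n => simp
  · have h1 : HasDerivAt (gg n h) _ t := (cpow_hd n h0).mul (hda (iter_smooth hh n) t)
    rw [h1.deriv]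
    unfold gg
    rw [iteratedDeriv_succ]
    have h2 : (t : ℂ) ≠ 0 := Complex.ofReal_ne_zero.2 h0
    field_simp
    ring

theorem iter_Dc (n : ℕ) (c : ℂ) {h : ℝ → ℂ} (hh : ContDiff ℝ (⊤ : ℕ∞) h) :
    iteratedDeriv n (Dc c h) = Dc (c + n) (iteratedDeriv n h) := by
  induction n with
  | zero => simp
  | succ n ih =>
    rw [iteratedDeriv_succ, ih, deriv_Dc _ (iter_smooth hh n), iteratedDeriv_succ]
    congr 1
    push_cast
    ring

/-- the input for `(D + m + n + 1) h` -/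
theorem gg_Dc (m n : ℕ) {h : ℝ → ℂ} (hh : ContDiff ℝ (⊤ : ℕ∞) h) (t : ℝ) :
    gg n (Dc ((m : ℂ) + n + 1) h) t = gg (n + 1) h t + (2 * (n : ℂ) + m + 1) * gg n h t := by
  unfold gg
  rw [iter_Dc n _ hh, iteratedDeriv_succ]
  unfold Dc
  ring

theorem ccdiv (t : ℝ) {a : ℝ} (ha : 0 < a) (ha1 : a ≤ 1) {P : ℝ → ℝ} {F : ℝ → ℂ} (hP : Continuous P)
    (hF : Continuous F) :
    ContinuousOn (fun u : ℝ => (P u : ℂ) * (F (t / u) / u)) (Set.uIcc a 1) := by
  rw [Set.uIcc_of_le ha1]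
  have h0 : ∀ u ∈ Set.Icc a 1, u ≠ 0 := fun u hu => (lt_of_lt_of_le ha hu.1).ne'
  have h1 : ContinuousOn (fun u : ℝ => t / u) (Set.Icc a 1) :=
    continuousOn_const.div continuousOn_id h0
  refine ContinuousOn.mul (Complex.continuous_ofReal.comp hP).continuousOn ?_
  exact (hF.comp_continuousOn h1).div Complex.continuous_ofReal.continuousOn
    fun u hu => Complex.ofReal_ne_zero.2 (h0 u hu)

theorem step (m n : ℕ) {X G : ℝ → ℂ} (hX : ContDiff ℝ (⊤ : ℕ∞) X) (hG : Continuous G)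
    (h : ∀ x : ℝ, (x : ℂ) * deriv X x - (n : ℂ) * X x = G x) {t a : ℝ}
    (ha : 0 < a) (ha1 : a ≤ 1) (hz : X (t / a) = 0) :
    ∫ u in a..1, (PP m n u : ℂ) * (G (t / u) / u) =
      -X t + ∫ u in a..1, (SP m n u : ℂ) * (X (t / u) / u) := by
  have hd' : ∀ u ∈ Set.Ioo a 1, HasDerivAt (fun u : ℝ => (PP m n u : ℂ) * X (t / u))
      ((SP m n u : ℂ) * (X (t / u) / u) - (PP m n u : ℂ) * (G (t / u) / u)) u := by
    intro u hu
    have hu0 : 0 < u := lt_trans ha hu.1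
    have hu0' : (u : ℂ) ≠ 0 := Complex.ofReal_ne_zero.2 hu0.ne'
    have h2 : HasDerivAt (fun u : ℝ => (PP m n u : ℂ)) (((n * PP m n u + SP m n u) / u : ℝ) : ℂ) u :=
      (hd m n hu0 hu.2).1.ofReal_comp
    have h3 : HasDerivAt (fun u : ℝ => t / u) (-(t / u ^ 2)) u := by
      have := (hasDerivAt_inv hu0.ne').const_mul t
      refine (this.congr_deriv ?_).congr_of_eventuallyEq ?_
      · field_simp
      · exact Filter.Eventually.of_forall fun y => by simp [div_eq_mul_inv]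
    have h5 : HasDerivAt (fun u => X (t / u)) ((-(t / u ^ 2) : ℝ) • deriv X (t / u)) u :=
      (hda hX (t / u)).scomp u h3
    refine (h2.mul h5).congr_deriv ?_
    rw [← h (t / u), Complex.real_smul]
    push_cast
    field_simp
    ring
  have hc1 := (ccdiv t ha ha1 (SP_cont m n) hX.continuous)
  have hc2 := (ccdiv t ha ha1 (PP_cont m n) hG)
  have hi1 := hc1.intervalIntegrable (μ := volume)
  have hi2 := hc2.intervalIntegrable (μ := volume)
  have hc3 : ContinuousOn (fun u : ℝ => (PP m n u : ℂ) * X (t / u)) (Set.Icc a 1) := by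
    have h0 : ∀ u ∈ Set.Icc a 1, u ≠ 0 := fun u hu => (lt_of_lt_of_le ha hu.1).ne'
    have h1 : ContinuousOn (fun u : ℝ => t / u) (Set.Icc a 1) :=
      continuousOn_const.div continuousOn_id h0
    exact (Complex.continuous_ofReal.comp (PP_cont m n)).continuousOn.mul (hX.continuous.comp_continuousOn h1)
  have h6 := integral_eq_sub_of_hasDerivAt_of_le ha1 hc3 hd' (hi1.sub hi2)
  rw [intervalIntegral.integral_sub hi1 hi2, hz, mul_zero, sub_zero, PP_one, Complex.ofReal_one, one_mul,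
    div_one] at h6
  linear_combination -h6

theorem gg_zero_of {n : ℕ} {h : ℝ → ℂ} {R x : ℝ} (hR : ∀ x, R ≤ x → h x = 0) (hx : R < x) : gg n h x = 0 := by
  have h1 : h =ᶠ[𝓝 x] fun _ => (0 : ℂ) := by
    filter_upwards [Ioi_mem_nhds hx] with y hy
    exact hR y (le_of_lt hy)
  unfold gg
  rw [Filter.EventuallyEq.iteratedDeriv_eq n h1]
  simp

theorem Dc_zero_of {c : ℂ} {h : ℝ → ℂ} {R : ℝ} (hR : ∀ x, R < x → h x = 0) : ∀ x, R < x → Dc c h x = 0 := by
  intro x hx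
  have h1 : h =ᶠ[𝓝 x] fun _ => (0 : ℂ) := by
    filter_upwards [Ioi_mem_nhds hx] with y hy
    exact hR y hy
  unfold Dc
  rw [h1.deriv_eq, hR x hx]
  simp

theorem VV_zero_of {m n : ℕ} {h : ℝ → ℂ} {R : ℝ} (hR : ∀ x, R < x → h x = 0) : ∀ x, R < x → VV m n h x = 0 := by
  induction n with
  | zero => exact hR
  | succ n ih => exact Dc_zero_of ih

theorem gg_zero_of' {n : ℕ} {h : ℝ → ℂ} {R : ℝ} (hR : ∀ x, R < x → h x = 0) : ∀ x, R < x → gg n h x = 0 := by
  intro x hx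
  have h1 : h =ᶠ[𝓝 x] fun _ => (0 : ℂ) := by
    filter_upwards [Ioi_mem_nhds hx] with y hy
    exact hR y hy
  unfold gg
  rw [Filter.EventuallyEq.iteratedDeriv_eq n h1]
  simp

/-- the kernel formula -/
theorem kform (m n : ℕ) {h : ℝ → ℂ} (hh : ContDiff ℝ (⊤ : ℕ∞) h) {R : ℝ} (hR : ∀ x, R < x → h x = 0)
    {t a : ℝ} (ha : 0 < a) (ha1 : a ≤ 1) (hta : R < t / a) :
    VV m n h t = gg n h t - ∫ u in a..1, (SP m n u : ℂ) * (gg n h (t / u) / u) := by
  induction n generalizing h with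
  | zero =>
    simp only [VV_zero, SP_zero, Complex.ofReal_zero, zero_mul, intervalIntegral.integral_zero, sub_zero]
    unfold gg
    simp
  | succ n ih =>
    rw [VV_succ' m n hh, ih (Dc_smooth _ hh) (Dc_zero_of hR)]
    have hs := step m n (gg_smooth n hh) (gg_smooth (n + 1) hh).continuous (gg_D n hh) ha ha1
      (gg_zero_of' hR _ hta)
    have i1 := (ccdiv t ha ha1 (SP_cont m n) (gg_smooth (n + 1) hh).continuous).intervalIntegrable (μ := volume)
    have i2 := (ccdiv t ha ha1 (SP_cont m n) (gg_smooth n hh).continuous).intervalIntegrable (μ := volume)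
    have i3 := (ccdiv t ha ha1 (PP_cont m n) (gg_smooth (n + 1) hh).continuous).intervalIntegrable (μ := volume)
    have e1 : ∫ u in a..1, (SP m n u : ℂ) * (gg n (Dc ((m : ℂ) + n + 1) h) (t / u) / u) =
        (∫ u in a..1, (SP m n u : ℂ) * (gg (n + 1) h (t / u) / u)) +
          (2 * (n : ℂ) + m + 1) * ∫ u in a..1, (SP m n u : ℂ) * (gg n h (t / u) / u) := by
      rw [← intervalIntegral.integral_const_mul, ← intervalIntegral.integral_add i1 (i2.const_mul _)]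
      refine intervalIntegral.integral_congr fun u _ => ?_
      simp only [gg_Dc m n hh]
      ring
    have e2 : ∫ u in a..1, (SP m (n + 1) u : ℂ) * (gg (n + 1) h (t / u) / u) =
        (∫ u in a..1, (SP m n u : ℂ) * (gg (n + 1) h (t / u) / u)) +
          (2 * (n : ℂ) + m + 1) * ∫ u in a..1, (PP m n u : ℂ) * (gg (n + 1) h (t / u) / u) := by
      rw [← intervalIntegral.integral_const_mul, ← intervalIntegral.integral_add i1 (i3.const_mul _)]
      refine intervalIntegral.integral_congr fun u _ => ?_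
      simp only [SP_succ]
      push_cast
      ring
    rw [e1, e2, hs, gg_Dc m n hh]
    ring

end Pool.Agent.L5helper98.AN
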