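import Mathlib

/-! Sonin's functions for the differential equation, abstractly. -/

set_option autoImplicit false

open Real Set

namespace Pool.Agent.L5helper98.AN

theorem mono' {f f' : ℝ → ℝ} {a b : ℝ} (hab : a ≤ b) (hc : ContinuousOn f (Icc a b))
    (hd : ∀ x ∈ Ioo a b, HasDerivAt f (f' x) x) (h0 : ∀ x ∈ Ioo a b, 0 ≤ f' x) : f a ≤ f b := by
  have h1 : MonotoneOn f (Icc a b) := by
    refine monotoneOn_of_deriv_nonneg (convex_Icc a b) hc ?_ ?_
    · rw [interior_Icc]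
      exact fun x hx => (hd x hx).differentiableAt.differentiableWithinAt
    · rw [interior_Icc]
      intro x hx
      rw [(hd x hx).deriv]
      exact h0 x hx
  exact h1 ⟨le_rfl, hab⟩ ⟨hab, le_rfl⟩ hab

/-- the equation -/
structure Eq (κ μ : ℝ) (w v : ℝ → ℝ) : Prop where
  hw : ∀ t ∈ Ioo (0 : ℝ) 1, HasDerivAt w (v t / t) t
  hv : ∀ t ∈ Ioo (0 : ℝ) 1, HasDerivAt v ((v t - w t * (κ * (κ + 1) * t - μ) / t) / (1 - t)) t
  cw : Continuous w
  cv : Continuous v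
  one : w 1 = 1

variable {κ μ : ℝ} {w v : ℝ → ℝ}

theorem Eq.hy (H : Eq κ μ w v) {t : ℝ} (ht : t ∈ Ioo (0 : ℝ) 1) :
    HasDerivAt (fun s => (1 - s) * v s) (-(w t * (κ * (κ + 1) * t - μ) / t)) t := by
  have h8 : HasDerivAt (fun s : ℝ => 1 - s) (-1) t := by
    simpa using (hasDerivAt_id t).const_sub 1
  refine (h8.mul (H.hv t ht)).congr_deriv ?_
  have h1 : (1 - t) ≠ 0 := by linarith [ht.2]
  have h0 : t ≠ 0 := ht.1.ne'
  field_simp
  ring

theorem Eq.F_le (H : Eq κ μ w v) (hκ : 0 < κ) (hμ : μ < κ * (κ + 1)) {t : ℝ} (ht : t ∈ Ioo (0 : ℝ) 1)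
    (h : μ ≤ κ * (κ + 1) * (2 * t - 1)) :
    w t ^ 2 + (1 - t) * v t ^ 2 / (κ * (κ + 1) * t - μ) ≤ 1 := by
  have hk : 0 < κ * (κ + 1) := by positivity
  have hD : ∀ s ∈ Icc t 1, 0 < κ * (κ + 1) * s - μ := by
    intro s hs
    rcases hs.2.lt_or_eq with h1 | h1
    · have : κ * (κ + 1) * (2 * t - 1) ≤ κ * (κ + 1) * (2 * s - 1) := by
        apply mul_le_mul_of_nonneg_left _ hk.le
        linarith [hs.1]
      nlinarith [mul_pos hk (sub_pos.2 h1)]
    · rw [h1]; linarith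
  have key := mono' (f := fun s => w s ^ 2 + (1 - s) * v s ^ 2 / (κ * (κ + 1) * s - μ))
    (f' := fun s => v s ^ 2 * ((κ * (κ + 1) * s - μ) - (1 - s) * (κ * (κ + 1))) / (κ * (κ + 1) * s - μ) ^ 2) ht.2.le ?_ ?_ ?_
  · refine key.trans (le_of_eq ?_)
    rw [H.one]
    ring
  · refine ContinuousOn.add (H.cw.continuousOn.pow 2) (ContinuousOn.div ?_ ?_ ?_)
    · exact ((continuous_const.sub continuous_id).mul (H.cv.pow 2)).continuousOn
    · exact ((continuous_const.mul continuous_id).sub continuous_const).continuousOn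
    · exact fun s hs => (hD s hs).ne'
  · intro s hs
    have hs' : s ∈ Ioo (0 : ℝ) 1 := ⟨ht.1.trans hs.1, hs.2⟩
    have hDs := (hD s ⟨hs.1.le, hs.2.le⟩).ne'
    have h8 : HasDerivAt (fun s : ℝ => 1 - s) (-1) s := by
      simpa using (hasDerivAt_id s).const_sub 1
    have h9 : HasDerivAt (fun s : ℝ => κ * (κ + 1) * s - μ) (κ * (κ + 1)) s := by
      simpa using ((hasDerivAt_id s).const_mul (κ * (κ + 1))).sub_const μ
    have := ((H.hw s hs').pow 2).add ((h8.mul ((H.hv s hs').pow 2)).div h9 hDs)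
    refine this.congr_deriv ?_
    have h1 : (1 - s) ≠ 0 := by linarith [hs.2]
    have h0 : s ≠ 0 := hs'.1.ne'
    simp only [Pi.mul_apply, Pi.pow_apply]
    set D := κ * (κ + 1) * s - μ
    field_simp
    ring
  · intro s hs
    have : κ * (κ + 1) * (2 * t - 1) ≤ κ * (κ + 1) * (2 * s - 1) := by
      apply mul_le_mul_of_nonneg_left _ hk.le
      linarith [hs.1]
    have : 0 ≤ (κ * (κ + 1) * s - μ) - (1 - s) * (κ * (κ + 1)) := by linarith
    positivity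

/-- `y ^ 2 + R w ^ 2 ≤ R` -/
theorem Eq.E_le (H : Eq κ μ w v) (hκ : 0 < κ) (hμ : μ < κ * (κ + 1)) {t : ℝ} (ht : t ∈ Ioo (0 : ℝ) 1)
    (h : μ ≤ κ * (κ + 1) * (2 * t - 1)) :
    ((1 - t) * v t) ^ 2 + (1 - t) * (κ * (κ + 1) * t - μ) * w t ^ 2 ≤ (1 - t) * (κ * (κ + 1) * t - μ) ∧
      w t ^ 2 ≤ 1 := by
  have h1 := H.F_le hκ hμ ht h
  have hk : 0 < κ * (κ + 1) := by positivity
  have hx : 0 < 1 - t := by linarith [ht.2]
  have hD : 0 < κ * (κ + 1) * t - μ := by nlinarith [mul_pos hk hx]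
  constructor
  · have h2 : (1 - t) * v t ^ 2 / (κ * (κ + 1) * t - μ) ≤ 1 - w t ^ 2 := by linarith
    rw [div_le_iff₀ hD] at h2
    have h3 := mul_le_mul_of_nonneg_left h2 hx.le
    nlinarith
  · have : 0 ≤ (1 - t) * v t ^ 2 / (κ * (κ + 1) * t - μ) := by positivity
    linarith

/-- the second function -/
noncomputable def NN (κ μ : ℝ) (w v : ℝ → ℝ) (t : ℝ) : ℝ :=
  ((1 - t) * v t) ^ 2 + (1 - t) * (κ * (κ + 1) * t - μ) * w t ^ 2 + w t ^ 2 / 8 -
    (2 * t - 1) * ((1 - t) * v t) * w t / 2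

theorem Eq.N_hd (H : Eq κ μ w v) {t : ℝ} (ht : t ∈ Ioo (0 : ℝ) 1) :
    HasDerivAt (NN κ μ w v) (w t ^ 2 * (-(κ * (κ + 1) * t - μ) + (1 - t) * (κ * (κ + 1))) +
      w t * ((1 - t) * v t) / (4 * (t * (1 - t))) - ((1 - t) * v t) * w t +
      (2 * t - 1) * (κ * (κ + 1) * t - μ) / t * w t ^ 2 / 2 -
      (2 * t - 1) * ((1 - t) * v t) ^ 2 / (2 * (t * (1 - t)))) t := by
  have h1 : (1 - t) ≠ 0 := by linarith [ht.2]
  have h0 : t ≠ 0 := ht.1.ne'
  have h8 : HasDerivAt (fun s : ℝ => 1 - s) (-1) t := by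
    simpa using (hasDerivAt_id t).const_sub 1
  have h9 : HasDerivAt (fun s : ℝ => κ * (κ + 1) * s - μ) (κ * (κ + 1)) t := by
    simpa using ((hasDerivAt_id t).const_mul (κ * (κ + 1))).sub_const μ
  have h10 : HasDerivAt (fun s : ℝ => 2 * s - 1) 2 t := by
    simpa using ((hasDerivAt_id t).const_mul (2 : ℝ)).sub_const 1
  have hy := H.hy ht
  have hw := H.hw t ht
  have := (((hy.pow 2).add ((h8.mul h9).mul (hw.pow 2))).add ((hw.pow 2).div_const 8)).sub
    (((h10.mul hy).mul hw).div_const 2)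
  refine this.congr_deriv ?_
  simp only [Pi.mul_apply, Pi.pow_apply]
  field_simp
  ring

theorem Eq.Phi_le (H : Eq κ μ w v) {t t1 : ℝ} (h0 : 0 < t) (h1 : t1 < 1) (h : t ≤ t1)
    (hm : ∀ s ∈ Icc t t1, 0 ≤ (1 - s) ^ 2 * μ + (2 * s - 1) / 16) :
    NN κ μ w v t / √(t * (1 - t)) ≤ NN κ μ w v t1 / √(t1 * (1 - t1)) := by
  have hT : ∀ s ∈ Icc t t1, 0 < s * (1 - s) := fun s hs =>
    mul_pos (by linarith [hs.1]) (by linarith [hs.2])
  refine mono' (f := fun s => NN κ μ w v s / √(s * (1 - s)))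
    (f' := fun s => w s ^ 2 * ((1 - s) ^ 2 * μ + (2 * s - 1) / 16) / (s * (1 - s) * √(s * (1 - s)))) h ?_ ?_ ?_
  · refine ContinuousOn.div ?_ ?_ fun s hs => (Real.sqrt_pos.2 (hT s hs)).ne'
    · refine Continuous.continuousOn ?_
      unfold NN
      have := H.cw
      have := H.cv
      fun_prop
    · exact (Real.continuous_sqrt.comp (by fun_prop : Continuous fun s : ℝ => s * (1 - s))).continuousOn
  · intro s hs
    have hs' : s ∈ Ioo (0 : ℝ) 1 := ⟨h0.trans hs.1, hs.2.trans h1⟩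
    have hTs := hT s ⟨hs.1.le, hs.2.le⟩
    have h8 : HasDerivAt (fun s : ℝ => 1 - s) (-1) s := by
      simpa using (hasDerivAt_id s).const_sub 1
    have h11 : HasDerivAt (fun s : ℝ => s * (1 - s)) (1 - 2 * s) s := by
      refine ((hasDerivAt_id s).mul h8).congr_deriv ?_
      simp only [id]
      ring
    have h12 := h11.sqrt hTs.ne'
    have hr : 0 < √(s * (1 - s)) := Real.sqrt_pos.2 hTs
    have hr2 : √(s * (1 - s)) ^ 2 = s * (1 - s) := Real.sq_sqrt hTs.le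
    have h13 := (H.N_hd hs').div h12 hr.ne'
    refine h13.congr_deriv ?_
    have e1 : (1 - s) ≠ 0 := by linarith [hs'.2]
    have e0 : s ≠ 0 := hs'.1.ne'
    set r := √(s * (1 - s)) with hrdef
    rw [div_eq_div_iff (by positivity) (by positivity)]
    unfold NN
    have e2 : (1 - 2 * s) / (2 * r) = (1 - 2 * s) * r / (2 * (s * (1 - s))) := by
      rw [← hr2]; field_simp
    rw [e2, hr2]
    field_simp
    linear_combination (128 * w s ^ 2 * (2 * s - 1 + 16 * μ * (1 - s) ^ 2)) * hr2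
  · intro s hs
    have hTs := hT s ⟨hs.1.le, hs.2.le⟩
    have := hm s ⟨hs.1.le, hs.2.le⟩
    have hr : 0 < √(s * (1 - s)) := Real.sqrt_pos.2 hTs
    positivity

theorem Eq.N_eq (t : ℝ) : NN κ μ w v t = ((1 - t) * v t - (2 * t - 1) * w t / 4) ^ 2 +
    w t ^ 2 * ((1 - t) * (κ * (κ + 1) * t - μ) + 1 / 16 + t * (1 - t) / 4) := by
  unfold NN; ring

end Pool.Agent.L5helper98.AN
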