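import Mathlib
import Pool.Agent.L5helper98.AN.A3

/-! Bounds for the solution and the kernel, abstractly. -/

set_option autoImplicit false

open Real Set

namespace Pool.Agent.L5helper98.AN

variable {κ μ : ℝ} {w v : ℝ → ℝ}

/-- the bound of the second function; `x = 1 - t = r ^ 2` -/
theorem Eq.core (H : Eq κ μ w v) {ω : ℝ} (hω : 0 < ω) (hω2 : ω ^ 2 = κ ^ 2 - μ) (hω1 : 1 ≤ ω ^ 2)
    (hκ : 0 < κ) (hκω : κ ≤ ω ^ 2) {x r : ℝ} (hr : 0 < r) (hx : x = r ^ 2) (hx1 : x < 1)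
    (hx0 : 1 / (2 * ω ^ 2) ≤ x)
    (hm : ∀ s ∈ Icc (1 - x) 1, 0 ≤ (1 - s) ^ 2 * μ + (2 * s - 1) / 16) :
    NN κ μ w v (1 - x) ≤ 13 / 4 * (ω * r) := by
  set x1 : ℝ := 1 / (2 * ω ^ 2) with hx1d
  have hω20 : 0 < ω ^ 2 := by positivity
  have hx1p : 0 < x1 := by positivity
  have hx1e : x1 * ω ^ 2 = 1 / 2 := by rw [hx1d]; field_simp
  have hx1h : x1 ≤ 1 / 2 := by nlinarith
  have ht1 : (1 - x1) ∈ Ioo (0 : ℝ) 1 := ⟨by linarith, by linarith⟩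
  have hk : 0 < κ * (κ + 1) := by positivity
  have c1 : κ * (κ + 1) * x1 ≤ (ω ^ 2 + κ) / 2 := by
    have : κ * (κ + 1) ≤ ω ^ 2 * (ω ^ 2 + κ) := by nlinarith
    calc κ * (κ + 1) * x1 ≤ (ω ^ 2 * (ω ^ 2 + κ)) * x1 := by gcongr
      _ = (x1 * ω ^ 2) * (ω ^ 2 + κ) := by ring
      _ = _ := by rw [hx1e]; ring
  have hcond : μ ≤ κ * (κ + 1) * (2 * (1 - x1) - 1) := by nlinarith
  have hμ : μ < κ * (κ + 1) := by nlinarith
  obtain ⟨hE, hW⟩ := H.E_le hκ hμ ht1 hcond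
  have e1 : 1 - (1 - x1) = x1 := by ring
  rw [e1] at hE
  set y := x1 * v (1 - x1) with hy
  set W := w (1 - x1) with hWd
  have hR : x1 * (κ * (κ + 1) * (1 - x1) - μ) ≤ 1 := by
    have h1 : κ * (κ + 1) * (1 - x1) - μ ≤ 2 * ω ^ 2 := by nlinarith [mul_pos hk hx1p]
    calc x1 * (κ * (κ + 1) * (1 - x1) - μ) ≤ x1 * (2 * ω ^ 2) := by gcongr
      _ = 1 := by linarith
  have hR0 : 0 ≤ x1 * (κ * (κ + 1) * (1 - x1) - μ) := by
    apply mul_nonneg hx1p.le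
    nlinarith
  have hN1 : NN κ μ w v (1 - x1) ≤ 13 / 8 := by
    unfold NN
    rw [e1, ← hy, ← hWd]
    have h1 : y ^ 2 ≤ 1 := by nlinarith [mul_nonneg hR0 (sq_nonneg W)]
    have h2 : -((2 * (1 - x1) - 1) * y * W / 2) ≤ (y ^ 2 + W ^ 2) / 4 := by
      have a0 : 0 ≤ 2 * (1 - x1) - 1 := by linarith
      have a1 : 2 * (1 - x1) - 1 ≤ 1 := by linarith
      have h3 : -(y * W) ≤ (y ^ 2 + W ^ 2) / 2 := by nlinarith [sq_nonneg (y + W)]
      have h4 : (2 * (1 - x1) - 1) * (-(y * W)) ≤ (2 * (1 - x1) - 1) * ((y ^ 2 + W ^ 2) / 2) :=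
        mul_le_mul_of_nonneg_left h3 a0
      have h5 : (2 * (1 - x1) - 1) * ((y ^ 2 + W ^ 2) / 2) ≤ 1 * ((y ^ 2 + W ^ 2) / 2) :=
        mul_le_mul_of_nonneg_right a1 (by positivity)
      linarith
    linarith
  have hT1 : 1 / (2 * ω) ≤ √((1 - x1) * (1 - (1 - x1))) := by
    apply Real.le_sqrt_of_sq_le
    rw [e1]
    have h1 : (1 / (2 * ω)) ^ 2 = x1 / 2 := by rw [hx1d]; field_simp
    rw [h1]
    nlinarith
  have hP := H.Phi_le (t := 1 - x) (t1 := 1 - x1) (by linarith) (by linarith) (by linarith)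
    fun s hs => hm s ⟨hs.1, by linarith [hs.2]⟩
  have h6 : NN κ μ w v (1 - x1) / √((1 - x1) * (1 - (1 - x1))) ≤ 13 / 4 * ω := by
    have h7 : 0 < √((1 - x1) * (1 - (1 - x1))) := lt_of_lt_of_le (by positivity) hT1
    rw [div_le_iff₀ h7]
    have h8 : 13 / 4 * ω * (1 / (2 * ω)) = 13 / 8 := by field_simp; norm_num
    have h9 : 13 / 4 * ω * (1 / (2 * ω)) ≤ 13 / 4 * ω * √((1 - x1) * (1 - (1 - x1))) := by gcongr
    linarith
  have h10 := hP.trans h6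
  have hxp : 0 < x := lt_of_lt_of_le hx1p hx0
  have h11 : 0 < √((1 - x) * (1 - (1 - x))) := Real.sqrt_pos.2 (by
    rw [sub_sub_cancel]; exact mul_pos (by linarith) hxp)
  rw [div_le_iff₀ h11] at h10
  have h12 : √((1 - x) * (1 - (1 - x))) ≤ r := by
    rw [Real.sqrt_le_left hr.le, sub_sub_cancel, ← hx]
    nlinarith
  calc NN κ μ w v (1 - x) ≤ 13 / 4 * ω * √((1 - x) * (1 - (1 - x))) := h10
    _ ≤ 13 / 4 * ω * r := by gcongr
    _ = _ := by ring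

/-- `w ^ 2 ≤ 13 / (ω √x)` -/
theorem Eq.w_bd (H : Eq κ μ w v) {ω : ℝ} (hω : 0 < ω) (hω2 : ω ^ 2 = κ ^ 2 - μ) (hω1 : 1 ≤ ω ^ 2)
    (hκ : 0 < κ) (hκω : κ ≤ ω ^ 2) {x r : ℝ} (hr : 0 < r) (hx : x = r ^ 2) (hx1 : x < 1)
    (hx2 : κ * (κ + 1) * x ≤ 3 / 4 * (ω ^ 2 + κ))
    (hm : ∀ s ∈ Icc (1 - x) 1, 0 ≤ (1 - s) ^ 2 * μ + (2 * s - 1) / 16) :
    w (1 - x) ^ 2 * (ω * r) ≤ 13 := by
  have hxp : 0 < x := by rw [hx]; positivity
  have hk : 0 < κ * (κ + 1) := by positivity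
  have hω20 : 0 < ω ^ 2 := by positivity
  rcases le_total (1 / (2 * ω ^ 2)) x with h | h
  · have hN := H.core hω hω2 hω1 hκ hκω hr hx hx1 h hm
    rw [Eq.N_eq] at hN
    have e1 : 1 - (1 - x) = x := by ring
    rw [e1] at hN
    have hR : x * ω ^ 2 / 4 ≤ x * (κ * (κ + 1) * (1 - x) - μ) + 1 / 16 + (1 - x) * x / 4 := by
      have h1 : ω ^ 2 / 4 ≤ κ * (κ + 1) * (1 - x) - μ := by nlinarith
      have h2 : x * (ω ^ 2 / 4) ≤ x * (κ * (κ + 1) * (1 - x) - μ) := by gcongr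
      have h3 : 0 ≤ (1 - x) * x := mul_nonneg (by linarith) hxp.le
      linarith
    have h4 : w (1 - x) ^ 2 * (x * ω ^ 2 / 4) ≤ 13 / 4 * (ω * r) := by
      have h5 : w (1 - x) ^ 2 * (x * ω ^ 2 / 4) ≤
          w (1 - x) ^ 2 * (x * (κ * (κ + 1) * (1 - x) - μ) + 1 / 16 + (1 - x) * x / 4) := by gcongr
      nlinarith [sq_nonneg (x * v (1 - x) - (2 * (1 - x) - 1) * w (1 - x) / 4)]
    have h6 : 0 < ω * r := by positivity
    have h7 : w (1 - x) ^ 2 * (ω * r) * (ω * r) ≤ 13 * (ω * r) := by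
      have : w (1 - x) ^ 2 * (x * ω ^ 2 / 4) = w (1 - x) ^ 2 * (ω * r) * (ω * r) / 4 := by rw [hx]; ring
      rw [this] at h4
      linarith
    exact le_of_mul_le_mul_right h7 h6
  · have hx1e : x * ω ^ 2 ≤ 1 / 2 := by
      rw [le_div_iff₀ (by positivity)] at h
      linarith
    have hcond : μ ≤ κ * (κ + 1) * (2 * (1 - x) - 1) := by
      have : κ * (κ + 1) ≤ ω ^ 2 * (ω ^ 2 + κ) := by nlinarith
      have h2 : κ * (κ + 1) * x ≤ (ω ^ 2 * (ω ^ 2 + κ)) * x := by gcongr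
      have h3 : (ω ^ 2 * (ω ^ 2 + κ)) * x ≤ (ω ^ 2 + κ) / 2 := by nlinarith
      nlinarith
    have hμ : μ < κ * (κ + 1) := by nlinarith
    obtain ⟨-, hW⟩ := H.E_le hκ hμ (t := 1 - x) ⟨by linarith, by linarith⟩ hcond
    have h4 : (ω * r) ≤ 1 := by
      apply abs_le_of_sq_le_sq' _ zero_le_one |>.2
      rw [mul_pow, ← hx]; nlinarith
    have h5 : w (1 - x) ^ 2 * (ω * r) ≤ 1 * 1 := mul_le_mul hW h4 (by positivity) zero_le_one
    linarith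

/-- the kernel `S = v - κ w` -/
theorem Eq.s_bd (H : Eq κ μ w v) {ω : ℝ} (hω : 0 < ω) (hω2 : ω ^ 2 = κ ^ 2 - μ) (hω1 : 1 ≤ ω ^ 2)
    (hκ : 0 < κ) (hκω : κ ≤ ω ^ 2) (hμ0 : 0 ≤ μ) {x r : ℝ} (hr : 0 < r) (hx : x = r ^ 2)
    (hx2 : 2 * κ ^ 2 * x ≤ ω ^ 2) :
    (v (1 - x) - κ * w (1 - x)) ^ 2 * (x * r) ≤ 36 * ω := by
  have hxp : 0 < x := by rw [hx]; positivity
  have hk : 0 < κ * (κ + 1) := by positivity
  have hω20 : 0 < ω ^ 2 := by positivity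
  have hωκ : ω ^ 2 ≤ κ ^ 2 := by linarith
  have hxh : x ≤ 1 / 2 := by
    have : κ ^ 2 * (2 * x) ≤ κ ^ 2 * 1 := by linarith
    have := le_of_mul_le_mul_left this (by positivity)
    linarith
  have hm : ∀ s ∈ Icc (1 - x) 1, 0 ≤ (1 - s) ^ 2 * μ + (2 * s - 1) / 16 := by
    intro s hs
    have : 0 ≤ 2 * s - 1 := by linarith [hs.1]
    positivity
  have hx3 : κ * (κ + 1) * x ≤ (ω ^ 2 + κ) / 2 := by
    have h1 : κ * x ≤ κ * (1 / 2) := by gcongr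
    nlinarith
  have hw := H.w_bd hω hω2 hω1 hκ hκω hr hx (by linarith) (by nlinarith) hm
  set W := w (1 - x) with hW
  set V := v (1 - x) with hV
  have hy : (x * V) ^ 2 ≤ 39 / 4 * (ω * r) := by
    rcases le_total (1 / (2 * ω ^ 2)) x with h | h
    · have hN := H.core hω hω2 hω1 hκ hκω hr hx (by linarith) h hm
      rw [Eq.N_eq] at hN
      have e1 : 1 - (1 - x) = x := by ring
      rw [e1, ← hW, ← hV] at hN
      have hR : 0 ≤ x * (κ * (κ + 1) * (1 - x) - μ) + 1 / 16 + (1 - x) * x / 4 := by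
        have h1 : 0 ≤ κ * (κ + 1) * (1 - x) - μ := by nlinarith
        have h3 : 0 ≤ (1 - x) * x := mul_nonneg (by linarith) hxp.le
        have h4 : 0 ≤ x * (κ * (κ + 1) * (1 - x) - μ) := mul_nonneg hxp.le h1
        linarith
      have h5 : (x * V - (2 * (1 - x) - 1) * W / 4) ^ 2 ≤ 13 / 4 * (ω * r) := by
        nlinarith [mul_nonneg (sq_nonneg W) hR]
      have h6 : ((2 * (1 - x) - 1) * W / 4) ^ 2 ≤ W ^ 2 / 16 := by
        have a0 : 0 ≤ 2 * (1 - x) - 1 := by linarith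
        have a1 : 2 * (1 - x) - 1 ≤ 1 := by linarith
        have : (2 * (1 - x) - 1) ^ 2 ≤ 1 := by nlinarith
        have h7 : (2 * (1 - x) - 1) ^ 2 * W ^ 2 ≤ 1 * W ^ 2 := by gcongr
        have : ((2 * (1 - x) - 1) * W / 4) ^ 2 = (2 * (1 - x) - 1) ^ 2 * W ^ 2 / 16 := by ring
        rw [this]; linarith
      have h8 : (x * V) ^ 2 ≤ 2 * (x * V - (2 * (1 - x) - 1) * W / 4) ^ 2 + 2 * ((2 * (1 - x) - 1) * W / 4) ^ 2 := by
        nlinarith [sq_nonneg ((x * V - (2 * (1 - x) - 1) * W / 4) - (2 * (1 - x) - 1) * W / 4)]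
      have h9 : W ^ 2 ≤ 26 * (ω * r) := by
        have h10 : 1 ≤ 2 * (ω * r) ^ 2 := by
          rw [div_le_iff₀ (by positivity)] at h
          rw [mul_pow, ← hx]; linarith
        have h11 : W ^ 2 ≤ W ^ 2 * (2 * (ω * r) ^ 2) := le_mul_of_one_le_right (sq_nonneg W) h10
        have h12 : W ^ 2 * (2 * (ω * r) ^ 2) = 2 * (ω * r) * (W ^ 2 * (ω * r)) := by ring
        have h13 : 2 * (ω * r) * (W ^ 2 * (ω * r)) ≤ 2 * (ω * r) * 13 := by gcongr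
        linarith
      linarith
    · have hx1e : x * ω ^ 2 ≤ 1 / 2 := by
        rw [le_div_iff₀ (by positivity)] at h
        linarith
      have hcond : μ ≤ κ * (κ + 1) * (2 * (1 - x) - 1) := by nlinarith
      have hμ : μ < κ * (κ + 1) := by nlinarith
      obtain ⟨hE, -⟩ := H.E_le hκ hμ (t := 1 - x) ⟨by linarith, by linarith⟩ hcond
      have e1 : 1 - (1 - x) = x := by ring
      rw [e1, ← hW, ← hV] at hE
      have h1 : x * (κ * (κ + 1) * (1 - x) - μ) ≤ 2 * (ω * r) ^ 2 := by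
        have h2 : κ * (κ + 1) * (1 - x) - μ ≤ 2 * ω ^ 2 := by nlinarith [mul_pos hk hxp]
        have h3 : x * (κ * (κ + 1) * (1 - x) - μ) ≤ x * (2 * ω ^ 2) := by gcongr
        rw [mul_pow, ← hx]; linarith
      have h2 : 0 ≤ x * (κ * (κ + 1) * (1 - x) - μ) * W ^ 2 := by
        apply mul_nonneg (mul_nonneg hxp.le _) (sq_nonneg _)
        nlinarith
      have h4 : (ω * r) ≤ 1 := by
        apply abs_le_of_sq_le_sq' _ zero_le_one |>.2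
        rw [mul_pow, ← hx]; nlinarith
      have h5 : 0 < ω * r := by positivity
      nlinarith
  have h1 : (V - κ * W) ^ 2 ≤ 2 * V ^ 2 + 2 * κ ^ 2 * W ^ 2 := by nlinarith [sq_nonneg (V + κ * W)]
  have h2 : V ^ 2 * (x * r) * r ≤ 39 / 4 * ω * r := by
    have : V ^ 2 * (x * r) * r = (x * V) ^ 2 := by rw [hx]; ring
    rw [this]; linarith
  have h3 : V ^ 2 * (x * r) ≤ 39 / 4 * ω := le_of_mul_le_mul_right h2 hr
  have h4 : 2 * κ ^ 2 * W ^ 2 * (x * r) ≤ 13 * ω := by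
    have h5 : (2 * κ ^ 2 * x) * (W ^ 2 * r) ≤ ω ^ 2 * (W ^ 2 * r) := by gcongr
    have h6 : ω ^ 2 * (W ^ 2 * r) = ω * (W ^ 2 * (ω * r)) := by ring
    have h7 : ω * (W ^ 2 * (ω * r)) ≤ ω * 13 := by gcongr
    nlinarith
  have h8 : (V - κ * W) ^ 2 * (x * r) ≤ (2 * V ^ 2 + 2 * κ ^ 2 * W ^ 2) * (x * r) := by gcongr
  nlinarith

end Pool.Agent.L5helper98.AN
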