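import Mathlib
import Pool.Agent.L5helper98.AN.A1
import Pool.Agent.L5helper98.AN.A4

/-! Bounds for the kernel. -/

set_option autoImplicit false

open MeasureTheory Set ENNReal

namespace Pool.Agent.L5helper98.AN

/-- `√t ^ m P_n` -/
noncomputable def ww (m n : ℕ) (t : ℝ) : ℝ := √t ^ m * PP m n t
/-- `t w'` -/
noncomputable def vv (m n : ℕ) (t : ℝ) : ℝ := √t ^ m * (((n : ℝ) + m / 2) * PP m n t + SP m n t)
/-- the kernel -/
noncomputable def ss (m n : ℕ) (t : ℝ) : ℝ := √t ^ m * SP m n t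

theorem ss_eq (m n : ℕ) (t : ℝ) : ss m n t = vv m n t - ((n : ℝ) + m / 2) * ww m n t := by
  unfold ss vv ww; ring

theorem rt_cont (m : ℕ) : Continuous fun t : ℝ => √t ^ m := Real.continuous_sqrt.pow m

theorem ss_cont (m n : ℕ) : Continuous (ss m n) := (rt_cont m).mul (SP_cont m n)
theorem ww_cont (m n : ℕ) : Continuous (ww m n) := (rt_cont m).mul (PP_cont m n)

theorem rt_hd (m : ℕ) {t : ℝ} (h0 : 0 < t) : HasDerivAt (fun s : ℝ => √s ^ m) ((m / 2) * √t ^ m / t) t := by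
  have h1 := (Real.hasDerivAt_sqrt h0.ne').pow m
  refine h1.congr_deriv ?_
  have hr : 0 < √t := Real.sqrt_pos.2 h0
  have hr2 : √t ^ 2 = t := Real.sq_sqrt h0.le
  cases m with
  | zero => simp
  | succ m =>
    simp only [Nat.add_sub_cancel]
    have e : √t ^ (m + 1) = √t ^ m * √t := pow_succ _ _
    rw [e]
    have e2 : (((m + 1 : ℕ) : ℝ) / 2) * (√t ^ m * √t) / t = (((m + 1 : ℕ) : ℝ) / 2) * (√t ^ m * √t) / (√t ^ 2) := by
      rw [hr2]
    rw [e2]
    field_simp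

theorem isEq (m n : ℕ) : Eq ((n : ℝ) + m / 2) (((m : ℝ) / 2) ^ 2) (ww m n) (vv m n) := by
  refine ⟨fun t ht => ?_, fun t ht => ?_, ww_cont m n, ?_, ?_⟩
  · have := (rt_hd m ht.1).mul (hd m n ht.1 ht.2).1
    refine this.congr_deriv ?_
    have h0 : t ≠ 0 := ht.1.ne'
    unfold vv
    field_simp
    ring
  · have := (rt_hd m ht.1).mul (((hd m n ht.1 ht.2).1.const_mul ((n : ℝ) + m / 2)).add (hd m n ht.1 ht.2).2)
    refine this.congr_deriv ?_
    have h0 : t ≠ 0 := ht.1.ne'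
    have h1 : (1 - t) ≠ 0 := by linarith [ht.2]
    unfold vv ww
    simp only [Pi.add_apply]
    field_simp
    ring
  · exact (rt_cont m).mul ((continuous_const.mul (PP_cont m n)).add (SP_cont m n))
  · unfold ww; rw [PP_one]; simp

/-- the kernel near `1` -/
theorem ss_near {m n : ℕ} (hn : 1 ≤ n) {ω : ℝ} (hω : 0 < ω) (hω2 : ω ^ 2 = n * (n + m)) {u : ℝ} (h1 : u < 1)
    (hu : 2 * ((n : ℝ) + m / 2) ^ 2 * (1 - u) ≤ ω ^ 2) :
    |ss m n u| ≤ 6 * √ω * (1 - u) ^ (-(3 / 4) : ℝ) := by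
  have hn1 : (1 : ℝ) ≤ n := by exact_mod_cast hn
  have hm0 : (0 : ℝ) ≤ m := Nat.cast_nonneg m
  have hx : 0 < 1 - u := by linarith
  have hω1 : 1 ≤ ω ^ 2 := by rw [hω2]; nlinarith
  have h := (isEq m n).s_bd hω (by rw [hω2]; ring) hω1 (by positivity) (by rw [hω2]; nlinarith) (by positivity)
    (Real.sqrt_pos.2 hx) (Real.sq_sqrt hx.le).symm hu
  have e1 : 1 - (1 - u) = u := by ring
  rw [e1, ← ss_eq] at h
  have hp : 0 < (1 - u) ^ (-(3 / 4) : ℝ) := Real.rpow_pos_of_pos hx _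
  have hp2 : ((1 - u) ^ (-(3 / 4) : ℝ)) ^ 2 * ((1 - u) * √(1 - u)) = 1 := by
    rw [← Real.rpow_natCast, ← Real.rpow_mul hx.le, Real.sqrt_eq_rpow]
    nth_rewrite 2 [← Real.rpow_one (1 - u)]
    rw [← Real.rpow_add hx, ← Real.rpow_add hx]
    norm_num
  apply abs_le_of_sq_le_sq' _ (by positivity) |>.2
  rw [sq_abs, mul_pow, mul_pow, Real.sq_sqrt hω.le]
  have h2 : ss m n u ^ 2 = ss m n u ^ 2 * ((1 - u) * √(1 - u)) * ((1 - u) ^ (-(3 / 4) : ℝ)) ^ 2 := by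
    rw [mul_assoc, mul_comm ((1 - u) * √(1 - u)), hp2, mul_one]
  rw [h2]
  have h3 : ss m n u ^ 2 * ((1 - u) * √(1 - u)) * ((1 - u) ^ (-(3 / 4) : ℝ)) ^ 2 ≤
      36 * ω * ((1 - u) ^ (-(3 / 4) : ℝ)) ^ 2 := by gcongr
  linarith

theorem int_near {ρ : ℝ} (h0 : 0 < ρ) (h1 : ρ ≤ 1) :
    ∫⁻ u in Ioo (1 - ρ) 1, ENNReal.ofReal ((1 - u) ^ (-(3 / 4) : ℝ)) = ENNReal.ofReal (4 * ρ ^ (1 / 4 : ℝ)) := by
  have hi0 : IntervalIntegrable (fun u : ℝ => u ^ (-(3 / 4) : ℝ)) volume 0 ρ :=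
    intervalIntegral.intervalIntegrable_rpow' (by norm_num)
  have hi : IntervalIntegrable (fun u : ℝ => (1 - u) ^ (-(3 / 4) : ℝ)) volume (1 - ρ) 1 := by
    have := hi0.comp_sub_left 1
    simp only [sub_zero] at this
    exact this.symm
  have hi' : IntegrableOn (fun u : ℝ => (1 - u) ^ (-(3 / 4) : ℝ)) (Ioo (1 - ρ) 1) := by
    rw [intervalIntegrable_iff_integrableOn_Ioo_of_le (by linarith)] at hi
    exact hi
  rw [← ofReal_integral_eq_lintegral_ofReal hi' ?_]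
  · congr 1
    have e : (1 : ℝ) - (1 - ρ) = ρ := by ring
    rw [← integral_Ioc_eq_integral_Ioo, ← intervalIntegral.integral_of_le (by linarith),
      intervalIntegral.integral_comp_sub_left (fun u : ℝ => u ^ (-(3 / 4) : ℝ)) 1, sub_self, e,
      integral_rpow (Or.inl (by norm_num))]
    norm_num
    ring
  · refine (ae_restrict_iff' measurableSet_Ioo).2 (Filter.Eventually.of_forall fun u hu => ?_)
    exact Real.rpow_nonneg (by linarith [hu.2]) _

theorem int_half : ∫⁻ u in Ioo (0 : ℝ) 1, ENNReal.ofReal (u ^ (-(1 / 2) : ℝ)) = ENNReal.ofReal 2 := by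
  have hi : IntervalIntegrable (fun u : ℝ => u ^ (-(1 / 2) : ℝ)) volume 0 1 :=
    intervalIntegral.intervalIntegrable_rpow' (by norm_num)
  have hi' : IntegrableOn (fun u : ℝ => u ^ (-(1 / 2) : ℝ)) (Ioo 0 1) := by
    rw [intervalIntegrable_iff_integrableOn_Ioo_of_le zero_le_one] at hi
    exact hi
  rw [← ofReal_integral_eq_lintegral_ofReal hi' ?_]
  · congr 1
    rw [← integral_Ioc_eq_integral_Ioo, ← intervalIntegral.integral_of_le zero_le_one,
      integral_rpow (Or.inl (by norm_num))]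
    norm_num
  · refine (ae_restrict_iff' measurableSet_Ioo).2 (Filter.Eventually.of_forall fun u hu => ?_)
    exact Real.rpow_nonneg hu.1.le _

theorem int_far {ρ : ℝ} (h0 : 0 < ρ) (_h1 : ρ ≤ 1) :
    ∫⁻ u in Ioc 0 (1 - ρ), ENNReal.ofReal (((1 - u) ^ 2)⁻¹) ≤ ENNReal.ofReal (1 / ρ) := by
  have hne : ∀ u ∈ Icc 0 (1 - ρ), (1 - u) ≠ 0 := fun u hu => by
    have := hu.2
    intro h
    linarith
  have hc : ContinuousOn (fun u : ℝ => ((1 - u) ^ 2)⁻¹) (Icc 0 (1 - ρ)) := by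
    refine ContinuousOn.inv₀ (by fun_prop) fun u hu => pow_ne_zero 2 (hne u hu)
  have hi : IntervalIntegrable (fun u : ℝ => ((1 - u) ^ 2)⁻¹) volume 0 (1 - ρ) := by
    apply ContinuousOn.intervalIntegrable
    rwa [uIcc_of_le (by linarith)]
  have hi' : IntegrableOn (fun u : ℝ => ((1 - u) ^ 2)⁻¹) (Ioc 0 (1 - ρ)) := by
    rw [intervalIntegrable_iff_integrableOn_Ioc_of_le (by linarith)] at hi
    exact hi
  rw [← ofReal_integral_eq_lintegral_ofReal hi' (Filter.Eventually.of_forall fun u => by positivity)]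
  refine ENNReal.ofReal_le_ofReal ?_
  rw [← intervalIntegral.integral_of_le (by linarith)]
  have hd : ∀ u ∈ uIcc 0 (1 - ρ), HasDerivAt (fun u : ℝ => (1 - u)⁻¹) (((1 - u) ^ 2)⁻¹) u := by
    intro u hu
    rw [uIcc_of_le (by linarith)] at hu
    have h8 : HasDerivAt (fun s : ℝ => 1 - s) (-1) u := by
      simpa using (hasDerivAt_id u).const_sub 1
    refine (h8.inv (hne u hu)).congr_deriv ?_
    simp
  rw [intervalIntegral.integral_eq_sub_of_hasDerivAt hd hi]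
  simp

theorem lam_bd {m n : ℕ} (hn : 1 ≤ n) {q : ℝ} (hq : 1 < q) (hq2 : q ≤ 4 / 3) :
    ∫⁻ u in Ioo (0 : ℝ) 1, ‖ss m n u‖ₑ * ENNReal.ofReal (u ^ (1 / q - 1)) ≤
      ENNReal.ofReal (77 / 2 * √((n : ℝ) * (n + m) / (2 * n + m))) := by
  have hn1 : (1 : ℝ) ≤ n := by exact_mod_cast hn
  have hm0 : (0 : ℝ) ≤ m := Nat.cast_nonneg m
  have hq0 : 0 < q := by linarith
  set k : ℝ := 2 * n + m with hk
  have hk0 : 0 < k := by positivity
  have hk2 : 2 ≤ k := by rw [hk]; linarith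
  set ω : ℝ := √((n : ℝ) * (n + m)) with hω
  have hω2 : ω ^ 2 = n * (n + m) := Real.sq_sqrt (by positivity)
  have hω0 : 0 < ω := Real.sqrt_pos.2 (by positivity)
  set σ : ℝ := √k with hσ
  have hσ0 : 0 < σ := Real.sqrt_pos.2 hk0
  have hσ2 : σ ^ 2 = k := Real.sq_sqrt hk0.le
  have hL : √((n : ℝ) * (n + m) / k) = ω / σ := Real.sqrt_div (by positivity) _
  rw [hL]
  have hωk : 4 * ω ^ 2 ≤ k ^ 2 := by rw [hω2, hk]; nlinarith [sq_nonneg (m : ℝ)]
  set ρ : ℝ := 2 * ω ^ 2 / k ^ 2 with hρ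
  have hρ0 : 0 < ρ := by positivity
  have hρ1 : ρ ≤ 1 / 2 := by
    rw [hρ, div_le_iff₀ (by positivity)]; linarith
  have hpw : ∀ u : ℝ, 0 < u → u < 1 → u ^ (1 / q - 1) ≤ u ^ (-(1 / 4) : ℝ) := by
    intro u h0 h1
    refine Real.rpow_le_rpow_of_exponent_ge h0 h1.le ?_
    have : 3 / 4 ≤ 1 / q := by
      rw [le_div_iff₀ hq0]; linarith
    linarith
  -- near part
  have near : ∫⁻ u in Ioo (1 - ρ) 1, ‖ss m n u‖ₑ * ENNReal.ofReal (u ^ (1 / q - 1)) ≤
      ENNReal.ofReal (1371 / 40 * (ω / σ)) := by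
    calc ∫⁻ u in Ioo (1 - ρ) 1, ‖ss m n u‖ₑ * ENNReal.ofReal (u ^ (1 / q - 1))
        ≤ ∫⁻ u in Ioo (1 - ρ) 1, ENNReal.ofReal (36 / 5 * √ω) * ENNReal.ofReal ((1 - u) ^ (-(3 / 4) : ℝ)) := by
          refine setLIntegral_mono' measurableSet_Ioo fun u hu => ?_
          have hu0 : 1 / 2 < u := by linarith [hu.1]
          have hp : 0 < (1 - u) ^ (-(3 / 4) : ℝ) := Real.rpow_pos_of_pos (by linarith [hu.2]) _
          rw [← ENNReal.ofReal_mul (by positivity), Real.enorm_eq_ofReal_abs, ← ENNReal.ofReal_mul (abs_nonneg _)]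
          refine ENNReal.ofReal_le_ofReal ?_
          have h1 : |ss m n u| ≤ 6 * √ω * (1 - u) ^ (-(3 / 4) : ℝ) := by
            refine ss_near hn hω0 hω2 hu.2 ?_
            have e1 : 1 - u ≤ ρ := by linarith [hu.1]
            have e2 : 2 * ((n : ℝ) + m / 2) ^ 2 = k ^ 2 / 2 := by rw [hk]; ring
            rw [e2]
            calc k ^ 2 / 2 * (1 - u) ≤ k ^ 2 / 2 * ρ := by gcongr
              _ = ω ^ 2 := by rw [hρ]; field_simp
          have h2 : u ^ (1 / q - 1) ≤ 6 / 5 := by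
            refine (hpw u (by linarith) hu.2).trans ?_
            have h3 : u ^ (-(1 / 4) : ℝ) ≤ (1 / 2 : ℝ) ^ (-(1 / 4) : ℝ) :=
              Real.rpow_le_rpow_of_nonpos (by norm_num) hu0.le (by norm_num)
            refine h3.trans ?_
            have h4 : ((1 / 2 : ℝ) ^ (-(1 / 4) : ℝ)) = (2 : ℝ) ^ (1 / 4 : ℝ) := by
              rw [one_div, Real.inv_rpow (by norm_num), Real.rpow_neg (by norm_num), inv_inv]
            rw [h4]
            have h5 : ((2 : ℝ) ^ (1 / 4 : ℝ)) ^ 4 = 2 := by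
              rw [← Real.rpow_natCast, ← Real.rpow_mul (by norm_num)]; norm_num
            have h6 : ((2 : ℝ) ^ (1 / 4 : ℝ)) ^ 4 ≤ (6 / 5 : ℝ) ^ 4 := by rw [h5]; norm_num
            exact le_of_pow_le_pow_left₀ (by norm_num) (by norm_num) h6
          have h7 : 0 ≤ u ^ (1 / q - 1) := Real.rpow_nonneg (by linarith) _
          calc |ss m n u| * u ^ (1 / q - 1) ≤ (6 * √ω * (1 - u) ^ (-(3 / 4) : ℝ)) * (6 / 5) :=
                mul_le_mul h1 h2 h7 (by positivity)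
            _ = _ := by ring
      _ = ENNReal.ofReal (36 / 5 * √ω) * ENNReal.ofReal (4 * ρ ^ (1 / 4 : ℝ)) := by
          rw [lintegral_const_mul' _ _ ENNReal.ofReal_ne_top, int_near hρ0 (by linarith)]
      _ ≤ _ := by
          rw [← ENNReal.ofReal_mul (by positivity)]
          refine ENNReal.ofReal_le_ofReal ?_
          have h1 : √ω * ρ ^ (1 / 4 : ℝ) ≤ 119 / 100 * (ω / σ) := by
            apply abs_le_of_sq_le_sq' _ (by positivity) |>.2
            have h2 : (ρ ^ (1 / 4 : ℝ)) ^ 2 = √ρ := by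
              rw [← Real.rpow_natCast, ← Real.rpow_mul hρ0.le, Real.sqrt_eq_rpow]; norm_num
            have h3 : √ρ ≤ 283 / 200 * (ω / k) := by
              rw [Real.sqrt_le_left (by positivity), hρ, mul_pow, div_pow ω k]
              have : 0 ≤ ω ^ 2 / k ^ 2 := by positivity
              have e : 2 * ω ^ 2 / k ^ 2 = 2 * (ω ^ 2 / k ^ 2) := by ring
              rw [e]
              nlinarith
            rw [mul_pow, Real.sq_sqrt hω0.le, h2]
            calc ω * √ρ ≤ ω * (283 / 200 * (ω / k)) := by gcongr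
              _ = 283 / 200 * (ω ^ 2 / σ ^ 2) := by rw [hσ2]; ring
              _ ≤ (119 / 100) ^ 2 * (ω ^ 2 / σ ^ 2) := by gcongr; norm_num
              _ = _ := by ring
          calc 36 / 5 * √ω * (4 * ρ ^ (1 / 4 : ℝ)) = 144 / 5 * (√ω * ρ ^ (1 / 4 : ℝ)) := by ring
            _ ≤ 144 / 5 * (119 / 100 * (ω / σ)) := by gcongr
            _ ≤ _ := by
              have : 0 ≤ ω / σ := by positivity
              linarith
  -- far part
  set θ : ℝ := k ^ 2 * σ / ω ^ 3 with hθ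
  have hθ0 : 0 < θ := by positivity
  have pt : ∀ u ∈ Ioc (0 : ℝ) (1 - ρ), ‖ss m n u‖ₑ * ENNReal.ofReal (u ^ (1 / q - 1)) ≤
      ENNReal.ofReal (θ / 2 * ((1 - u) ^ 2 * ss m n u ^ 2)) +
        (ENNReal.ofReal (3 / (4 * θ)) * ENNReal.ofReal (((1 - u) ^ 2)⁻¹) +
          ENNReal.ofReal (2 / θ) * ENNReal.ofReal (u ^ (-(1 / 2) : ℝ))) := by
    intro u hu
    have hu0 : 0 < u := hu.1
    have hx : 0 < 1 - u := by linarith [hu.2]
    have hp1 : 0 < u ^ (-(1 / 2) : ℝ) := Real.rpow_pos_of_pos hu0 _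
    have hp2 : 0 < u ^ (-(1 / 4) : ℝ) := Real.rpow_pos_of_pos hu0 _
    have hp3 : (u ^ (-(1 / 4) : ℝ)) ^ 2 = u ^ (-(1 / 2) : ℝ) := by
      rw [← Real.rpow_natCast, ← Real.rpow_mul hu0.le]; norm_num
    have hx2 : 0 < ((1 - u) ^ 2)⁻¹ := by positivity
    rw [← ENNReal.ofReal_mul (by positivity), ← ENNReal.ofReal_mul (by positivity),
      ← ENNReal.ofReal_add (by positivity) (by positivity), ← ENNReal.ofReal_add (by positivity) (by positivity),
      Real.enorm_eq_ofReal_abs, ← ENNReal.ofReal_mul (abs_nonneg _)]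
    refine ENNReal.ofReal_le_ofReal ?_
    have h1 : |ss m n u| * u ^ (1 / q - 1) ≤ |ss m n u| * u ^ (-(1 / 4) : ℝ) := by
      have := hpw u hu0 (by linarith)
      gcongr
    have h2 : |ss m n u| * u ^ (-(1 / 4) : ℝ) ≤ θ / 2 * ((1 - u) ^ 2 * ss m n u ^ 2) +
        1 / (2 * θ) * (u ^ (-(1 / 2) : ℝ) * ((1 - u) ^ 2)⁻¹) := by
      have h3 : 0 ≤ 1 / (2 * θ) * (θ * ((1 - u) * |ss m n u|) - u ^ (-(1 / 4) : ℝ) * (1 - u)⁻¹) ^ 2 := by
        positivity
      have h4 : 1 / (2 * θ) * (θ * ((1 - u) * |ss m n u|) - u ^ (-(1 / 4) : ℝ) * (1 - u)⁻¹) ^ 2 =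
          θ / 2 * ((1 - u) ^ 2 * |ss m n u| ^ 2) + 1 / (2 * θ) * ((u ^ (-(1 / 4) : ℝ)) ^ 2 * ((1 - u) ^ 2)⁻¹) -
            |ss m n u| * u ^ (-(1 / 4) : ℝ) := by
        field_simp
        ring
      rw [h4, sq_abs, hp3] at h3
      linarith
    have h5 : u ^ (-(1 / 2) : ℝ) * ((1 - u) ^ 2)⁻¹ ≤ 3 / 2 * ((1 - u) ^ 2)⁻¹ + 4 * u ^ (-(1 / 2) : ℝ) := by
      rcases le_total (1 / 2) u with h | h
      · have h6 : u ^ (-(1 / 2) : ℝ) ≤ 3 / 2 := by
          have h3 : u ^ (-(1 / 2) : ℝ) ≤ (1 / 2 : ℝ) ^ (-(1 / 2) : ℝ) :=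
            Real.rpow_le_rpow_of_nonpos (by norm_num) h (by norm_num)
          refine h3.trans ?_
          have h4 : ((1 / 2 : ℝ) ^ (-(1 / 2) : ℝ)) = (2 : ℝ) ^ (1 / 2 : ℝ) := by
            rw [one_div, Real.inv_rpow (by norm_num), Real.rpow_neg (by norm_num), inv_inv]
          rw [h4, ← Real.sqrt_eq_rpow, Real.sqrt_le_left (by norm_num)]
          norm_num
        have : u ^ (-(1 / 2) : ℝ) * ((1 - u) ^ 2)⁻¹ ≤ 3 / 2 * ((1 - u) ^ 2)⁻¹ := by gcongr
        linarith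
      · have h6 : ((1 - u) ^ 2)⁻¹ ≤ 4 := by
          rw [inv_le_comm₀ (by positivity) (by norm_num)]
          nlinarith
        have : u ^ (-(1 / 2) : ℝ) * ((1 - u) ^ 2)⁻¹ ≤ u ^ (-(1 / 2) : ℝ) * 4 := by gcongr
        linarith
    have h6 : 1 / (2 * θ) * (u ^ (-(1 / 2) : ℝ) * ((1 - u) ^ 2)⁻¹) ≤
        1 / (2 * θ) * (3 / 2 * ((1 - u) ^ 2)⁻¹ + 4 * u ^ (-(1 / 2) : ℝ)) := by gcongr
    have h7 : 1 / (2 * θ) * (3 / 2 * ((1 - u) ^ 2)⁻¹ + 4 * u ^ (-(1 / 2) : ℝ)) =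
        3 / (4 * θ) * ((1 - u) ^ 2)⁻¹ + 2 / θ * u ^ (-(1 / 2) : ℝ) := by
      field_simp
      ring
    linarith
  have M0 : ∫ t in (0 : ℝ)..1, (1 - t) ^ 2 * ss m n t ^ 2 ≤ 16 / 3 * (ω ^ 4 / k ^ 3) := by
    obtain ⟨j, rfl⟩ : ∃ j, n = j + 1 := ⟨n - 1, by omega⟩
    have h1 := norm_S m j
    have e1 : ∫ t in (0 : ℝ)..1, (1 - t) ^ 2 * ss m (j + 1) t ^ 2 =
        ∫ t in (0 : ℝ)..1, t ^ m * ((1 - t) * SP m (j + 1) t) ^ 2 := by
      refine intervalIntegral.integral_congr fun t ht => ?_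
      rw [uIcc_of_le zero_le_one] at ht
      unfold ss
      have : (√t ^ m) ^ 2 = t ^ m := by rw [← pow_mul, mul_comm, pow_mul, Real.sq_sqrt ht.1]
      rw [mul_pow, this]
      ring
    rw [e1]
    refine h1.trans ?_
    have e2 : 2 * (j : ℝ) + m + 2 = k := by rw [hk]; push_cast; ring
    have e3 : 2 * (j : ℝ) + m + 1 = k - 1 := by rw [hk]; push_cast; ring
    have e4 : 2 * (j : ℝ) + m + 3 = k + 1 := by rw [hk]; push_cast; ring
    have e5 : ((j : ℝ) + 1) * (j + 1 + m) = ω ^ 2 := by rw [hω2]; push_cast; ring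
    rw [e2, e3, e4, e5]
    have hk1 : 0 < k - 1 := by linarith
    have e6 : 2 * ((ω ^ 2 / k) ^ 2 * (1 / (k - 1) + 1 / (k + 1))) = 4 * (ω ^ 4 / (k * ((k - 1) * (k + 1)))) := by
      field_simp
      ring
    rw [e6]
    have h2 : 3 / 4 * k ^ 3 ≤ k * ((k - 1) * (k + 1)) := by nlinarith [mul_pos hk0 hk0]
    have h3 : ω ^ 4 / (k * ((k - 1) * (k + 1))) ≤ ω ^ 4 / (3 / 4 * k ^ 3) := by gcongr
    have h4 : ω ^ 4 / (3 / 4 * k ^ 3) = 4 / 3 * (ω ^ 4 / k ^ 3) := by field_simp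
    linarith
  have far : ∫⁻ u in Ioc (0 : ℝ) (1 - ρ), ‖ss m n u‖ₑ * ENNReal.ofReal (u ^ (1 / q - 1)) ≤
      ENNReal.ofReal (97 / 24 * (ω / σ)) := by
    have hc1 : Continuous fun u : ℝ => θ / 2 * ((1 - u) ^ 2 * ss m n u ^ 2) :=
      continuous_const.mul (((continuous_const.sub continuous_id).pow 2).mul ((ss_cont m n).pow 2))
    have hm1 : Measurable fun u : ℝ => ENNReal.ofReal (θ / 2 * ((1 - u) ^ 2 * ss m n u ^ 2)) :=
      ENNReal.measurable_ofReal.comp hc1.measurable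
    have hm2 : Measurable fun u : ℝ => ENNReal.ofReal (3 / (4 * θ)) * ENNReal.ofReal (((1 - u) ^ 2)⁻¹) := by
      refine Measurable.const_mul (ENNReal.measurable_ofReal.comp ?_) _
      exact ((measurable_const.sub measurable_id).pow_const 2).inv
    calc ∫⁻ u in Ioc (0 : ℝ) (1 - ρ), ‖ss m n u‖ₑ * ENNReal.ofReal (u ^ (1 / q - 1))
        ≤ ∫⁻ u in Ioc (0 : ℝ) (1 - ρ), (ENNReal.ofReal (θ / 2 * ((1 - u) ^ 2 * ss m n u ^ 2)) +
          (ENNReal.ofReal (3 / (4 * θ)) * ENNReal.ofReal (((1 - u) ^ 2)⁻¹) +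
            ENNReal.ofReal (2 / θ) * ENNReal.ofReal (u ^ (-(1 / 2) : ℝ)))) :=
          setLIntegral_mono' measurableSet_Ioc pt
      _ ≤ ENNReal.ofReal (θ / 2 * (16 / 3 * (ω ^ 4 / k ^ 3))) + (ENNReal.ofReal (3 / (4 * θ)) * ENNReal.ofReal (1 / ρ) +
            ENNReal.ofReal (2 / θ) * ENNReal.ofReal 2) := by
          rw [lintegral_add_left hm1, lintegral_add_left hm2,
            lintegral_const_mul' _ _ ENNReal.ofReal_ne_top, lintegral_const_mul' _ _ ENNReal.ofReal_ne_top]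
          refine add_le_add ?_ (add_le_add ?_ ?_)
          · calc ∫⁻ u in Ioc (0 : ℝ) (1 - ρ), ENNReal.ofReal (θ / 2 * ((1 - u) ^ 2 * ss m n u ^ 2))
                ≤ ∫⁻ u in Ioc (0 : ℝ) 1, ENNReal.ofReal (θ / 2 * ((1 - u) ^ 2 * ss m n u ^ 2)) :=
                  lintegral_mono_set (Ioc_subset_Ioc_right (by linarith))
              _ = ENNReal.ofReal (∫ u in (0 : ℝ)..1, θ / 2 * ((1 - u) ^ 2 * ss m n u ^ 2)) := by
                  rw [intervalIntegral.integral_of_le zero_le_one, ofReal_integral_eq_lintegral_ofReal]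
                  · exact (hc1.integrableOn_Icc (a := 0) (b := 1)).mono_set Ioc_subset_Icc_self
                  · exact Filter.Eventually.of_forall fun u => by positivity
              _ ≤ _ := by
                  refine ENNReal.ofReal_le_ofReal ?_
                  rw [intervalIntegral.integral_const_mul]
                  gcongr
          · exact mul_le_mul_right (int_far hρ0 (by linarith)) _
          · refine mul_le_mul_right ?_ _
            rw [← int_half]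
            calc ∫⁻ u in Ioc (0 : ℝ) (1 - ρ), ENNReal.ofReal (u ^ (-(1 / 2) : ℝ))
                ≤ ∫⁻ u in Ioc (0 : ℝ) 1, ENNReal.ofReal (u ^ (-(1 / 2) : ℝ)) :=
                  lintegral_mono_set (Ioc_subset_Ioc_right (by linarith))
              _ = _ := setLIntegral_congr Ioo_ae_eq_Ioc.symm
      _ ≤ _ := by
          rw [← ENNReal.ofReal_mul (by positivity), ← ENNReal.ofReal_mul (by positivity),
            ← ENNReal.ofReal_add (by positivity) (by positivity), ← ENNReal.ofReal_add (by positivity) (by positivity)]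
          refine ENNReal.ofReal_le_ofReal ?_
          have h1 : θ / 2 * (16 / 3 * (ω ^ 4 / k ^ 3)) = 8 / 3 * (ω / σ) := by
            have : ω ^ 4 / k ^ 3 = ω ^ 4 / (k ^ 2 * σ ^ 2) := by rw [hσ2]; ring
            rw [this, hθ]
            field_simp
            norm_num
          have h2 : 3 / (4 * θ) * (1 / ρ) + 2 / θ * 2 ≤ 11 / 4 * (1 / (θ * ρ)) := by
            have h3 : 1 ≤ 1 / 2 * (1 / ρ) := by
              rw [← div_eq_mul_one_div, le_div_iff₀ hρ0]; linarith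
            have h4 : 2 / θ * 2 ≤ 2 / θ * 2 * (1 / 2 * (1 / ρ)) := le_mul_of_one_le_right (by positivity) h3
            have h5 : 2 / θ * 2 * (1 / 2 * (1 / ρ)) = 2 * (1 / (θ * ρ)) := by field_simp
            have h6 : 3 / (4 * θ) * (1 / ρ) = 3 / 4 * (1 / (θ * ρ)) := by field_simp
            linarith
          have h7 : 1 / (θ * ρ) = 1 / 2 * (ω / σ) := by
            rw [hθ, hρ]
            field_simp
          rw [h7] at h2
          rw [h1]
          linarith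
  have hsub : Ioo (0 : ℝ) 1 ⊆ Ioc 0 (1 - ρ) ∪ Ioo (1 - ρ) 1 := by
    intro u hu
    rcases le_or_gt u (1 - ρ) with h | h
    · exact Or.inl ⟨hu.1, h⟩
    · exact Or.inr ⟨h, hu.2⟩
  calc ∫⁻ u in Ioo (0 : ℝ) 1, ‖ss m n u‖ₑ * ENNReal.ofReal (u ^ (1 / q - 1))
      ≤ ∫⁻ u in Ioc 0 (1 - ρ) ∪ Ioo (1 - ρ) 1, ‖ss m n u‖ₑ * ENNReal.ofReal (u ^ (1 / q - 1)) :=
        lintegral_mono_set hsub
    _ ≤ (∫⁻ u in Ioc 0 (1 - ρ), ‖ss m n u‖ₑ * ENNReal.ofReal (u ^ (1 / q - 1))) +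
        ∫⁻ u in Ioo (1 - ρ) 1, ‖ss m n u‖ₑ * ENNReal.ofReal (u ^ (1 / q - 1)) := lintegral_union_le _ _ _
    _ ≤ ENNReal.ofReal (97 / 24 * (ω / σ)) + ENNReal.ofReal (1371 / 40 * (ω / σ)) := add_le_add far near
    _ ≤ _ := by
        rw [← ENNReal.ofReal_add (by positivity) (by positivity)]
        refine ENNReal.ofReal_le_ofReal ?_
        have : 0 ≤ ω / σ := by positivity
        linarith

end Pool.Agent.L5helper98.AN
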