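import Mathlib
import Pool.Agent.L5helper98.AN.A2
import Pool.Agent.L5helper98.AN.A5
import Pool.Agent.L5helper98.RD.C
import Pool.Agent.R227.IT5

/-! The bound of the one-dimensional operator near `q = 1`. -/

set_option autoImplicit false

open MeasureTheory Set ENNReal

namespace Pool.Agent.L5helper98.AN

/-- the weighted output -/
noncomputable def UV (m n : ℕ) (h : ℝ → ℂ) (x : ℝ) : ℂ := ((√x ^ m : ℝ) : ℂ) * VV m n h x
/-- the weighted input -/
noncomputable def GV (m n : ℕ) (h : ℝ → ℂ) (x : ℝ) : ℂ := ((√x ^ m : ℝ) : ℂ) * gg n h x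

/-- the one-dimensional inequality -/
def OneC (m n : ℕ) (q C : ℝ) : Prop := ∀ h : ℝ → ℂ, ContDiff ℝ (⊤ : ℕ∞) h → (∃ R : ℝ, ∀ x, R < x → h x = 0) →
  ∫ x in Ioi (0 : ℝ), ‖UV m n h x‖ ^ q ≤ C ^ q * ∫ x in Ioi (0 : ℝ), ‖GV m n h x‖ ^ q

theorem UV_cont (m n : ℕ) {h : ℝ → ℂ} (hh : ContDiff ℝ (⊤ : ℕ∞) h) : Continuous (UV m n h) :=
  (Complex.continuous_ofReal.comp (rt_cont m)).mul (VV_smooth m n hh).continuous

theorem GV_cont (m n : ℕ) {h : ℝ → ℂ} (hh : ContDiff ℝ (⊤ : ℕ∞) h) : Continuous (GV m n h) :=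
  (Complex.continuous_ofReal.comp (rt_cont m)).mul (gg_smooth n hh).continuous

theorem UV_van {m n : ℕ} {h : ℝ → ℂ} {R : ℝ} (hR : ∀ x, R < x → h x = 0) : ∀ x, R < x → UV m n h x = 0 :=
  fun x hx => by unfold UV; rw [VV_zero_of hR x hx, mul_zero]

theorem GV_van {m n : ℕ} {h : ℝ → ℂ} {R : ℝ} (hR : ∀ x, R < x → h x = 0) : ∀ x, R < x → GV m n h x = 0 :=
  fun x hx => by unfold GV; rw [gg_zero_of' hR x hx, mul_zero]

theorem toE {f : ℝ → ℂ} (hf : Continuous f) {R : ℝ} (hR : ∀ x, R < x → f x = 0) {q : ℝ} (hq : 0 < q) :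
    ENNReal.ofReal (∫ x in Ioi (0 : ℝ), ‖f x‖ ^ q) = ∫⁻ x in Ioi (0 : ℝ), ‖f x‖ₑ ^ q := by
  have hi : IntegrableOn (fun x => ‖f x‖ ^ q) (Ioi 0) :=
    Pool.Agent.R227.IT.cintg hf (R + 1) (fun x hx => hR x (by linarith)) hq
  rw [ofReal_integral_eq_lintegral_ofReal hi (Filter.Eventually.of_forall fun x => by positivity)]
  refine lintegral_congr fun x => ?_
  rw [← ENNReal.ofReal_rpow_of_nonneg (norm_nonneg _) hq.le, ofReal_norm]

theorem oneC_near {m n : ℕ} (hn : 1 ≤ n) {q : ℝ} (hq : 1 < q) (hq2 : q ≤ 4 / 3) :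
    OneC m n q (1 + 77 / 2 * √((n : ℝ) * (n + m) / (2 * n + m))) := by
  intro h hh ⟨R', hR'⟩
  obtain ⟨R, hR0, hR⟩ : ∃ R : ℝ, 0 < R ∧ ∀ x, R < x → h x = 0 :=
    ⟨|R'| + 1, by positivity, fun x hx => hR' x (by linarith [le_abs_self R'])⟩
  have hq0 : 0 < q := by linarith
  set g : ℝ → ℂ := GV m n h with hg
  set U : ℝ → ℂ := UV m n h with hU
  have hgc : Continuous g := GV_cont m n hh
  have hUc : Continuous U := UV_cont m n hh
  have hgR := GV_van (m := m) (n := n) hR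
  have hUR := UV_van (m := m) (n := n) hR
  set k : ℝ → ℝ≥0∞ := fun u => ‖ss m n u‖ₑ with hkdef
  have hkm : Measurable k := (ss_cont m n).enorm.measurable
  set Φ : ℝ → ℝ≥0∞ := fun t => ∫⁻ u in Ioo (0 : ℝ) 1, k u * (‖g (t / u)‖ₑ * ENNReal.ofReal u⁻¹) with hΦ
  have hgm : Measurable fun t => ‖g t‖ₑ := hgc.enorm.measurable
  have hΦm : Measurable Φ := by
    have : Measurable (Function.uncurry fun t u : ℝ => k u * (‖g (t / u)‖ₑ * ENNReal.ofReal u⁻¹)) :=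
      (hkm.comp measurable_snd).mul ((hgm.comp (measurable_fst.div measurable_snd)).mul
        (ENNReal.measurable_ofReal.comp measurable_snd.inv))
    exact this.lintegral_prod_right'
  have hpt : ∀ t ∈ Ioi (0 : ℝ), ‖U t‖ₑ ≤ ‖g t‖ₑ + Φ t := by
    intro t ht
    have ht0 : 0 < t := ht
    set a := min 1 (t / (R + 1)) with ha
    have ha0 : 0 < a := lt_min one_pos (by positivity)
    have ha1 : a ≤ 1 := min_le_left _ _
    have hta : R < t / a := by
      rw [lt_div_iff₀ ha0]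
      have : a ≤ t / (R + 1) := min_le_right _ _
      rw [le_div_iff₀ (by positivity)] at this
      nlinarith
    have hk := kform m n hh hR ha0 ha1 hta
    have e1 : U t = g t - ∫ u in a..1, (ss m n u : ℂ) * (g (t / u) / u) := by
      simp only [hU, hg]
      unfold UV
      rw [hk, mul_sub, ← intervalIntegral.integral_const_mul]
      unfold GV
      congr 1
      refine intervalIntegral.integral_congr fun u hu => ?_
      rw [uIcc_of_le ha1] at hu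
      have hu0 : 0 < u := lt_of_lt_of_le ha0 hu.1
      have e2 : √t ^ m = √u ^ m * √(t / u) ^ m := by
        rw [← mul_pow, ← Real.sqrt_mul hu0.le, mul_div_cancel₀ _ hu0.ne']
      rw [e2]
      unfold ss
      push_cast
      ring
    rw [e1]
    refine (enorm_sub_le).trans (add_le_add le_rfl ?_)
    rw [intervalIntegral.integral_of_le ha1]
    refine (enorm_integral_le_lintegral_enorm _).trans ?_
    calc ∫⁻ u in Ioc a 1, ‖(ss m n u : ℂ) * (g (t / u) / u)‖ₑ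
        ≤ ∫⁻ u in Ioc (0 : ℝ) 1, ‖(ss m n u : ℂ) * (g (t / u) / u)‖ₑ :=
          lintegral_mono_set (Ioc_subset_Ioc_left ha0.le)
      _ = ∫⁻ u in Ioo (0 : ℝ) 1, ‖(ss m n u : ℂ) * (g (t / u) / u)‖ₑ :=
          setLIntegral_congr Ioo_ae_eq_Ioc.symm
      _ = Φ t := by
          refine setLIntegral_congr_fun measurableSet_Ioo fun u hu => ?_
          simp only [hkdef]
          have e3 : ‖((ss m n u : ℝ) : ℂ)‖ₑ = ‖ss m n u‖ₑ := by
            rw [← ofReal_norm, ← ofReal_norm, Complex.norm_real]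
          have e4 : ‖((u : ℝ) : ℂ)⁻¹‖ₑ = ENNReal.ofReal u⁻¹ := by
            rw [← ofReal_norm, norm_inv, Complex.norm_real, Real.norm_of_nonneg hu.1.le]
          rw [enorm_mul, div_eq_mul_inv, enorm_mul, e3, e4]
  have hL := lam_bd (m := m) hn hq hq2
  have hM := Pool.Agent.L5helper98.RD.mink hq hkm hgm
  set Λ : ℝ := 77 / 2 * √((n : ℝ) * (n + m) / (2 * n + m)) with hΛ
  have hΛ0 : 0 ≤ Λ := by positivity
  have h1 : (∫⁻ t in Ioi (0 : ℝ), ‖U t‖ₑ ^ q) ^ (1 / q) ≤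
      ENNReal.ofReal (1 + Λ) * (∫⁻ t in Ioi (0 : ℝ), ‖g t‖ₑ ^ q) ^ (1 / q) := by
    calc (∫⁻ t in Ioi (0 : ℝ), ‖U t‖ₑ ^ q) ^ (1 / q)
        ≤ (∫⁻ t in Ioi (0 : ℝ), ((fun t => ‖g t‖ₑ) + Φ) t ^ q) ^ (1 / q) := by
          refine ENNReal.rpow_le_rpow (setLIntegral_mono' measurableSet_Ioi fun t ht => ?_) (by positivity)
          exact ENNReal.rpow_le_rpow (hpt t ht) hq0.le
      _ ≤ (∫⁻ t in Ioi (0 : ℝ), ‖g t‖ₑ ^ q) ^ (1 / q) + (∫⁻ t in Ioi (0 : ℝ), Φ t ^ q) ^ (1 / q) :=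
          ENNReal.lintegral_Lp_add_le hgm.aemeasurable hΦm.aemeasurable hq.le
      _ ≤ (∫⁻ t in Ioi (0 : ℝ), ‖g t‖ₑ ^ q) ^ (1 / q) + ((ENNReal.ofReal Λ) ^ q *
            ∫⁻ t in Ioi (0 : ℝ), ‖g t‖ₑ ^ q) ^ (1 / q) := by
          refine add_le_add le_rfl (ENNReal.rpow_le_rpow (hM.trans ?_) (by positivity))
          exact mul_le_mul_left (ENNReal.rpow_le_rpow hL hq0.le) _
      _ = ENNReal.ofReal (1 + Λ) * (∫⁻ t in Ioi (0 : ℝ), ‖g t‖ₑ ^ q) ^ (1 / q) := by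
          rw [ENNReal.mul_rpow_of_nonneg _ _ (by positivity), ← ENNReal.rpow_mul,
            mul_one_div_cancel hq0.ne', ENNReal.rpow_one, ENNReal.ofReal_add zero_le_one hΛ0,
            ENNReal.ofReal_one, add_mul, one_mul]
  have h2 := ENNReal.rpow_le_rpow h1 hq0.le
  rw [ENNReal.mul_rpow_of_nonneg _ _ hq0.le, ← ENNReal.rpow_mul, ← ENNReal.rpow_mul,
    one_div_mul_cancel hq0.ne', ENNReal.rpow_one, ENNReal.rpow_one,
    ENNReal.ofReal_rpow_of_nonneg (by positivity) hq0.le, ← toE hUc hUR hq0, ← toE hgc hgR hq0,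
    ← ENNReal.ofReal_mul (by positivity)] at h2
  exact (ENNReal.ofReal_le_ofReal_iff (mul_nonneg (by positivity)
    (integral_nonneg fun x => by positivity))).1 h2

end Pool.Agent.L5helper98.AN
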