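import Mathlib
import Pool.Agent.L5helper98.AN.A6

/-! The isometry on `L ^ 2`. -/

set_option autoImplicit false

open MeasureTheory Set

namespace Pool.Agent.L5helper98.AN

theorem nsq_hd {X : ℝ → ℂ} (hX : ContDiff ℝ (⊤ : ℕ∞) X) (x : ℝ) :
    HasDerivAt (fun x => Complex.normSq (X x))
      (2 * ((deriv X x).re * (X x).re + (deriv X x).im * (X x).im)) x := by
  have h := hda hX x
  have h1 : HasDerivAt (fun x => (X x).re) (deriv X x).re x :=
    Complex.reCLM.hasFDerivAt.comp_hasDerivAt x h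
  have h2 : HasDerivAt (fun x => (X x).im) (deriv X x).im x :=
    Complex.imCLM.hasFDerivAt.comp_hasDerivAt x h
  have h3 := (h1.mul h1).add (h2.mul h2)
  refine (h3.congr_deriv (by ring)).congr_of_eventuallyEq ?_
  exact Filter.Eventually.of_forall fun y => by simp [Complex.normSq_apply]

theorem two_step (m n : ℕ) {h : ℝ → ℂ} (hh : ContDiff ℝ (⊤ : ℕ∞) h) {R : ℝ} (hR : ∀ x, R < x → h x = 0) :
    ∫ x in Ioi (0 : ℝ), x ^ m * Complex.normSq (gg n (Dc ((m : ℂ) + n + 1) h) x) =
      ∫ x in Ioi (0 : ℝ), x ^ m * Complex.normSq (gg (n + 1) h x) := by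
  set X := gg n h with hX
  have hXs : ContDiff ℝ (⊤ : ℕ∞) X := gg_smooth n hh
  set T : ℝ := |R| + 1 with hT
  have hT0 : 0 < T := by positivity
  have hRT : R < T := by have := le_abs_self R; linarith
  have c1 : Continuous fun x : ℝ => x ^ m * Complex.normSq (gg n (Dc ((m : ℂ) + n + 1) h) x) :=
    (continuous_pow m).mul (Complex.continuous_normSq.comp (gg_smooth n (Dc_smooth _ hh)).continuous)
  have c2 : Continuous fun x : ℝ => x ^ m * Complex.normSq (gg (n + 1) h x) :=
    (continuous_pow m).mul (Complex.continuous_normSq.comp (gg_smooth (n + 1) hh).continuous)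
  rw [Pool.Agent.R227.IT.ioi_eq hT0 (fun x hx => ?_), Pool.Agent.R227.IT.ioi_eq hT0 (fun x hx => ?_)]
  · rw [← sub_eq_zero, ← intervalIntegral.integral_sub (c1.intervalIntegrable _ _) (c2.intervalIntegrable _ _)]
    have hd' : ∀ x ∈ Ioo (0 : ℝ) T, HasDerivAt (fun x : ℝ => (2 * (n : ℝ) + m + 1) * (x ^ m * (x * Complex.normSq (X x))))
        (x ^ m * Complex.normSq (gg n (Dc ((m : ℂ) + n + 1) h) x) - x ^ m * Complex.normSq (gg (n + 1) h x)) x := by
      intro x hx
      have hx0 : x ≠ 0 := hx.1.ne'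
      have h1 := ((pow_hd m hx.1).mul ((hasDerivAt_id x).mul (nsq_hd hXs x))).const_mul (2 * (n : ℝ) + m + 1)
      refine h1.congr_deriv ?_
      rw [gg_Dc m n hh, ← gg_D n hh, ← hX]
      simp only [Complex.normSq_apply, id]
      simp only [Complex.add_re, Complex.sub_re, Complex.mul_re, Complex.add_im, Complex.sub_im, Complex.mul_im,
        Complex.ofReal_re, Complex.ofReal_im, Complex.natCast_re, Complex.natCast_im, Complex.one_re,
        Complex.one_im, Complex.re_ofNat, Complex.im_ofNat, Pi.mul_apply, id]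
      field_simp
      ring
    have c3 : Continuous fun x : ℝ => (2 * (n : ℝ) + m + 1) * (x ^ m * (x * Complex.normSq (X x))) :=
      continuous_const.mul ((continuous_pow m).mul (continuous_id.mul
        (Complex.continuous_normSq.comp hXs.continuous)))
    rw [intervalIntegral.integral_eq_sub_of_hasDerivAt_of_le hT0.le c3.continuousOn hd'
      ((c1.sub c2).intervalIntegrable _ _)]
    have : X T = 0 := gg_zero_of' hR T hRT
    rw [this]
    simp
  · rw [gg_zero_of' hR x (by linarith)]; simp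
  · rw [gg_zero_of' (Dc_zero_of hR) x (by linarith)]; simp

theorem two_eq (m n : ℕ) {h : ℝ → ℂ} (hh : ContDiff ℝ (⊤ : ℕ∞) h) {R : ℝ} (hR : ∀ x, R < x → h x = 0) :
    ∫ x in Ioi (0 : ℝ), x ^ m * Complex.normSq (VV m n h x) =
      ∫ x in Ioi (0 : ℝ), x ^ m * Complex.normSq (gg n h x) := by
  induction n generalizing h with
  | zero =>
    have : gg 0 h = h := by funext x; simp [gg]
    rw [this]; rfl
  | succ n ih =>
    rw [VV_succ' m n hh, ih (Dc_smooth _ hh) (Dc_zero_of hR), two_step m n hh hR]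

theorem oneC_two (m n : ℕ) : OneC m n 2 1 := by
  intro h hh ⟨R, hR⟩
  have e : ∀ f : ℝ → ℂ, ∫ x in Ioi (0 : ℝ), ‖((√x ^ m : ℝ) : ℂ) * f x‖ ^ (2 : ℝ) =
      ∫ x in Ioi (0 : ℝ), x ^ m * Complex.normSq (f x) := by
    intro f
    refine setIntegral_congr_fun measurableSet_Ioi fun x hx => ?_
    have hx0 : (0 : ℝ) ≤ x := le_of_lt hx
    rw [Real.rpow_two, norm_mul, mul_pow, Complex.norm_real, Real.norm_of_nonneg (by positivity),
      Complex.normSq_eq_norm_sq]
    congr 1
    rw [← pow_mul, mul_comm, pow_mul, Real.sq_sqrt hx0]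
  rw [Real.one_rpow, one_mul]
  unfold UV GV
  rw [e, e, two_eq m n hh hR]

end Pool.Agent.L5helper98.AN
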