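import Mathlib
import Pool.Agent.L5helper98.AN.A7
import Pool.Agent.R227.IT6

/-! Interpolation and the upper bound for `1 < q ≤ 2`. -/

set_option autoImplicit false

open Finset MeasureTheory Filter Topology
open Pool.Agent.R227.IT (bp bp_left bp_right bp_smooth intg ioi_eq cintg approx disc2 comb_int rpow_le_add
  two_split lim0)

namespace Pool.Agent.L5helper98.AN

theorem iter_sum (K : ℕ) (a : ℕ → ℂ) {F : ℕ → ℝ → ℂ} (hF : ∀ i, ContDiff ℝ (⊤ : ℕ∞) (F i)) (c : ℂ) :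
    Dc c (fun x => ∑ i ∈ range K, a i * F i x) = fun x => ∑ i ∈ range K, a i * Dc c (F i) x := by
  funext x
  unfold Dc
  have h1 : deriv (fun x => ∑ i ∈ range K, a i * F i x) x = ∑ i ∈ range K, a i * deriv (F i) x :=
    (HasDerivAt.fun_sum fun i _ => (hda (hF i) x).const_mul (a i)).deriv
  rw [h1, mul_sum, mul_sum, ← sum_add_distrib]
  exact sum_congr rfl fun i _ => by ring

theorem UV_comb (m n K : ℕ) (a : ℕ → ℂ) {H : ℕ → ℝ → ℂ} (hH : ∀ i, ContDiff ℝ (⊤ : ℕ∞) (H i)) (x : ℝ) :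
    UV m n (fun x => ∑ i ∈ range K, a i * H i x) x = ∑ i ∈ range K, a i * UV m n (H i) x := by
  unfold UV
  have : ∀ n, VV m n (fun x => ∑ i ∈ range K, a i * H i x) = fun x => ∑ i ∈ range K, a i * VV m n (H i) x := by
    intro n
    induction n with
    | zero => rfl
    | succ n ih => rw [VV_succ, ih, iter_sum K a fun i => VV_smooth m n (hH i)]; rfl
  rw [this, mul_sum]
  exact sum_congr rfl fun i _ => by ring

theorem GV_comb (m n K : ℕ) (a : ℕ → ℂ) {H : ℕ → ℝ → ℂ} (hH : ∀ i, ContDiff ℝ (⊤ : ℕ∞) (H i)) (x : ℝ) :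
    GV m n (fun x => ∑ i ∈ range K, a i * H i x) x = ∑ i ∈ range K, a i * GV m n (H i) x := by
  unfold GV gg
  rw [Pool.Agent.R227.IT.iter_comb K a hH n, mul_sum, mul_sum]
  exact sum_congr rfl fun i _ => by ring

theorem Dc_sub (c : ℂ) {f g : ℝ → ℂ} (hf : ContDiff ℝ (⊤ : ℕ∞) f) (hg : ContDiff ℝ (⊤ : ℕ∞) g) :
    Dc c (fun x => f x - g x) = fun x => Dc c f x - Dc c g x := by
  funext x
  unfold Dc
  have h1 : deriv (fun x => f x - g x) x = deriv f x - deriv g x := ((hda hf x).sub (hda hg x)).deriv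
  rw [h1]; ring

theorem UV_sub (m n : ℕ) {f g : ℝ → ℂ} (hf : ContDiff ℝ (⊤ : ℕ∞) f) (hg : ContDiff ℝ (⊤ : ℕ∞) g) (x : ℝ) :
    UV m n (fun x => f x - g x) x = UV m n f x - UV m n g x := by
  unfold UV
  have : ∀ n, VV m n (fun x => f x - g x) = fun x => VV m n f x - VV m n g x := by
    intro n
    induction n with
    | zero => rfl
    | succ n ih => rw [VV_succ, ih, Dc_sub _ (VV_smooth m n hf) (VV_smooth m n hg)]; rfl
  rw [this]; ring

theorem GV_sub (m n : ℕ) {f g : ℝ → ℂ} (hf : ContDiff ℝ (⊤ : ℕ∞) f) (hg : ContDiff ℝ (⊤ : ℕ∞) g) (x : ℝ) :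
    GV m n (fun x => f x - g x) x = GV m n f x - GV m n g x := by
  unfold GV gg
  rw [Pool.Agent.R227.IT.iter_sub hf hg n]; ring

/-- primitives of bumps -/
theorem primb (m n : ℕ) {δ : ℝ} (hδ : 0 < δ) (i : ℕ) :
    ∃ h : ℝ → ℂ, ContDiff ℝ (⊤ : ℕ∞) h ∧ (∃ R : ℝ, ∀ x, R ≤ x → h x = 0) ∧
      ∀ x : ℝ, 0 < x → GV m n h x = (bp δ i x : ℂ) := by
  set g : ℝ → ℂ := fun x => (bp δ i x : ℂ) * (((√x ^ m : ℝ) : ℂ) * (x : ℂ) ^ n)⁻¹ with hg
  have hi : (0 : ℝ) ≤ i := Nat.cast_nonneg i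
  have hgs : ContDiff ℝ (⊤ : ℕ∞) g := by
    rw [contDiff_iff_contDiffAt]
    intro x
    rcases lt_or_ge x ((i + 1) * δ) with h | h
    · have h1 : g =ᶠ[𝓝 x] fun _ => 0 := by
        filter_upwards [Iio_mem_nhds h] with y hy
        rw [hg]
        simp only
        rw [bp_left hδ (le_of_lt hy)]
        simp
      exact contDiffAt_const.congr_of_eventuallyEq h1
    · have hx0 : 0 < x := by
        have h0 : 0 < (i + 1) * δ := by positivity
        exact lt_of_lt_of_le h0 h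
      have h1 : ContDiffAt ℝ (⊤ : ℕ∞) (fun x : ℝ => (bp δ i x : ℂ)) x :=
        (Complex.ofRealCLM.contDiff.comp (bp_smooth δ i)).contDiffAt
      have h2 : ContDiffAt ℝ (⊤ : ℕ∞) (fun x : ℝ => (x : ℂ) ^ n) x :=
        (Complex.ofRealCLM.contDiff.pow n).contDiffAt
      have h3 : ContDiffAt ℝ (⊤ : ℕ∞) (fun x : ℝ => ((√x ^ m : ℝ) : ℂ)) x :=
        Complex.ofRealCLM.contDiff.contDiffAt.comp x ((Real.contDiffAt_sqrt hx0.ne').pow m)
      have h4 : 0 < √x := Real.sqrt_pos.2 hx0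
      refine h1.mul ((h3.mul h2).inv (mul_ne_zero ?_ (pow_ne_zero _ (by exact_mod_cast hx0.ne'))))
      exact Complex.ofReal_ne_zero.2 (by positivity)
  have hgc : HasCompactSupport g := by
    apply HasCompactSupport.intro (isCompact_Icc (a := (0:ℝ)) (b := (i + 3) * δ))
    intro x hx
    rw [hg]
    simp only
    by_cases h : x ≤ (i + 1) * δ
    · rw [bp_left hδ h]; simp
    · have h2 : (i + 3) * δ ≤ x := by
        by_contra hcon
        apply hx
        push Not at h hcon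
        have : 0 < (i + 1) * δ := by positivity
        exact ⟨by linarith, hcon.le⟩
      rw [bp_right hδ h2]; simp
  obtain ⟨h, h1, h2, h3⟩ := Pool.Agent.Y282.RB.A1.main n g hgs hgc
  refine ⟨h, h1, h2, fun x hx => ?_⟩
  unfold GV gg
  rw [h3, hg]
  simp only
  have h4 : 0 < √x := Real.sqrt_pos.2 hx
  have h5 : (x : ℂ) ^ n ≠ 0 := pow_ne_zero _ (by exact_mod_cast hx.ne')
  have h6 : ((√x ^ m : ℝ) : ℂ) ≠ 0 := Complex.ofReal_ne_zero.2 (by positivity)
  field_simp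

theorem fam (m n : ℕ) {δ : ℝ} (hδ : 0 < δ) (K : ℕ) :
    ∃ (H : ℕ → ℝ → ℂ) (T : ℝ), 0 < T ∧ (∀ i, ContDiff ℝ (⊤ : ℕ∞) (H i)) ∧
      (∀ i (x : ℝ), 0 < x → GV m n (H i) x = (bp δ i x : ℂ)) ∧ (∀ i ∈ range K, ∀ x, T ≤ x → H i x = 0) := by
  choose H h1 h2 h3 using fun i => primb m n hδ i
  choose R hR using h2
  refine ⟨H, ∑ i ∈ range K, |R i| + 1, by positivity, h1, h3, fun i hi x hx => hR i x ?_⟩
  have h4 : |R i| ≤ ∑ i ∈ range K, |R i| := single_le_sum (f := fun i => |R i|) (fun _ _ => abs_nonneg _) hi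
  have := le_abs_self (R i)
  linarith

theorem endp {m n : ℕ} {r C : ℝ} (hr : 1 < r) (hC : 0 ≤ C) (O : OneC m n r C) {δ T : ℝ} (hδ : 0 < δ) (hT : 0 < T)
    {K : ℕ} {H : ℕ → ℝ → ℂ} (hH : ∀ i, ContDiff ℝ (⊤ : ℕ∞) (H i))
    (hG : ∀ i (x : ℝ), 0 < x → GV m n (H i) x = (bp δ i x : ℂ))
    (hv : ∀ i ∈ range K, ∀ x, T ≤ x → H i x = 0) (a : ℕ → ℂ) :
    ∫ x in (0:ℝ)..(T + 1), ‖∑ i ∈ range K, a i * UV m n (H i) x‖ ^ r ≤ C ^ r * (δ * ∑ i ∈ range K, ‖a i‖ ^ r) := by
  set h : ℝ → ℂ := fun x => ∑ i ∈ range K, a i * H i x with hh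
  have hs : ContDiff ℝ (⊤ : ℕ∞) h := by
    rw [hh]
    exact ContDiff.sum fun i _ => contDiff_const.mul (hH i)
  have hv' : ∀ x, T < x → h x = 0 := fun x hx => sum_eq_zero fun i hi => by rw [hv i hi x hx.le, mul_zero]
  have h1 := O h hs ⟨T, hv'⟩
  have e1 : ∀ x, UV m n h x = ∑ i ∈ range K, a i * UV m n (H i) x := fun x => UV_comb m n K a hH x
  have e2 : ∫ x in Set.Ioi (0 : ℝ), ‖GV m n h x‖ ^ r =
      ∫ x in Set.Ioi (0 : ℝ), ‖∑ i ∈ range K, a i * (bp δ i x : ℂ)‖ ^ r := by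
    refine setIntegral_congr_fun measurableSet_Ioi fun x hx => ?_
    rw [hh, GV_comb m n K a hH x]
    congr 2
    exact sum_congr rfl fun i _ => by rw [hG i x hx]
  rw [e2] at h1
  simp_rw [e1] at h1
  have h2 := comb_int hδ K a hr.le
  rw [← ioi_eq (by linarith : 0 < T + 1)]
  · exact h1.trans (mul_le_mul_of_nonneg_left h2 (by positivity))
  · intro x hx
    rw [← e1 x, UV_van hv' x (by linarith), norm_zero, Real.zero_rpow (by linarith)]

theorem interp {m n : ℕ} (hmn : 1 ≤ n) {p₀ p p₁ C₀ C₁ : ℝ} (hp0 : 1 < p₀) (h01 : p₀ < p) (h12 : p < p₁)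
    (hC0 : 0 ≤ C₀) (hC1 : 0 ≤ C₁) (O0 : OneC m n p₀ C₀) (O1 : OneC m n p₁ C₁)
    {s : ℝ} (hs : s = (1 / p - 1 / p₁) / (1 / p₀ - 1 / p₁)) : OneC m n p (C₁ ^ (1 - s) * C₀ ^ s) := by
  intro h hh hR
  obtain ⟨R₀, hR₀⟩ := hR
  have hvh : ∀ x, |R₀| + 1 ≤ x → h x = 0 := fun x hx => hR₀ x (by linarith [le_abs_self R₀])
  have hvh' : ∀ x, |R₀| < x → h x = 0 := fun x hx => hR₀ x (by linarith [le_abs_self R₀])
  set R : ℝ := |R₀| + 1 with hRd
  have hRpos : 0 < R := by positivity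
  have hgv : ∀ x, R ≤ x → GV m n h x = 0 := fun x hx => GV_van hvh' x (by linarith)
  have huv : ∀ x, R ≤ x → UV m n h x = 0 := fun x hx => UV_van hvh' x (by linarith)
  have hg0 : GV m n h 0 = 0 := by
    unfold GV gg
    rw [Complex.ofReal_zero, zero_pow (by omega), zero_mul, mul_zero]
  set Cp : ℝ := C₁ ^ (1 - s) * C₀ ^ s with hCp
  have hCp0 : 0 ≤ Cp := by positivity
  set G : ℝ := ∫ x in Set.Ioi 0, ‖GV m n h x‖ ^ p with hG
  set X : ℝ := ∫ x in Set.Ioi 0, ‖UV m n h x‖ ^ p with hX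
  have hp' : 0 < p := by linarith
  have hp1' : 1 < p₁ := by linarith
  have main : ∀ τ, 0 < τ → ∀ ω, 0 < ω → ω < 1 → X ≤ (1 + τ) ^ (p - 1) * (Cp ^ p * (G + (R + 1) * ω))
      + ((1 + τ) / τ) ^ (p - 1) * (C₀ ^ p₀ * (ω ^ p₀ * (R + 1)) + C₁ ^ p₁ * (ω ^ p₁ * (R + 1))) := by
    intro τ hτ ω hω _
    obtain ⟨δ, K, a, hδ, A1, A2, A3⟩ := approx (GV_cont m n hh) hg0 hRpos hgv hp' hω
    obtain ⟨H, T, hT, F1, F2, F3⟩ := fam m n hδ K
    set ha : ℝ → ℂ := fun x => ∑ i ∈ range K, a i * H i x with hha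
    have has : ContDiff ℝ (⊤ : ℕ∞) ha := by
      rw [hha]
      exact ContDiff.sum fun i _ => contDiff_const.mul (F1 i)
    have hav : ∀ x, T ≤ x → ha x = 0 := fun x hx => sum_eq_zero fun i hi => by rw [F3 i hi x hx, mul_zero]
    have hav' : ∀ x, T < x → ha x = 0 := fun x hx => hav x hx.le
    set e : ℝ → ℂ := fun x => h x - ha x with he
    have hes : ContDiff ℝ (⊤ : ℕ∞) e := hh.sub has
    have hev : ∀ x, R + T < x → e x = 0 := by
      intro x hx
      rw [he]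
      simp only
      rw [hvh x (by linarith), hav x (by linarith), sub_zero]
    -- the main part
    have hu : ∀ i, Continuous (UV m n (H i)) := fun i => UV_cont m n (F1 i)
    have D := disc2 hp0 h01 h12 hC0 hC1 hδ.le (by linarith : 0 < T + 1) hu
      (fun a => endp hp0 hC0 O0 hδ hT F1 F2 F3 a) (fun a => endp hp1' hC1 O1 hδ hT F1 F2 F3 a) hs a
    have hA : ∫ x in Set.Ioi 0, ‖UV m n ha x‖ ^ p ≤ Cp ^ p * (G + (R + 1) * ω) := by
      rw [ioi_eq (by linarith : 0 < T + 1)]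
      · have e1 : ∫ x in (0:ℝ)..(T + 1), ‖UV m n ha x‖ ^ p
            = ∫ x in (0:ℝ)..(T + 1), ‖∑ i ∈ range K, a i * UV m n (H i) x‖ ^ p := by
          refine intervalIntegral.integral_congr fun x _ => ?_
          rw [hha, UV_comb m n K a F1 x]
        rw [e1]
        exact D.trans (mul_le_mul_of_nonneg_left A3 (by positivity))
      · intro x hx
        rw [UV_van hav' x (by linarith), norm_zero, Real.zero_rpow hp'.ne']
    -- the error
    have hE : ∀ r C : ℝ, 1 < r → 0 ≤ C → OneC m n r C →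
        ∫ x in Set.Ioi 0, ‖UV m n e x‖ ^ r ≤ C ^ r * (ω ^ r * (R + 1)) := by
      intro r C hr hC O
      have h1 : ∫ x in Set.Ioi 0, ‖UV m n e x‖ ^ r ≤ C ^ r * ∫ x in Set.Ioi 0, ‖GV m n e x‖ ^ r :=
        O e hes ⟨_, hev⟩
      have e1 : ∀ x : ℝ, 0 < x → GV m n e x = GV m n h x - ∑ i ∈ range K, a i * (bp δ i x : ℂ) := by
        intro x hx
        rw [he, GV_sub m n hh has x, hha, GV_comb m n K a F1 x]
        congr 1
        exact sum_congr rfl fun i _ => by rw [F2 i x hx]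
      refine h1.trans (mul_le_mul_of_nonneg_left ?_ (by positivity))
      rw [ioi_eq (by linarith : 0 < R + 1)]
      · have h2 : ∫ x in (0:ℝ)..(R + 1), ‖GV m n e x‖ ^ r ≤ ∫ x in (0:ℝ)..(R + 1), ω ^ r := by
          apply intervalIntegral.integral_mono_on_of_le_Ioo (by linarith)
          · exact ((GV_cont m n hes).norm.rpow_const (fun x => Or.inr (by linarith))).intervalIntegrable _ _
          · exact continuous_const.intervalIntegrable _ _
          · intro x hx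
            apply Real.rpow_le_rpow (norm_nonneg _) _ (by linarith)
            rw [e1 x hx.1]
            exact A1 x hx.1
        rw [intervalIntegral.integral_const, smul_eq_mul, sub_zero] at h2
        linarith
      · intro x hx
        rw [e1 x (by linarith), A2 x hx, norm_zero, Real.zero_rpow (by linarith)]
    have hE0 := hE p₀ C₀ hp0 hC0 O0
    have hE1 := hE p₁ C₁ hp1' hC1 O1
    have ie : ∀ r : ℝ, 0 < r → IntegrableOn (fun x => ‖UV m n e x‖ ^ r) (Set.Ioi 0) := fun r hr =>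
      cintg (UV_cont m n hes) (R + T + 1) (fun x hx => UV_van hev x (by linarith)) hr
    have ia : IntegrableOn (fun x => ‖UV m n ha x‖ ^ p) (Set.Ioi 0) :=
      cintg (UV_cont m n has) (T + 1) (fun x hx => UV_van hav' x (by linarith)) hp'
    have ih : IntegrableOn (fun x => ‖UV m n h x‖ ^ p) (Set.Ioi 0) := cintg (UV_cont m n hh) _ huv hp'
    have hEp : ∫ x in Set.Ioi 0, ‖UV m n e x‖ ^ p ≤ C₀ ^ p₀ * (ω ^ p₀ * (R + 1)) + C₁ ^ p₁ * (ω ^ p₁ * (R + 1)) := by
      have h1 : ∫ x in Set.Ioi 0, ‖UV m n e x‖ ^ p ≤ ∫ x in Set.Ioi 0, (‖UV m n e x‖ ^ p₀ + ‖UV m n e x‖ ^ p₁) :=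
        integral_mono (ie p hp') ((ie p₀ (by linarith)).add (ie p₁ (by linarith)))
          fun x => rpow_le_add (norm_nonneg _) (by linarith) h01 h12
      rw [integral_add (ie p₀ (by linarith)) (ie p₁ (by linarith))] at h1
      linarith
    have hpt : ∀ x, ‖UV m n h x‖ ^ p ≤ (1 + τ) ^ (p - 1) * ‖UV m n ha x‖ ^ p +
        ((1 + τ) / τ) ^ (p - 1) * ‖UV m n e x‖ ^ p := by
      intro x
      have h1 : UV m n h x = UV m n ha x + UV m n e x := by
        rw [he, UV_sub m n hh has x]; ring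
      have h2 : ‖UV m n h x‖ ≤ ‖UV m n ha x‖ + ‖UV m n e x‖ := by rw [h1]; exact norm_add_le _ _
      exact (Real.rpow_le_rpow (norm_nonneg _) h2 hp'.le).trans
        (two_split (norm_nonneg _) (norm_nonneg _) hτ (by linarith))
    have i1 : IntegrableOn (fun x => (1 + τ) ^ (p - 1) * ‖UV m n ha x‖ ^ p) (Set.Ioi 0) := ia.const_mul _
    have i2 : IntegrableOn (fun x => ((1 + τ) / τ) ^ (p - 1) * ‖UV m n e x‖ ^ p) (Set.Ioi 0) :=
      (ie p hp').const_mul _
    have h3 : X ≤ ∫ x in Set.Ioi 0, ((1 + τ) ^ (p - 1) * ‖UV m n ha x‖ ^ p +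
        ((1 + τ) / τ) ^ (p - 1) * ‖UV m n e x‖ ^ p) :=
      integral_mono ih (i1.add i2) hpt
    rw [integral_add i1 i2, integral_const_mul, integral_const_mul] at h3
    have h4 := mul_le_mul_of_nonneg_left hA (by positivity : (0:ℝ) ≤ (1 + τ) ^ (p - 1))
    have h5 := mul_le_mul_of_nonneg_left hEp (by positivity : (0:ℝ) ≤ ((1 + τ) / τ) ^ (p - 1))
    linarith
  have step1 : ∀ τ, 0 < τ → X ≤ (1 + τ) ^ (p - 1) * (Cp ^ p * G) := by
    intro τ hτ
    have h1 := lim0 (X := X) (φ := fun ω => (1 + τ) ^ (p - 1) * (Cp ^ p * (G + (R + 1) * ω))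
      + ((1 + τ) / τ) ^ (p - 1) * (C₀ ^ p₀ * (ω ^ p₀ * (R + 1)) + C₁ ^ p₁ * (ω ^ p₁ * (R + 1)))) (by
        apply Continuous.continuousAt
        have c0 : Continuous fun ω : ℝ => ω ^ p₀ := Real.continuous_rpow_const (by linarith)
        have c1 : Continuous fun ω : ℝ => ω ^ p₁ := Real.continuous_rpow_const (by linarith)
        exact (continuous_const.mul (continuous_const.mul (continuous_const.add (continuous_const.mul continuous_id)))).add
          (continuous_const.mul ((continuous_const.mul (c0.mul continuous_const)).add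
            (continuous_const.mul (c1.mul continuous_const))))) (main τ hτ)
    rw [Real.zero_rpow (by linarith), Real.zero_rpow (by linarith)] at h1
    simpa using h1
  have h2 := lim0 (X := X) (φ := fun τ => (1 + τ) ^ (p - 1) * (Cp ^ p * G)) (by
    have c0 : Continuous fun τ : ℝ => (1 + τ) ^ (p - 1) :=
      (Real.continuous_rpow_const (by linarith)).comp (continuous_const.add continuous_id)
    exact (c0.mul continuous_const).continuousAt) (fun τ hτ _ => step1 τ hτ)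
  rw [add_zero, Real.one_rpow, one_mul] at h2
  exact h2

theorem oneC_mono {m n : ℕ} {q C C' : ℝ} (hq : 0 < q) (hC : 0 ≤ C) (h : C ≤ C') (O : OneC m n q C) :
    OneC m n q C' := by
  intro f hf hR
  refine (O f hf hR).trans ?_
  exact mul_le_mul_of_nonneg_right (Real.rpow_le_rpow hC h hq.le)
    (integral_nonneg fun x => by positivity)

/-- the upper bound -/
theorem oneC_upper {m n : ℕ} (hn : 1 ≤ n) {q : ℝ} (hq : 1 < q) (hq2 : q ≤ 2) :
    OneC m n q ((40 * √((n : ℝ) * (n + m) / (2 * n + m))) ^ (2 / q - 1)) := by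
  have hn1 : (1 : ℝ) ≤ n := by exact_mod_cast hn
  have hm0 : (0 : ℝ) ≤ m := Nat.cast_nonneg m
  have hL : 1 / 2 ≤ (n : ℝ) * (n + m) / (2 * n + m) := by
    rw [div_le_div_iff₀ (by norm_num) (by positivity)]
    nlinarith
  set L : ℝ := √((n : ℝ) * (n + m) / (2 * n + m)) with hLd
  have hL7 : 7 / 10 ≤ L := by
    apply Real.le_sqrt_of_sq_le
    norm_num
    linarith
  set C : ℝ := 40 * L with hC
  have hC0 : 0 < C := by positivity
  have hC1 : 1 + 77 / 2 * L ≤ C := by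
    rw [hC]; linarith
  rcases hq2.eq_or_lt with rfl | h2
  · have : (2 : ℝ) / 2 - 1 = 0 := by norm_num
    rw [this, Real.rpow_zero]
    exact oneC_two m n
  intro h hh hR
  set A := ∫ x in Set.Ioi (0 : ℝ), ‖UV m n h x‖ ^ q
  set B := ∫ x in Set.Ioi (0 : ℝ), ‖GV m n h x‖ ^ q
  have hq0 : 0 < q := by linarith
  set s : ℝ → ℝ := fun r => (1 / q - 1 / 2) / (1 / r - 1 / 2) with hs
  have hs1 : s 1 = 2 / q - 1 := by
    simp only [hs]; field_simp; norm_num
  have hcont : ContinuousAt s 1 := by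
    refine ContinuousAt.div continuousAt_const ?_ (by norm_num)
    exact (ContinuousAt.div continuousAt_const continuousAt_id (by norm_num)).sub continuousAt_const
  have hten : Tendsto (fun r => (C ^ s r) ^ q * B) (𝓝[>] (1 : ℝ)) (𝓝 ((C ^ (2 / q - 1)) ^ q * B)) := by
    have h1 : ContinuousAt (fun r => (C ^ s r) ^ q * B) 1 := by
      refine ContinuousAt.mul ?_ continuousAt_const
      refine ContinuousAt.rpow_const ?_ (Or.inr hq0.le)
      exact ContinuousAt.rpow continuousAt_const hcont (Or.inl hC0.ne')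
    have h2 := h1.tendsto
    rw [hs1] at h2
    exact h2.mono_left nhdsWithin_le_nhds
  refine ge_of_tendsto hten ?_
  have hm : (1 : ℝ) < min q (4 / 3) := lt_min hq (by norm_num)
  filter_upwards [Ioo_mem_nhdsGT hm] with r hr
  have hr1 : r < q := lt_of_lt_of_le hr.2 (min_le_left _ _)
  have hr2 : r ≤ 4 / 3 := hr.2.le.trans (min_le_right _ _)
  have key := interp hn (p₀ := r) (p := q) (p₁ := 2) (C₀ := C) (C₁ := 1) hr.1 hr1 h2 hC0.le
    zero_le_one (oneC_mono (by linarith [hr.1]) (by positivity) hC1 (oneC_near hn hr.1 hr2)) (oneC_two m n)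
    (s := s r) rfl
  rw [Real.one_rpow, one_mul] at key
  exact key h hh hR

end Pool.Agent.L5helper98.AN
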