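import Mathlib
import Pool.Agent.L5helper98.AN.A5

/-! Lower bound for the `L ^ 1` norm of `w`. -/

set_option autoImplicit false

open MeasureTheory Set

namespace Pool.Agent.L5helper98.AN

theorem ww_sq (m n : ℕ) {t : ℝ} (ht : 0 ≤ t) : ww m n t ^ 2 = t ^ m * PP m n t ^ 2 := by
  unfold ww
  have : (√t ^ m) ^ 2 = t ^ m := by rw [← pow_mul, mul_comm, pow_mul, Real.sq_sqrt ht]
  rw [mul_pow, this]

theorem ww_norm (m n : ℕ) : ∫ t in (0 : ℝ)..1, ww m n t ^ 2 = 1 / (2 * n + m + 1) := by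
  rw [← norm_P]
  refine intervalIntegral.integral_congr fun t ht => ?_
  rw [uIcc_of_le zero_le_one] at ht
  exact ww_sq m n ht.1

theorem vv_cont (m n : ℕ) : Continuous (vv m n) := (isEq m n).cv

/-- the mean of `1 - t` -/
theorem mean {m : ℕ} (hm : 1 ≤ m) (n : ℕ) {κ μ : ℝ} (hκ : κ = n + m / 2) (hμ : μ = (m / 2) ^ 2) :
    2 * (κ * (κ + 1)) * (∫ t in (0 : ℝ)..1, (1 - t) * ww m n t ^ 2) =
      (κ * (κ + 1) - μ) * (1 / (2 * n + m + 1)) := by
  have H := isEq m n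
  rw [← hκ, ← hμ] at H
  have hw := ww_cont m n
  have hv := vv_cont m n
  have hc : Continuous fun t : ℝ => ((1 - t) * vv m n t) ^ 2 + (1 - t) * (κ * (κ + 1) * t - μ) * ww m n t ^ 2 := by
    fun_prop
  have hd' : ∀ t ∈ Ioo (0 : ℝ) 1, HasDerivAt
      (fun t : ℝ => ((1 - t) * vv m n t) ^ 2 + (1 - t) * (κ * (κ + 1) * t - μ) * ww m n t ^ 2)
      (2 * (κ * (κ + 1)) * ((1 - t) * ww m n t ^ 2) - (κ * (κ + 1) - μ) * ww m n t ^ 2) t := by
    intro t ht
    have h1 : (1 - t) ≠ 0 := by linarith [ht.2]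
    have h0 : t ≠ 0 := ht.1.ne'
    have h8 : HasDerivAt (fun s : ℝ => 1 - s) (-1) t := by
      simpa using (hasDerivAt_id t).const_sub 1
    have h9 : HasDerivAt (fun s : ℝ => κ * (κ + 1) * s - μ) (κ * (κ + 1)) t := by
      simpa using ((hasDerivAt_id t).const_mul (κ * (κ + 1))).sub_const μ
    have := ((H.hy ht).pow 2).add ((h8.mul h9).mul ((H.hw t ht).pow 2))
    refine this.congr_deriv ?_
    simp only [Pi.mul_apply, Pi.pow_apply]
    field_simp
    ring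
  have c1 : Continuous fun t : ℝ => (1 - t) * ww m n t ^ 2 := by fun_prop
  have c2 : Continuous fun t : ℝ => ww m n t ^ 2 := hw.pow 2
  have i1 : IntervalIntegrable (fun t : ℝ => 2 * (κ * (κ + 1)) * ((1 - t) * ww m n t ^ 2)) volume 0 1 :=
    (continuous_const.mul c1).intervalIntegrable _ _
  have i2 : IntervalIntegrable (fun t : ℝ => (κ * (κ + 1) - μ) * ww m n t ^ 2) volume 0 1 :=
    (continuous_const.mul c2).intervalIntegrable _ _
  have h := intervalIntegral.integral_eq_sub_of_hasDerivAt_of_le zero_le_one hc.continuousOn hd' (i1.sub i2)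
  rw [intervalIntegral.integral_sub i1 i2, intervalIntegral.integral_const_mul,
    intervalIntegral.integral_const_mul, ww_norm] at h
  have z1 : vv m n 0 = 0 := by
    unfold vv; rw [Real.sqrt_zero, zero_pow (by omega), zero_mul]
  have z2 : ww m n 0 = 0 := by
    unfold ww; rw [Real.sqrt_zero, zero_pow (by omega), zero_mul]
  rw [z1, z2] at h
  simp only [sub_self, zero_mul, mul_zero, ne_eq, OfNat.ofNat_ne_zero, not_false_eq_true, zero_pow,
    add_zero] at h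
  linarith

theorem int_half' {c : ℝ} (_h0 : 0 < c) : ∫ t in (1 - c)..1, (1 - t) ^ (-(1 / 2) : ℝ) = 2 * √c := by
  have e : (1 : ℝ) - (1 - c) = c := by ring
  rw [intervalIntegral.integral_comp_sub_left (fun u : ℝ => u ^ (-(1 / 2) : ℝ)) 1, sub_self, e,
    integral_rpow (Or.inl (by norm_num)), Real.sqrt_eq_rpow]
  have e1 : (-(1 / 2) : ℝ) + 1 = 1 / 2 := by norm_num
  rw [e1, Real.zero_rpow (by norm_num)]
  ring

theorem low {m n : ℕ} (hm : 1 ≤ m) (hn : 1 ≤ n) : ∃ a b : ℝ, 0 < a ∧ a < b ∧ b < 1 ∧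
    b - a ≤ 6 * ((n : ℝ) * (n + m)) / (2 * n + m) ^ 2 ∧
    √((n : ℝ) * (n + m) / (2 * n + m)) / (312 * (2 * n + m + 1)) ≤ ∫ t in a..b, |ww m n t| := by
  have hn1 : (1 : ℝ) ≤ n := by exact_mod_cast hn
  have hm1 : (1 : ℝ) ≤ m := by exact_mod_cast hm
  obtain ⟨κ, hκ⟩ : ∃ κ : ℝ, κ = n + m / 2 := ⟨_, rfl⟩
  obtain ⟨μ, hμ⟩ : ∃ μ : ℝ, μ = ((m : ℝ) / 2) ^ 2 := ⟨_, rfl⟩
  have H := isEq m n
  rw [← hκ, ← hμ] at H
  obtain ⟨k, hk⟩ : ∃ k : ℝ, k = 2 * n + m := ⟨_, rfl⟩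
  have hkκ : k = 2 * κ := by rw [hk, hκ]; ring
  have hk3 : 3 ≤ k := by rw [hk]; linarith
  have hk0 : 0 < k := by linarith
  have hκ0 : 0 < κ := by linarith
  set ω : ℝ := √((n : ℝ) * (n + m)) with hω
  have hω2 : ω ^ 2 = n * (n + m) := Real.sq_sqrt (by positivity)
  have hω0 : 0 < ω := Real.sqrt_pos.2 (by positivity)
  have hω2' : ω ^ 2 = κ ^ 2 - μ := by rw [hω2, hκ, hμ]; ring
  have hω1 : 1 ≤ ω ^ 2 := by rw [hω2]; nlinarith
  have hκω : κ ≤ ω ^ 2 := by rw [hω2, hκ]; nlinarith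
  have hμ0 : 1 / 4 ≤ μ := by rw [hμ]; nlinarith
  have hmean := mean hm n hκ hμ
  rw [← hk] at hmean
  have hnorm := ww_norm m n
  rw [← hk] at hnorm
  have hK : 0 < κ * (κ + 1) := by positivity
  -- the two ends
  obtain ⟨X, hX⟩ : ∃ X : ℝ, X = 3 / 4 * (ω ^ 2 + κ) / (κ * (κ + 1)) := ⟨_, rfl⟩
  obtain ⟨s0, hs0⟩ : ∃ s0 : ℝ, s0 = ω / (208 * k) := ⟨_, rfl⟩
  have hs0p : 0 < s0 := by rw [hs0]; positivity
  have hX0 : 0 < X := by rw [hX]; positivity
  have hXK : κ * (κ + 1) * X = 3 / 4 * (ω ^ 2 + κ) := by rw [hX]; field_simp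
  have hX1 : X < 3 / 4 := by
    rw [hX, div_lt_iff₀ hK]
    nlinarith
  have hs0X : s0 ^ 2 < X := by
    rw [hX, hs0, lt_div_iff₀ hK, div_pow, div_mul_eq_mul_div, div_lt_iff₀ (by positivity)]
    have : κ * (κ + 1) ≤ k ^ 2 := by rw [hkκ]; nlinarith
    have h2 : ω ^ 2 * (κ * (κ + 1)) ≤ ω ^ 2 * k ^ 2 := by gcongr
    nlinarith [mul_pos (pow_pos hω0 2) (pow_pos hk0 2), mul_pos hκ0 (pow_pos hk0 2)]
  have c2 : Continuous fun t : ℝ => ww m n t ^ 2 := (ww_cont m n).pow 2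
  have c1 : Continuous fun t : ℝ => (1 - t) * ww m n t ^ 2 := (continuous_const.sub continuous_id).mul c2
  have ii : ∀ a b : ℝ, IntervalIntegrable (fun t : ℝ => ww m n t ^ 2) volume a b := fun a b =>
    c2.intervalIntegrable _ _
  -- the bound of w
  have hwb : ∀ t ∈ Ioo (1 - X) 1, ww m n t ^ 2 * (ω * √(1 - t)) ≤ 13 := by
    intro t ht
    have hx : 0 < 1 - t := by linarith [ht.2]
    have e1 : 1 - (1 - t) = t := by ring
    have hx2 : κ * (κ + 1) * (1 - t) ≤ 3 / 4 * (ω ^ 2 + κ) := by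
      rw [← hXK]
      have : 1 - t ≤ X := by linarith [ht.1]
      gcongr
    have := H.w_bd hω0 hω2' hω1 hκ0 hκω (Real.sqrt_pos.2 hx) (Real.sq_sqrt hx.le).symm
      (by linarith [ht.1]) hx2 fun s hs => by
        have : 0 ≤ (1 - s) ^ 2 * (μ - 1 / 4) := mul_nonneg (sq_nonneg _) (by linarith)
        nlinarith [sq_nonneg (4 * (1 - s) - 1)]
    rwa [e1] at this
  -- Markov
  have mk : ∫ t in (0 : ℝ)..(1 - X), ww m n t ^ 2 ≤ 2 / 3 * (1 / (k + 1)) := by
    have h1 : ∫ t in (0 : ℝ)..(1 - X), X * ww m n t ^ 2 ≤ ∫ t in (0 : ℝ)..(1 - X), (1 - t) * ww m n t ^ 2 := by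
      refine intervalIntegral.integral_mono_on (by linarith) ((ii _ _).const_mul _) (c1.intervalIntegrable _ _)
        fun t ht => ?_
      have : X ≤ 1 - t := by linarith [ht.2]
      gcongr
    have h2 : ∫ t in (0 : ℝ)..(1 - X), (1 - t) * ww m n t ^ 2 ≤ ∫ t in (0 : ℝ)..1, (1 - t) * ww m n t ^ 2 := by
      rw [← intervalIntegral.integral_add_adjacent_intervals (b := 1 - X) (c1.intervalIntegrable 0 _)
        (c1.intervalIntegrable _ 1)]
      have : 0 ≤ ∫ t in (1 - X)..1, (1 - t) * ww m n t ^ 2 := by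
        refine intervalIntegral.integral_nonneg (by linarith) fun t ht => ?_
        have : 0 ≤ 1 - t := by linarith [ht.2]
        positivity
      linarith
    rw [intervalIntegral.integral_const_mul] at h1
    have h3 : X * (∫ t in (0 : ℝ)..(1 - X), ww m n t ^ 2) ≤ X * (2 / 3 * (1 / (k + 1))) := by
      refine (h1.trans h2).trans (le_of_eq ?_)
      have h4 : κ * (κ + 1) * (∫ t in (0 : ℝ)..1, (1 - t) * ww m n t ^ 2) =
          κ * (κ + 1) * (X * (2 / 3 * (1 / (k + 1)))) := by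
        have e1 : κ * (κ + 1) * (X * (2 / 3 * (1 / (k + 1)))) = (κ * (κ + 1) * X) * (2 / 3 * (1 / (k + 1))) := by ring
        rw [e1, hXK]
        have e2 : κ * (κ + 1) - μ = ω ^ 2 + κ := by rw [hω2']; ring
        rw [e2] at hmean
        linarith
      exact mul_left_cancel₀ hK.ne' h4
    exact le_of_mul_le_mul_left h3 hX0
  -- small x
  have sm : ∫ t in (1 - s0 ^ 2)..1, ww m n t ^ 2 ≤ 1 / 6 * (1 / (k + 1)) := by
    have hi : IntervalIntegrable (fun t : ℝ => 13 / ω * (1 - t) ^ (-(1 / 2) : ℝ)) volume (1 - s0 ^ 2) 1 := by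
      have hi0 : IntervalIntegrable (fun u : ℝ => u ^ (-(1 / 2) : ℝ)) volume 0 (s0 ^ 2) :=
        intervalIntegral.intervalIntegrable_rpow' (by norm_num)
      have := hi0.comp_sub_left 1
      simp only [sub_zero] at this
      exact this.symm.const_mul _
    have h1 : ∫ t in (1 - s0 ^ 2)..1, ww m n t ^ 2 ≤ ∫ t in (1 - s0 ^ 2)..1, 13 / ω * (1 - t) ^ (-(1 / 2) : ℝ) := by
      refine intervalIntegral.integral_mono_on_of_le_Ioo (by nlinarith) (ii _ _) hi fun t ht => ?_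
      have hx : 0 < 1 - t := by linarith [ht.2]
      have h2 := hwb t ⟨by linarith [ht.1], ht.2⟩
      have e : (1 - t) ^ (-(1 / 2) : ℝ) = (√(1 - t))⁻¹ := by
        rw [Real.rpow_neg hx.le, Real.sqrt_eq_rpow]
      have hr : 0 < √(1 - t) := Real.sqrt_pos.2 hx
      rw [e, ← div_eq_mul_inv, div_div, le_div_iff₀ (by positivity)]
      exact h2
    refine h1.trans ?_
    rw [intervalIntegral.integral_const_mul, int_half' (by positivity), Real.sqrt_sq hs0p.le, hs0]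
    have e1 : 13 / ω * (2 * (ω / (208 * k))) = 1 / 8 * (1 / k) := by field_simp; norm_num
    rw [e1]
    have : 1 / k ≤ 4 / 3 * (1 / (k + 1)) := by
      rw [div_le_iff₀ hk0, mul_one_div, div_mul_eq_mul_div, le_div_iff₀ (by positivity)]
      linarith
    linarith
  have mid : 1 / 6 * (1 / (k + 1)) ≤ ∫ t in (1 - X)..(1 - s0 ^ 2), ww m n t ^ 2 := by
    have h1 := intervalIntegral.integral_add_adjacent_intervals (ii 0 (1 - X)) (ii (1 - X) (1 - s0 ^ 2))
    have h2 := intervalIntegral.integral_add_adjacent_intervals (ii 0 (1 - s0 ^ 2)) (ii (1 - s0 ^ 2) 1)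
    rw [hnorm] at h2
    linarith
  have hab : 1 - X < 1 - s0 ^ 2 := by linarith
  refine ⟨1 - X, 1 - s0 ^ 2, by linarith, hab, by nlinarith, ?_, ?_⟩
  · have e1 : 1 - s0 ^ 2 - (1 - X) ≤ X := by nlinarith
    refine e1.trans ?_
    rw [← hk, ← hω2, hX, div_le_div_iff₀ hK (by positivity), hkκ]
    nlinarith [mul_pos (pow_pos hω0 2) hκ0, mul_pos (pow_pos hω0 2) (pow_pos hκ0 2),
      mul_le_mul_of_nonneg_right hκω (sq_nonneg κ)]
  · rw [← hk]
    have hL : √((n : ℝ) * (n + m) / k) = ω / √k := Real.sqrt_div (by positivity) _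
    rw [hL]
    have hσ : 0 < √k := Real.sqrt_pos.2 hk0
    have hσ2 : √k ^ 2 = k := Real.sq_sqrt hk0.le
    -- w ^ 2 ≤ |w| * (52 √k / ω)
    have h1 : ∫ t in (1 - X)..(1 - s0 ^ 2), ww m n t ^ 2 ≤ ∫ t in (1 - X)..(1 - s0 ^ 2), 52 * √k / ω * |ww m n t| := by
      refine intervalIntegral.integral_mono_on_of_le_Ioo hab.le (ii _ _)
        ((continuous_const.mul (ww_cont m n).abs).intervalIntegrable _ _) fun t ht => ?_
      have hx : 0 < 1 - t := by nlinarith [ht.2]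
      have h2 := hwb t ⟨ht.1, by linarith⟩
      have h3 : s0 ≤ √(1 - t) := by
        apply Real.le_sqrt_of_sq_le
        linarith [ht.2]
      have h4 : ww m n t ^ 2 * (ω * s0) ≤ 13 := by
        refine le_trans ?_ h2
        gcongr
      have h5 : |ww m n t| ≤ 52 * √k / ω := by
        apply abs_le_of_sq_le_sq' _ (by positivity) |>.2
        rw [sq_abs, div_pow, mul_pow, hσ2, le_div_iff₀ (by positivity)]
        have e2 : ω * s0 = ω ^ 2 / (208 * k) := by rw [hs0]; ring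
        rw [e2, ← mul_div_assoc, div_le_iff₀ (by positivity)] at h4
        linarith
      calc ww m n t ^ 2 = |ww m n t| * |ww m n t| := by rw [← sq_abs]; ring
        _ ≤ 52 * √k / ω * |ww m n t| := by gcongr
    rw [intervalIntegral.integral_const_mul] at h1
    have h6 := mid.trans h1
    have h7 : ω / √k / (312 * (k + 1)) = (1 / 6 * (1 / (k + 1))) * (ω / (52 * √k)) := by
      field_simp
      norm_num
    rw [h7]
    calc (1 / 6 * (1 / (k + 1))) * (ω / (52 * √k)) ≤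
          (52 * √k / ω * ∫ t in (1 - X)..(1 - s0 ^ 2), |ww m n t|) * (ω / (52 * √k)) := by gcongr
      _ = _ := by field_simp

end Pool.Agent.L5helper98.AN
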