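import Mathlib
import Pool.Agent.L5helper98.AN.A8
import Pool.Agent.L5helper98.AN.A9
import Pool.Agent.L5helper98.RD.G

/-! The lower bound for the one-dimensional operator. -/

set_option autoImplicit false

open MeasureTheory Set Filter Topology
open Pool.Agent.L5helper98.RD (et et_smooth et_nonneg et_le_one et_zero et_one et_int)

namespace Pool.Agent.L5helper98.AN

theorem step0 (m n : ℕ) {X G : ℝ → ℂ} (hX : ContDiff ℝ (⊤ : ℕ∞) X) (hG : Continuous G)
    (h : ∀ x : ℝ, (x : ℂ) * deriv X x - (n : ℂ) * X x = G x) {t a : ℝ}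
    (ha : 0 < a) (ha1 : a ≤ 1) :
    ∫ u in a..1, (PP m n u : ℂ) * (G (t / u) / u) =
      -X t + (PP m n a : ℂ) * X (t / a) + ∫ u in a..1, (SP m n u : ℂ) * (X (t / u) / u) := by
  have hd' : ∀ u ∈ Set.Ioo a 1, HasDerivAt (fun u : ℝ => (PP m n u : ℂ) * X (t / u))
      ((SP m n u : ℂ) * (X (t / u) / u) - (PP m n u : ℂ) * (G (t / u) / u)) u := by
    intro u hu
    have hu0 : 0 < u := lt_trans ha hu.1
    have hu0' : (u : ℂ) ≠ 0 := Complex.ofReal_ne_zero.2 hu0.ne'
    have h2 : HasDerivAt (fun u : ℝ => (PP m n u : ℂ)) (((n * PP m n u + SP m n u) / u : ℝ) : ℂ) u :=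
      (hd m n hu0 hu.2).1.ofReal_comp
    have h3 : HasDerivAt (fun u : ℝ => t / u) (-(t / u ^ 2)) u := by
      have := (hasDerivAt_inv hu0.ne').const_mul t
      refine (this.congr_deriv ?_).congr_of_eventuallyEq ?_
      · field_simp
      · exact Filter.Eventually.of_forall fun y => by simp [div_eq_mul_inv]
    have h5 : HasDerivAt (fun u => X (t / u)) ((-(t / u ^ 2) : ℝ) • deriv X (t / u)) u :=
      (hda hX (t / u)).scomp u h3
    refine (h2.mul h5).congr_deriv ?_
    rw [← h (t / u), Complex.real_smul]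
    push_cast
    field_simp
    ring
  have hc1 := (ccdiv t ha ha1 (SP_cont m n) hX.continuous)
  have hc2 := (ccdiv t ha ha1 (PP_cont m n) hG)
  have hi1 := hc1.intervalIntegrable (μ := volume)
  have hi2 := hc2.intervalIntegrable (μ := volume)
  have hc3 : ContinuousOn (fun u : ℝ => (PP m n u : ℂ) * X (t / u)) (Set.Icc a 1) := by
    have h0 : ∀ u ∈ Set.Icc a 1, u ≠ 0 := fun u hu => (lt_of_lt_of_le ha hu.1).ne'
    have h1 : ContinuousOn (fun u : ℝ => t / u) (Set.Icc a 1) :=
      continuousOn_const.div continuousOn_id h0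
    exact (Complex.continuous_ofReal.comp (PP_cont m n)).continuousOn.mul (hX.continuous.comp_continuousOn h1)
  have h6 := intervalIntegral.integral_eq_sub_of_hasDerivAt_of_le ha1 hc3 hd' (hi1.sub hi2)
  rw [intervalIntegral.integral_sub hi1 hi2, PP_one, Complex.ofReal_one, one_mul, div_one] at h6
  linear_combination -h6

theorem PP_id (m n : ℕ) {t : ℝ} (h0 : 0 < t) (h1 : t ≤ 1) :
    (PP m n t : ℂ) = (t : ℂ) ^ n - ∫ u in t..1, (SP m n u : ℂ) * (((t / u : ℝ) : ℂ) ^ n / u) := by
  have hX : ContDiff ℝ (⊤ : ℕ∞) (fun x : ℝ => (x : ℂ) ^ n) := Complex.ofRealCLM.contDiff.pow n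
  have hD : ∀ x : ℝ, (x : ℂ) * deriv (fun x : ℝ => (x : ℂ) ^ n) x - (n : ℂ) * (fun x : ℝ => (x : ℂ) ^ n) x =
      (fun _ : ℝ => (0 : ℂ)) x := by
    intro x
    have h2 : HasDerivAt (fun s : ℝ => (s : ℂ) ^ n) (n * (x : ℂ) ^ (n - 1)) x := (hasDerivAt_pow n (x : ℂ)).comp_ofReal
    rw [h2.deriv]
    cases n with
    | zero => simp
    | succ n =>
      simp only [Nat.add_sub_cancel]
      rw [pow_succ]
      ring
  have h := step0 m n hX continuous_const hD (t := t) h0 h1
  simp only [zero_div, mul_zero, intervalIntegral.integral_zero] at h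
  rw [div_self h0.ne', Complex.ofReal_one, one_pow, mul_one] at h
  linear_combination -h

/-- the output is close to `w` -/
theorem near {m n : ℕ} {B : ℝ} (hB : ∀ u ∈ Icc (0 : ℝ) 1, |SP m n u| ≤ B) {δ : ℝ} (hδ : 0 < δ) (hδ2 : δ ≤ 1 / 2)
    {h : ℝ → ℂ} (hh : ContDiff ℝ (⊤ : ℕ∞) h) (hR : ∀ x, 1 ≤ x → h x = 0)
    (hd : iteratedDeriv n h = fun x => (et δ x : ℂ)) {t : ℝ} (h0 : 0 < t) (h1 : t ≤ 1) :
    ‖UV m n h t - (ww m n t : ℂ)‖ ≤ (1 - et δ t) + 2 * B * δ := by
  have hB0 : 0 ≤ B := (abs_nonneg _).trans (hB 0 ⟨le_rfl, zero_le_one⟩)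
  have hetc : Continuous (et δ) := (et_smooth δ).continuous
  have hk := kform m n hh (R := 1) (fun x hx => hR x hx.le) (t := t) (a := t / 2) (by positivity)
    (by linarith) (by rw [div_div_eq_mul_div, mul_comm, mul_div_assoc, div_self h0.ne']; norm_num)
  set F : ℝ → ℂ := gg n h with hF
  have hFe : ∀ x, F x = (x : ℂ) ^ n * (et δ x : ℂ) := by
    intro x
    simp only [hF]
    unfold gg
    rw [hd]
  have hFc : Continuous F := (gg_smooth n hh).continuous
  have hPc : Continuous fun x : ℝ => (x : ℂ) ^ n := Complex.continuous_ofReal.pow n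
  have c1 := (ccdiv t (a := t / 2) (by positivity) (by linarith) (SP_cont m n) hFc)
  have c2 := (ccdiv t h0 h1 (SP_cont m n) hFc)
  have c4 := (ccdiv t h0 h1 (SP_cont m n) hPc)
  have c3 : ContinuousOn (fun u : ℝ => (SP m n u : ℂ) * (F (t / u) / u)) (uIcc (t / 2) t) := by
    refine c1.mono ?_
    rw [uIcc_of_le (by linarith), uIcc_of_le (by linarith)]
    exact Icc_subset_Icc_right h1
  have e1 : ∫ u in (t / 2)..1, (SP m n u : ℂ) * (F (t / u) / u) = ∫ u in t..1, (SP m n u : ℂ) * (F (t / u) / u) := by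
    rw [← intervalIntegral.integral_add_adjacent_intervals
      (c3.intervalIntegrable (μ := volume)) (c2.intervalIntegrable (μ := volume))]
    have : ∫ u in (t / 2)..t, (SP m n u : ℂ) * (F (t / u) / u) = ∫ _u in (t / 2)..t, (0 : ℂ) := by
      refine intervalIntegral.integral_congr fun u hu => ?_
      rw [uIcc_of_le (by linarith)] at hu
      have hu0 : 0 < u := lt_of_lt_of_le (by positivity) hu.1
      have : et δ (t / u) = 0 := et_zero hδ (by rw [le_div_iff₀ hu0]; linarith [hu.2])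
      simp only [hFe, this]
      simp
    rw [this, intervalIntegral.integral_zero, zero_add]
  set Dd : ℝ → ℂ := fun x => (x : ℂ) ^ n * ((1 - et δ x : ℝ) : ℂ) with hDd
  have hDc : Continuous Dd := hPc.mul (Complex.continuous_ofReal.comp (continuous_const.sub hetc))
  have e2 : VV m n h t - (PP m n t : ℂ) = -((t : ℂ) ^ n * ((1 - et δ t : ℝ) : ℂ)) +
      ∫ u in t..1, (SP m n u : ℂ) * (Dd (t / u) / u) := by
    rw [hk, e1, PP_id m n h0 h1, hFe]
    have : ∫ u in t..1, (SP m n u : ℂ) * (Dd (t / u) / u) =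
        (∫ u in t..1, (SP m n u : ℂ) * ((((t / u : ℝ) : ℂ)) ^ n / u)) -
          ∫ u in t..1, (SP m n u : ℂ) * (F (t / u) / u) := by
      rw [← intervalIntegral.integral_sub (c4.intervalIntegrable (μ := volume))
        (c2.intervalIntegrable (μ := volume))]
      refine intervalIntegral.integral_congr fun u _ => ?_
      simp only [hDd, hFe]
      push_cast
      ring
    rw [this]
    push_cast
    ring
  have hw1 : √t ^ m ≤ 1 := pow_le_one₀ (Real.sqrt_nonneg _) (Real.sqrt_le_one.2 h1)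
  have hw0 : 0 ≤ √t ^ m := pow_nonneg (Real.sqrt_nonneg _) m
  have e3 : UV m n h t - (ww m n t : ℂ) = ((√t ^ m : ℝ) : ℂ) * (VV m n h t - (PP m n t : ℂ)) := by
    unfold UV ww
    push_cast
    ring
  rw [e3, norm_mul, Complex.norm_real, Real.norm_of_nonneg hw0]
  have f0 : 0 ≤ 1 - et δ t := by linarith [et_le_one δ t]
  have main : ‖VV m n h t - (PP m n t : ℂ)‖ ≤ (1 - et δ t) + 2 * B * δ := by
    rw [e2]
    refine (norm_add_le _ _).trans (add_le_add ?_ ?_)
    · rw [norm_neg, norm_mul, norm_pow, Complex.norm_real, Complex.norm_real, Real.norm_of_nonneg f0,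
        Real.norm_of_nonneg h0.le]
      exact mul_le_of_le_one_left f0 (pow_le_one₀ h0.le h1)
    · set b := min 1 (t / (1 - δ)) with hb
      have hδ1 : 0 < 1 - δ := by linarith
      have htb : t ≤ b := le_min h1 (by rw [le_div_iff₀ hδ1]; nlinarith)
      have hb1 : b ≤ 1 := min_le_left _ _
      have c5 := (ccdiv t h0 h1 (SP_cont m n) hDc)
      have c6 : ContinuousOn (fun u : ℝ => (SP m n u : ℂ) * (Dd (t / u) / u)) (uIcc t b) := by
        refine c5.mono ?_
        rw [uIcc_of_le htb, uIcc_of_le h1]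
        exact Icc_subset_Icc_right hb1
      have c7 : ContinuousOn (fun u : ℝ => (SP m n u : ℂ) * (Dd (t / u) / u)) (uIcc b 1) := by
        refine c5.mono ?_
        rw [uIcc_of_le hb1, uIcc_of_le h1]
        exact Icc_subset_Icc_left htb
      have e3 : ∫ u in t..1, (SP m n u : ℂ) * (Dd (t / u) / u) = ∫ u in t..b, (SP m n u : ℂ) * (Dd (t / u) / u) := by
        rcases le_total 1 (t / (1 - δ)) with hm | hm
        · rw [hb, min_eq_left hm]
        · rw [← intervalIntegral.integral_add_adjacent_intervals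
            (c6.intervalIntegrable (μ := volume)) (c7.intervalIntegrable (μ := volume))]
          have : ∫ u in b..1, (SP m n u : ℂ) * (Dd (t / u) / u) = ∫ _u in b..1, (0 : ℂ) := by
            refine intervalIntegral.integral_congr fun u hu => ?_
            rw [uIcc_of_le hb1] at hu
            have hu0 : 0 < u := lt_of_lt_of_le h0 (htb.trans hu.1)
            have hle : t / u ≤ 1 - δ := by
              have : t / (1 - δ) ≤ u := by
                have := hu.1
                rwa [hb, min_eq_right hm] at this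
              rw [div_le_iff₀ hδ1] at this
              rw [div_le_iff₀ hu0]
              linarith
            have : et δ (t / u) = 1 := et_one hδ hle
            simp only [hDd, this]
            simp
          rw [this, intervalIntegral.integral_zero, add_zero]
      rw [e3]
      have e4 : ∀ u ∈ Set.uIoc t b, ‖(SP m n u : ℂ) * (Dd (t / u) / u)‖ ≤ B / t := by
        intro u hu
        rw [uIoc_of_le htb] at hu
        have hu0 : 0 < u := lt_trans h0 hu.1
        have hu1 : u ≤ 1 := hu.2.trans hb1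
        have f1 : |SP m n u| ≤ B := hB u ⟨hu0.le, hu1⟩
        have f2 : 0 ≤ 1 - et δ (t / u) := by linarith [et_le_one δ (t / u)]
        have f3 : 1 - et δ (t / u) ≤ 1 := by linarith [et_nonneg δ (t / u)]
        have f4 : (t / u) ^ n ≤ 1 := pow_le_one₀ (by positivity) (by rw [div_le_one hu0]; exact hu.1.le)
        have f5 : 0 ≤ (t / u) ^ n := by positivity
        have f8 : 0 ≤ t / u := by positivity
        rw [norm_mul, norm_div, Complex.norm_real, Complex.norm_real, Real.norm_of_nonneg hu0.le, Real.norm_eq_abs]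
        have e5 : ‖Dd (t / u)‖ = (t / u) ^ n * (1 - et δ (t / u)) := by
          simp only [hDd]
          rw [norm_mul, norm_pow, Complex.norm_real, Complex.norm_real, Real.norm_of_nonneg f2,
            Real.norm_of_nonneg f8]
        rw [e5]
        have f6 : (t / u) ^ n * (1 - et δ (t / u)) / u ≤ 1 / t := by
          refine div_le_div₀ zero_le_one ?_ h0 hu.1.le
          calc (t / u) ^ n * (1 - et δ (t / u)) ≤ 1 * 1 := mul_le_mul f4 f3 f2 zero_le_one
            _ = 1 := one_mul 1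
        have f7 : 0 ≤ (t / u) ^ n * (1 - et δ (t / u)) / u := by positivity
        calc |SP m n u| * ((t / u) ^ n * (1 - et δ (t / u)) / u) ≤ B * (1 / t) :=
              mul_le_mul f1 f6 f7 hB0
          _ = B / t := by ring
      refine (intervalIntegral.norm_integral_le_of_norm_le_const e4).trans ?_
      rw [abs_of_nonneg (by linarith)]
      have e5 : b - t ≤ 2 * δ * t := by
        have : b ≤ t / (1 - δ) := min_le_right _ _
        have h9 : t / (1 - δ) ≤ t + 2 * δ * t := by
          rw [div_le_iff₀ hδ1]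
          have : 0 ≤ t * δ * (1 - 2 * δ) := mul_nonneg (mul_nonneg h0.le hδ.le) (by linarith)
          nlinarith
        linarith
      calc B / t * (b - t) ≤ B / t * (2 * δ * t) := by gcongr
        _ = 2 * B * δ := by field_simp
  calc √t ^ m * ‖VV m n h t - (PP m n t : ℂ)‖ ≤ 1 * ‖VV m n h t - (PP m n t : ℂ)‖ := by gcongr
    _ ≤ _ := by rw [one_mul]; exact main

/-- Hölder on an interval -/
theorem hold {f : ℝ → ℝ} (hf : Continuous f) (hf0 : ∀ x, 0 ≤ f x) {q : ℝ} (hq : 1 ≤ q) {a b : ℝ} (hab : a < b) :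
    (∫ t in a..b, f t) ^ q ≤ (b - a) ^ (q - 1) * ∫ t in a..b, f t ^ q := by
  have hl : 0 < b - a := by linarith
  set c := (∫ t in a..b, f t) / (b - a) with hc
  have hq0 : 0 < q := by linarith
  have hI0 : 0 ≤ ∫ t in a..b, f t := intervalIntegral.integral_nonneg hab.le fun t _ => hf0 t
  have hc0 : 0 ≤ c := by positivity
  have hcI : ∫ t in a..b, f t = (b - a) * c := by rw [hc]; field_simp
  have hcf : Continuous fun t => f t ^ q := hf.rpow_const fun x => Or.inr hq0.le
  rcases hc0.eq_or_lt with h0 | h0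
  · rw [hcI, ← h0, mul_zero, Real.zero_rpow hq0.ne']
    refine mul_nonneg (by positivity) (intervalIntegral.integral_nonneg hab.le fun t _ => ?_)
    have := hf0 t
    positivity
  · have hpt : ∀ y : ℝ, 0 ≤ y → c ^ q + q * c ^ (q - 1) * (y - c) ≤ y ^ q := by
      intro y hy
      have h1 : -1 ≤ (y - c) / c := by
        rw [le_div_iff₀ h0]; linarith
      have h2 := one_add_mul_self_le_rpow_one_add h1 hq
      have h3 : 1 + (y - c) / c = y / c := by field_simp; ring
      rw [h3, Real.div_rpow hy h0.le, le_div_iff₀ (Real.rpow_pos_of_pos h0 _)] at h2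
      refine le_trans (le_of_eq ?_) h2
      rw [Real.rpow_sub h0, Real.rpow_one]
      field_simp
    have h4 : ∫ t in a..b, (c ^ q + q * c ^ (q - 1) * (f t - c)) ≤ ∫ t in a..b, f t ^ q := by
      refine intervalIntegral.integral_mono_on hab.le ?_ (hcf.intervalIntegrable _ _)
        fun t _ => hpt _ (hf0 t)
      exact (continuous_const.add (continuous_const.mul (hf.sub continuous_const))).intervalIntegrable _ _
    have i0 : IntervalIntegrable (fun _ : ℝ => c) volume a b := intervalIntegrable_const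
    have i1 : IntervalIntegrable f volume a b := hf.intervalIntegrable _ _
    have i2 : IntervalIntegrable (fun t => q * c ^ (q - 1) * (f t - c)) volume a b :=
      (i1.sub i0).const_mul _
    have i3 : IntervalIntegrable (fun _ : ℝ => c ^ q) volume a b := intervalIntegrable_const
    rw [intervalIntegral.integral_add i3 i2, intervalIntegral.integral_const_mul,
      intervalIntegral.integral_sub i1 i0, hcI] at h4
    simp only [intervalIntegral.integral_const, smul_eq_mul, sub_self, mul_zero, add_zero] at h4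
    rw [hcI, Real.mul_rpow hl.le hc0]
    have e : (b - a) ^ q = (b - a) ^ (q - 1) * (b - a) := by
      rw [Real.rpow_sub hl, Real.rpow_one]; field_simp
    rw [e, mul_assoc]
    exact mul_le_mul_of_nonneg_left h4 (by positivity)

/-- the lower bound -/
theorem lower {m n : ℕ} (hm : 1 ≤ m) (hn : 1 ≤ n) {q : ℝ} (hq : 1 ≤ q) :
    ∃ h : ℝ → ℂ, ContDiff ℝ (⊤ : ℕ∞) h ∧ (∃ R : ℝ, ∀ x, R < x → h x = 0) ∧
      (((n : ℝ) * (n + m) / (2 * n + m)) ^ (1 / q - 1 / 2) / 3000) ^ q *
        (∫ x in Ioi (0 : ℝ), ‖GV m n h x‖ ^ q) < ∫ x in Ioi (0 : ℝ), ‖UV m n h x‖ ^ q := by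
  have hq0 : 0 < q := by linarith
  have hn1 : (1 : ℝ) ≤ n := by exact_mod_cast hn
  have hm1 : (1 : ℝ) ≤ m := by exact_mod_cast hm
  obtain ⟨a, b, ha, hab, hb, hlen, hlow⟩ := low hm hn
  obtain ⟨k, hk⟩ : ∃ k : ℝ, k = 2 * n + m := ⟨_, rfl⟩
  have hk3 : 3 ≤ k := by rw [hk]; linarith
  have hk0 : 0 < k := by linarith
  obtain ⟨lam, hlam⟩ : ∃ lam : ℝ, lam = (n : ℝ) * (n + m) / (2 * n + m) := ⟨_, rfl⟩
  have hlam0 : 0 < lam := by rw [hlam]; positivity
  rw [← hlam, ← hk] at hlow
  rw [← hk] at hlen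
  rw [← hlam]
  have hlen' : b - a ≤ 6 * lam / k := by
    refine hlen.trans (le_of_eq ?_)
    rw [hlam, ← hk]; field_simp
  have hs0 : 0 < √lam := Real.sqrt_pos.2 hlam0
  obtain ⟨B, hB⟩ := (isCompact_Icc (a := (0 : ℝ)) (b := 1)).exists_bound_of_continuousOn (SP_cont m n).continuousOn
  have hB0 : 0 ≤ B := (norm_nonneg _).trans (hB 0 ⟨le_rfl, zero_le_one⟩)
  -- the choice of `δ`
  obtain ⟨γ, hγ⟩ : ∃ γ : ℝ, γ = √lam / (320 * (k + 1)) := ⟨_, rfl⟩
  have hγ0 : 0 < γ := by rw [hγ]; positivity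
  have hγ1 : γ * (41 / 40) ≤ √lam / (312 * (k + 1)) := by
    rw [hγ, div_mul_eq_mul_div, div_le_div_iff₀ (by positivity) (by positivity)]
    nlinarith [mul_pos hs0 (by linarith : (0 : ℝ) < k + 1)]
  obtain ⟨δ, hδ⟩ : ∃ δ : ℝ, δ = min (1 / 2) (γ / (41 * (1 + 2 * B))) := ⟨_, rfl⟩
  have hδ0 : 0 < δ := by rw [hδ]; exact lt_min (by norm_num) (by positivity)
  have hδ2 : δ ≤ 1 / 2 := by rw [hδ]; exact min_le_left _ _
  have hδ3 : δ + 2 * B * δ ≤ γ / 41 := by
    have : δ ≤ γ / (41 * (1 + 2 * B)) := by rw [hδ]; exact min_le_right _ _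
    rw [le_div_iff₀ (by positivity)] at this
    rw [le_div_iff₀ (by norm_num)]
    linarith
  obtain ⟨h, hh, hR, hd⟩ := Pool.Agent.Y282.RB.A1.key n 1 (fun x => (et δ x : ℂ))
    (Complex.ofRealCLM.contDiff.comp (et_smooth δ)) fun x hx => by rw [et_zero hδ0 hx, Complex.ofReal_zero]
  refine ⟨h, hh, ⟨1, fun x hx => hR x hx.le⟩, ?_⟩
  have hR' : ∀ x, (1 : ℝ) < x → h x = 0 := fun x hx => hR x hx.le
  have hUc := UV_cont m n hh
  have hGc := GV_cont m n hh
  have hdx : ∀ x, iteratedDeriv n h x = (et δ x : ℂ) := fun x => by rw [hd]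
  -- the input
  have h1 : ∫ x in Ioi (0 : ℝ), ‖GV m n h x‖ ^ q ≤ 2 / (k + 2) := by
    have hz : ∀ x, (1 : ℝ) ≤ x → ‖GV m n h x‖ ^ q = 0 := by
      intro x hx
      unfold GV gg
      rw [hdx, et_zero hδ0 hx]
      simp [Real.zero_rpow hq0.ne']
    rw [Pool.Agent.R227.IT.ioi_eq one_pos hz]
    have h2 : ∫ x in (0 : ℝ)..1, ‖GV m n h x‖ ^ q ≤ ∫ x in (0 : ℝ)..1, x ^ (k / 2) := by
      refine intervalIntegral.integral_mono_on_of_le_Ioo zero_le_one
        ((hGc.norm.rpow_const fun x => Or.inr hq0.le).intervalIntegrable _ _)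
        (intervalIntegral.intervalIntegrable_rpow' (by linarith)) fun x hx => ?_
      have h5 : ‖GV m n h x‖ ≤ x ^ (k / 2) := by
        unfold GV gg
        have e1 : √x ^ m * x ^ n = x ^ (k / 2) := by
          rw [Real.sqrt_eq_rpow, ← Real.rpow_natCast, ← Real.rpow_mul hx.1.le, ← Real.rpow_natCast,
            ← Real.rpow_add hx.1, hk]
          congr 1
          ring
        rw [hdx, norm_mul, norm_mul, norm_pow, Complex.norm_real, Complex.norm_real, Complex.norm_real,
          Real.norm_of_nonneg (by positivity), Real.norm_of_nonneg hx.1.le, Real.norm_of_nonneg (et_nonneg δ x),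
          ← mul_assoc, e1]
        exact mul_le_of_le_one_right (Real.rpow_nonneg hx.1.le _) (et_le_one δ x)
      have h6 : x ^ (k / 2) ≤ 1 := Real.rpow_le_one hx.1.le hx.2.le (by positivity)
      calc ‖GV m n h x‖ ^ q ≤ ‖GV m n h x‖ ^ (1 : ℝ) :=
            Real.rpow_le_rpow_of_exponent_ge' (norm_nonneg _) (h5.trans h6) zero_le_one hq
        _ = ‖GV m n h x‖ := Real.rpow_one _
        _ ≤ _ := h5
    refine h2.trans (le_of_eq ?_)
    rw [integral_rpow (Or.inl (by linarith)), Real.one_rpow, Real.zero_rpow (by positivity)]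
    field_simp
    ring
  -- the output
  have h6 : γ ≤ ∫ t in a..b, ‖UV m n h t‖ := by
    have hc1 : Continuous fun t => 1 - et δ t := continuous_const.sub (et_smooth δ).continuous
    have h7 : ∫ t in a..b, |ww m n t| ≤ ∫ t in a..b, (‖UV m n h t‖ + ((1 - et δ t) + 2 * B * δ)) := by
      refine intervalIntegral.integral_mono_on hab.le ((ww_cont m n).abs.intervalIntegrable _ _)
        ((hUc.norm.add (hc1.add continuous_const)).intervalIntegrable _ _) fun t ht => ?_
      have h8 := near (fun u hu => hB u hu) hδ0 hδ2 hh hR hd (lt_of_lt_of_le ha ht.1) (ht.2.trans hb.le)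
      have h9 : ‖((ww m n t : ℝ) : ℂ)‖ ≤ ‖UV m n h t‖ + ‖UV m n h t - (ww m n t : ℂ)‖ := by
        have := norm_sub_le (UV m n h t) (UV m n h t - (ww m n t : ℂ))
        rwa [sub_sub_cancel] at this
      rw [Complex.norm_real, Real.norm_eq_abs] at h9
      linarith
    have j0 : IntervalIntegrable (fun t => 1 - et δ t) volume a b := hc1.intervalIntegrable _ _
    have j2 : IntervalIntegrable (fun _ : ℝ => 2 * B * δ) volume a b := intervalIntegrable_const
    rw [intervalIntegral.integral_add (hUc.norm.intervalIntegrable _ _) (j0.add j2),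
      intervalIntegral.integral_add j0 j2] at h7
    have h10 : ∫ t in a..b, (1 - et δ t) ≤ δ := by
      refine le_trans ?_ (et_int hδ0 hδ2)
      have k1 := intervalIntegral.integral_add_adjacent_intervals (a := 0) (b := a) (c := b) (μ := volume)
        (hc1.intervalIntegrable _ _) (hc1.intervalIntegrable _ _)
      have k2 := intervalIntegral.integral_add_adjacent_intervals (a := 0) (b := b) (c := 1) (μ := volume)
        (hc1.intervalIntegrable _ _) (hc1.intervalIntegrable _ _)
      have k3 : 0 ≤ ∫ t in (0 : ℝ)..a, (1 - et δ t) :=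
        intervalIntegral.integral_nonneg ha.le fun t _ => by linarith [et_le_one δ t]
      have k4 : 0 ≤ ∫ t in b..1, (1 - et δ t) :=
        intervalIntegral.integral_nonneg hb.le fun t _ => by linarith [et_le_one δ t]
      linarith
    have h11 : ∫ _t in a..b, (2 * B * δ) ≤ 2 * B * δ := by
      rw [intervalIntegral.integral_const, smul_eq_mul]
      exact mul_le_of_le_one_left (by positivity) (by linarith)
    linarith
  have hH := hold hUc.norm (fun x => norm_nonneg _) hq hab
  have hl0 : 0 < b - a := by linarith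
  have h18 : γ ^ q ≤ (6 * lam / k) ^ (q - 1) * ∫ x in Ioi (0 : ℝ), ‖UV m n h x‖ ^ q := by
    have hcq : Continuous fun x => ‖UV m n h x‖ ^ q := hUc.norm.rpow_const fun x => Or.inr hq0.le
    have hint : IntegrableOn (fun x => ‖UV m n h x‖ ^ q) (Ioi 0) :=
      Pool.Agent.R227.IT.cintg hUc 2 (fun x hx => UV_van hR' x (by linarith)) hq0
    calc γ ^ q ≤ (∫ t in a..b, ‖UV m n h t‖) ^ q := Real.rpow_le_rpow hγ0.le h6 hq0.le
      _ ≤ (b - a) ^ (q - 1) * ∫ t in a..b, ‖UV m n h t‖ ^ q := hH
      _ ≤ (6 * lam / k) ^ (q - 1) * ∫ t in a..b, ‖UV m n h t‖ ^ q := by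
          refine mul_le_mul_of_nonneg_right (Real.rpow_le_rpow hl0.le hlen' (by linarith)) ?_
          exact intervalIntegral.integral_nonneg hab.le fun t _ => by positivity
      _ ≤ _ := by
          refine mul_le_mul_of_nonneg_left ?_ (by positivity)
          rw [intervalIntegral.integral_of_le hab.le]
          refine setIntegral_mono_set hint (Eventually.of_forall fun x => by positivity) ?_
          exact LE.le.eventuallyLE (fun x hx => lt_trans ha hx.1 : Ioc a b ⊆ Ioi 0)
  have hI0 : 0 ≤ ∫ x in Ioi (0 : ℝ), ‖UV m n h x‖ ^ q := integral_nonneg fun x => by positivity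
  -- conclusion
  have key : (lam ^ (1 / q - 1 / 2) / 3000) ^ q * (2 / (k + 2)) * (6 * lam / k) ^ (q - 1) < γ ^ q := by
    have e1 : (lam ^ (1 / q - 1 / 2) / 3000) ^ q = lam ^ (1 - q / 2) * (1 / 3000) ^ q := by
      rw [div_eq_mul_one_div, Real.mul_rpow (by positivity) (by norm_num), ← Real.rpow_mul hlam0.le]
      congr 2
      field_simp
    have e2 : (6 * lam / k) ^ (q - 1) = lam ^ (q - 1) * (6 / k) ^ (q - 1) := by
      rw [← Real.mul_rpow hlam0.le (by positivity)]
      congr 1
      ring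
    have e3 : γ ^ q = lam ^ (q / 2) * (1 / (320 * (k + 1))) ^ q := by
      rw [hγ, Real.sqrt_eq_rpow, div_eq_mul_one_div, Real.mul_rpow (by positivity) (by positivity),
        ← Real.rpow_mul hlam0.le]
      congr 2
      ring
    have e4 : lam ^ (1 - q / 2) * lam ^ (q - 1) = lam ^ (q / 2) := by
      rw [← Real.rpow_add hlam0]
      congr 1
      ring
    rw [e1, e2, e3]
    have e5 : lam ^ (1 - q / 2) * (1 / 3000) ^ q * (2 / (k + 2)) * (lam ^ (q - 1) * (6 / k) ^ (q - 1)) =
        lam ^ (q / 2) * ((1 / 3000) ^ q * (2 / (k + 2)) * (6 / k) ^ (q - 1)) := by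
      rw [← e4]; ring
    rw [e5]
    refine mul_lt_mul_of_pos_left ?_ (by positivity)
    have e6 : (1 / (320 * (k + 1)) : ℝ) ^ q = (1 / (320 * (k + 1))) * (1 / (320 * (k + 1))) ^ (q - 1) := by
      rw [Real.rpow_sub (by positivity), Real.rpow_one]; field_simp
    have e7 : (1 / 3000 : ℝ) ^ q = (1 / 3000) * (1 / 3000) ^ (q - 1) := by
      rw [Real.rpow_sub (by norm_num), Real.rpow_one]; field_simp
    rw [e6, e7]
    have e8 : (1 / 3000 : ℝ) * (1 / 3000) ^ (q - 1) * (2 / (k + 2)) * (6 / k) ^ (q - 1) =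
        (1 / 3000 * (2 / (k + 2))) * ((1 / 3000) * (6 / k)) ^ (q - 1) := by
      rw [Real.mul_rpow (by norm_num) (by positivity)]; ring
    rw [e8]
    have e9 : ((1 / 3000 : ℝ) * (6 / k)) ^ (q - 1) ≤ (1 / (320 * (k + 1))) ^ (q - 1) := by
      refine Real.rpow_le_rpow (by positivity) ?_ (by linarith)
      rw [le_div_iff₀ (by positivity)]
      have : (1 / 3000 : ℝ) * (6 / k) * (320 * (k + 1)) = 16 / 25 * ((k + 1) / k) := by field_simp; norm_num
      rw [this]
      have : (k + 1) / k ≤ 4 / 3 := by rw [div_le_div_iff₀ hk0 (by norm_num)]; linarith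
      linarith
    have e10 : (1 / 3000 : ℝ) * (2 / (k + 2)) < 1 / (320 * (k + 1)) := by
      rw [lt_div_iff₀ (by positivity)]
      have : (1 / 3000 : ℝ) * (2 / (k + 2)) * (320 * (k + 1)) = 16 / 75 * ((k + 1) / (k + 2)) := by
        field_simp; norm_num
      rw [this]
      have : (k + 1) / (k + 2) ≤ 1 := by rw [div_le_one (by linarith)]; linarith
      linarith
    have hp1 : 0 < (1 / (320 * (k + 1)) : ℝ) ^ (q - 1) := Real.rpow_pos_of_pos (by positivity) _
    calc (1 / 3000 * (2 / (k + 2))) * ((1 / 3000) * (6 / k)) ^ (q - 1)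
        ≤ (1 / 3000 * (2 / (k + 2))) * (1 / (320 * (k + 1))) ^ (q - 1) := by gcongr
      _ < (1 / (320 * (k + 1))) * (1 / (320 * (k + 1))) ^ (q - 1) := by gcongr
  have hP : 0 < (6 * lam / k) ^ (q - 1) := Real.rpow_pos_of_pos (by positivity) _
  have f1 : (lam ^ (1 / q - 1 / 2) / 3000) ^ q * (∫ x in Ioi (0 : ℝ), ‖GV m n h x‖ ^ q) ≤
      (lam ^ (1 / q - 1 / 2) / 3000) ^ q * (2 / (k + 2)) := by gcongr
  have f2 : ((lam ^ (1 / q - 1 / 2) / 3000) ^ q * (2 / (k + 2))) * (6 * lam / k) ^ (q - 1) <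
      (∫ x in Ioi (0 : ℝ), ‖UV m n h x‖ ^ q) * (6 * lam / k) ^ (q - 1) := by
    refine lt_of_lt_of_le key ?_
    rw [mul_comm]
    exact h18
  exact lt_of_le_of_lt f1 (lt_of_mul_lt_mul_right f2 hP.le)

end Pool.Agent.L5helper98.AN
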