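import Mathlib
import Pool.Agent.L5helper98.AN.B1
import Pool.Agent.L5helper98.RD.I
import Pool.Agent.R227.IT6

/-! The lower bound for `m = 0`; plane formulas. -/

set_option autoImplicit false

open MeasureTheory Set Filter Topology
open scoped SchwartzMap

namespace Pool.Agent.L5helper98.AN

theorem VV_pow (m n : ℕ) {h : ℝ → ℂ} (hh : ContDiff ℝ (⊤ : ℕ∞) h) :
    iteratedDeriv n (fun t : ℝ => (t : ℂ) ^ (n + m) * h t) = fun t : ℝ => (t : ℂ) ^ m * VV m n h t := by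
  induction n generalizing h with
  | zero => simp [VV_zero]
  | succ n ih =>
    have e1 : deriv (fun t : ℝ => (t : ℂ) ^ (n + 1 + m) * h t) =
        fun t : ℝ => (t : ℂ) ^ (n + m) * Dc ((m : ℂ) + n + 1) h t := by
      funext t
      have h3 : HasDerivAt (fun t : ℝ => (t : ℂ) ^ (n + 1 + m)) ((n + 1 + m : ℕ) * (t : ℂ) ^ (n + 1 + m - 1)) t :=
        (hasDerivAt_pow (n + 1 + m) (t : ℂ)).comp_ofReal
      have h4 : HasDerivAt (fun t : ℝ => (t : ℂ) ^ (n + 1 + m) * h t) _ t := h3.mul (hda hh t)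
      rw [h4.deriv]
      have e : n + 1 + m - 1 = n + m := by omega
      have e' : n + 1 + m = (n + m) + 1 := by omega
      rw [e, e', pow_succ]
      unfold Dc
      push_cast
      ring
    rw [iteratedDeriv_succ', e1, ih (Dc_smooth _ hh), VV_succ' m n hh]

theorem lower0 {n : ℕ} (hn : 1 ≤ n) {q : ℝ} (hq : 1 ≤ q) (hq2 : q ≤ 2) :
    ∃ h : ℝ → ℂ, ContDiff ℝ (⊤ : ℕ∞) h ∧ (∃ R : ℝ, ∀ x, R < x → h x = 0) ∧
      (((n : ℝ) * (n + (0 : ℕ)) / (2 * n + (0 : ℕ))) ^ (1 / q - 1 / 2) / 3000) ^ q *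
        (∫ x in Ioi (0 : ℝ), ‖GV 0 n h x‖ ^ q) < ∫ x in Ioi (0 : ℝ), ‖UV 0 n h x‖ ^ q := by
  have hn1 : (1 : ℝ) ≤ n := by exact_mod_cast hn
  have hq0 : 0 < q := by linarith
  obtain ⟨h, hh, ⟨R, hR⟩, hlt⟩ := Pool.Agent.L5helper98.RD.lower hn hq hq2
  have hhC : ContDiff ℝ (⊤ : ℕ∞) (fun x : ℝ => (h x : ℂ)) := Complex.ofRealCLM.contDiff.comp hh
  refine ⟨fun x => (h x : ℂ), hhC, ⟨R, fun x hx => by simp only [hR x hx.le, Complex.ofReal_zero]⟩, ?_⟩
  have e1 : ∀ x, ‖GV 0 n (fun x : ℝ => (h x : ℂ)) x‖ = |x ^ n * iteratedDeriv n h x| := by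
    intro x
    unfold GV gg
    rw [Pool.Agent.R227.IT.iter_cast hh n, ← Real.norm_eq_abs, ← Complex.norm_real]
    congr 1
    push_cast
    ring
  have e2 : ∀ x, ‖UV 0 n (fun x : ℝ => (h x : ℂ)) x‖ = |iteratedDeriv n (fun t => t ^ n * h t) x| := by
    intro x
    unfold UV
    have h1 := congrFun (VV_pow 0 n hhC) x
    rw [add_zero, pow_zero, one_mul] at h1
    rw [← h1]
    have e3 : (fun t : ℝ => (t : ℂ) ^ n * (h t : ℂ)) = fun t : ℝ => ((t ^ n * h t : ℝ) : ℂ) := by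
      funext t; push_cast; rfl
    have hf : ContDiff ℝ (⊤ : ℕ∞) (fun t : ℝ => t ^ n * h t) := (contDiff_id.pow n).mul hh
    rw [e3, Pool.Agent.R227.IT.iter_cast hf n, pow_zero, Complex.ofReal_one, one_mul, Complex.norm_real,
      Real.norm_eq_abs]
  simp_rw [e1, e2]
  refine lt_of_le_of_lt ?_ hlt
  refine mul_le_mul_of_nonneg_right (Real.rpow_le_rpow (by positivity) ?_ hq0.le)
    (integral_nonneg fun x => by positivity)
  have he : 0 ≤ 1 / q - 1 / 2 := by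
    have : 1 / 2 ≤ 1 / q := one_div_le_one_div_of_le hq0 hq2
    linarith
  have h2 : ((n : ℝ) * (n + (0 : ℕ)) / (2 * n + (0 : ℕ))) ^ (1 / q - 1 / 2) ≤ (n : ℝ) ^ (1 / q - 1 / 2) := by
    refine Real.rpow_le_rpow (by positivity) ?_ he
    rw [Nat.cast_zero, add_zero, add_zero, div_le_iff₀ (by positivity)]
    nlinarith
  have h3 : 0 ≤ (n : ℝ) ^ (1 / q - 1 / 2) := by positivity
  linarith

/-- the lower bound for all `m` -/
theorem lower' {m n : ℕ} (hn : 1 ≤ n) {q : ℝ} (hq : 1 ≤ q) (hq2 : q ≤ 2) :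
    ∃ h : ℝ → ℂ, ContDiff ℝ (⊤ : ℕ∞) h ∧ (∃ R : ℝ, ∀ x, R < x → h x = 0) ∧
      (((n : ℝ) * (n + m) / (2 * n + m)) ^ (1 / q - 1 / 2) / 3000) ^ q *
        (∫ x in Ioi (0 : ℝ), ‖GV m n h x‖ ^ q) < ∫ x in Ioi (0 : ℝ), ‖UV m n h x‖ ^ q := by
  rcases Nat.eq_zero_or_pos m with rfl | hm
  · exact lower0 hn hq hq2
  · exact lower hm hn hq

/-! ### plane -/

open Pool.Agent.Y282.RB.A2 (db dd db_iter dd_rad Tn_db fd_normSq dd_apply)

theorem nsq_smooth : ContDiff ℝ (⊤ : ℕ∞) (Complex.normSq : ℂ → ℝ) := by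
  have e : (Complex.normSq : ℂ → ℝ) = fun z => z.re * z.re + z.im * z.im := by
    funext z
    exact Complex.normSq_apply z
  rw [e]
  exact (Complex.reCLM.contDiff.mul Complex.reCLM.contDiff).add
    (Complex.imCLM.contDiff.mul Complex.imCLM.contDiff)

theorem mkS {e : ℂ → ℂ} (he : ContDiff ℝ (⊤ : ℕ∞) e) {F : ℝ → ℂ} (hF : ContDiff ℝ (⊤ : ℕ∞) F) {R : ℝ}
    (hR : ∀ x, R < x → F x = 0) : ∃ G : 𝓢(ℂ, ℂ), ∀ z, G z = e z * F (Complex.normSq z) := by
  have hs : ContDiff ℝ (⊤ : ℕ∞) (fun z : ℂ => e z * F (Complex.normSq z)) := he.mul (hF.comp nsq_smooth)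
  have hc : HasCompactSupport (fun z : ℂ => e z * F (Complex.normSq z)) := by
    refine HasCompactSupport.intro (isCompact_closedBall (0 : ℂ) (|R| + 1)) fun w hw => ?_
    rw [Metric.mem_closedBall, dist_zero_right, not_le] at hw
    have h1 : R < Complex.normSq w := by
      rw [Complex.normSq_eq_norm_sq]
      nlinarith [le_abs_self R, abs_nonneg R]
    rw [hR _ h1, mul_zero]
  exact ⟨hc.toSchwartzMap hs, fun z => rfl⟩

theorem pow_smooth' (m : ℕ) : ContDiff ℝ (⊤ : ℕ∞) (fun z : ℂ => z ^ m) := contDiff_id.pow m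

theorem conj_smooth (m : ℕ) : ContDiff ℝ (⊤ : ℕ∞) (fun z : ℂ => (starRingEnd ℂ) z ^ m) :=
  (Complex.conjCLE.contDiff).pow m

theorem ddV (m n : ℕ) {h : ℝ → ℂ} (hh : ContDiff ℝ (⊤ : ℕ∞) h) {f : 𝓢(ℂ, ℂ)}
    (hf : ∀ z, f z = z ^ (n + m) * h (Complex.normSq z)) (z : ℂ) :
    dd^[n] f z = z ^ m * VV m n h (Complex.normSq z) := by
  induction n generalizing h f with
  | zero => simpa [VV_zero] using hf z
  | succ n ih =>
    have h1 : ∀ z, dd f z = z ^ (n + m) * Dc ((m : ℂ) + n + 1) h (Complex.normSq z) := by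
      intro z
      rw [dd_rad (k := n + m) (F := h) (hh.differentiable (by norm_num)) (f := f)
        (fun z => by rw [hf z]; congr 2; omega) z]
      unfold Dc
      push_cast
      ring
    rw [Function.iterate_succ_apply, ih (Dc_smooth _ hh) h1, VV_succ' m n hh]

theorem fd_conj (m : ℕ) (F : ℝ → ℂ) (z : ℂ) (hF : DifferentiableAt ℝ F (Complex.normSq z)) (v : ℂ) :
    fderiv ℝ (fun z : ℂ => (starRingEnd ℂ) z ^ m * F (Complex.normSq z)) z v =
      m * (starRingEnd ℂ) z ^ (m - 1) * (starRingEnd ℂ) v * F (Complex.normSq z) +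
      (starRingEnd ℂ) z ^ m * (((2 * z.re * v.re + 2 * z.im * v.im : ℝ) : ℂ) * deriv F (Complex.normSq z)) := by
  have h0 : HasFDerivAt (fun z : ℂ => z ^ m)
      ((ContinuousLinearMap.toSpanSingleton ℂ (m * ((starRingEnd ℂ) z) ^ (m - 1) : ℂ)).restrictScalars ℝ)
      ((starRingEnd ℂ) z) :=
    (hasDerivAt_pow m ((starRingEnd ℂ) z)).hasFDerivAt.restrictScalars ℝ
  have hcj : HasFDerivAt (fun z : ℂ => (starRingEnd ℂ) z) (Complex.conjCLE : ℂ →L[ℝ] ℂ) z :=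
    Complex.conjCLE.hasFDerivAt
  have h1 : HasFDerivAt (fun z : ℂ => (starRingEnd ℂ) z ^ m)
      (((ContinuousLinearMap.toSpanSingleton ℂ (m * ((starRingEnd ℂ) z) ^ (m - 1) : ℂ)).restrictScalars ℝ).comp
        (Complex.conjCLE : ℂ →L[ℝ] ℂ)) z := HasFDerivAt.comp z h0 hcj
  have h2 : HasFDerivAt (fun z : ℂ => F (Complex.normSq z))
      ((ContinuousLinearMap.toSpanSingleton ℝ (deriv F (Complex.normSq z))).comp
        ((2 * z.re) • Complex.reCLM + (2 * z.im) • Complex.imCLM)) z :=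
    HasFDerivAt.comp z hF.hasDerivAt.hasFDerivAt (fd_normSq z)
  have h3 := h1.mul h2
  have h4 : HasFDerivAt (fun z : ℂ => (starRingEnd ℂ) z ^ m * F (Complex.normSq z)) _ z := h3
  rw [h4.fderiv]
  simp [Complex.real_smul]
  ring

theorem dd_conj {m : ℕ} {F : ℝ → ℂ} (hF : Differentiable ℝ F) {f : 𝓢(ℂ, ℂ)}
    (hf : ∀ z, f z = (starRingEnd ℂ) z ^ m * F (Complex.normSq z)) (z : ℂ) :
    dd f z = (starRingEnd ℂ) z ^ (m + 1) * deriv F (Complex.normSq z) := by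
  have h1 : (f : ℂ → ℂ) = fun z : ℂ => (starRingEnd ℂ) z ^ m * F (Complex.normSq z) := funext hf
  rw [dd_apply, h1, fd_conj m F z (hF _), fd_conj m F z (hF _)]
  have h2 : (starRingEnd ℂ) z = (z.re : ℂ) - z.im * Complex.I := by
    apply Complex.ext <;> simp
  simp only [Complex.one_re, Complex.one_im, Complex.I_re, Complex.I_im, mul_zero, mul_one,
    add_zero, zero_add, map_one, Complex.conj_I]
  push_cast
  rw [pow_succ]
  linear_combination (1 / 2 * m * (starRingEnd ℂ) z ^ (m - 1) * F (Complex.normSq z)) * Complex.I_sq -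
    (starRingEnd ℂ) z ^ m * deriv F (Complex.normSq z) * h2

theorem dd_conj_iter {F : ℝ → ℂ} (hF : ContDiff ℝ (⊤ : ℕ∞) F) {f : 𝓢(ℂ, ℂ)}
    (hf : ∀ z, f z = F (Complex.normSq z)) (j : ℕ) (z : ℂ) :
    dd^[j] f z = (starRingEnd ℂ) z ^ j * iteratedDeriv j F (Complex.normSq z) := by
  induction j generalizing z with
  | zero => simpa using hf z
  | succ j ih =>
    rw [Function.iterate_succ_apply', dd_conj (m := j) (F := iteratedDeriv j F)
      ((iter_smooth hF j).differentiable (by norm_num)) ih, iteratedDeriv_succ]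

open Pool.Agent.Y282.RB (Tn)

/-- the multiplier on the class `2 N + m`, power `N` -/
theorem plane1 (m N : ℕ) {H : ℝ → ℂ} (hH : ContDiff ℝ (⊤ : ℕ∞) H) {R : ℝ} (hR : ∀ x, R < x → H x = 0)
    {G : 𝓢(ℂ, ℂ)} (hG : ∀ z, G z = z ^ (2 * N + m) * iteratedDeriv N H (Complex.normSq z)) (z : ℂ) :
    Tn N G z = z ^ m * VV m N H (Complex.normSq z) := by
  obtain ⟨f, hf⟩ := mkS (pow_smooth' (N + m)) hH hR
  have h1 : G = db^[N] f := by
    ext w
    rw [db_iter hH hf N w, hG]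
    congr 2
    omega
  rw [h1, Tn_db, ddV m N hH hf]

/-- the multiplier on the class `2 N + m`, power `N + m` -/
theorem plane2 (m N : ℕ) {H : ℝ → ℂ} (hH : ContDiff ℝ (⊤ : ℕ∞) H) {R : ℝ} (hR : ∀ x, R < x → H x = 0)
    {G : 𝓢(ℂ, ℂ)} (hG : ∀ z, G z = z ^ (2 * N + m) * iteratedDeriv N H (Complex.normSq z)) (z : ℂ) :
    Tn (N + m) G z = (starRingEnd ℂ) z ^ m * VV m N H (Complex.normSq z) := by
  obtain ⟨h, hh, hhR, hhH⟩ := Pool.Agent.Y282.RB.A1.key m (R + 1) H hH (fun x hx => hR x (by linarith))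
  obtain ⟨f, hf⟩ := mkS (pow_smooth' N) hh (R := R + 1) (fun x hx => hhR x hx.le)
  have h1 : G = db^[N + m] f := by
    ext w
    rw [db_iter hh hf (N + m) w, hG, ← hhH]
    have e1 : iteratedDeriv N (iteratedDeriv m h) = iteratedDeriv (N + m) h := by
      rw [iteratedDeriv_eq_iterate, iteratedDeriv_eq_iterate, iteratedDeriv_eq_iterate, Function.iterate_add_apply]
    rw [e1]
    congr 2
    omega
  have h2 : ∀ w, dd^[N] f w = VV 0 N h (Complex.normSq w) := by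
    intro w
    rw [ddV 0 N hh (fun z => by rw [hf z, add_zero]) w, pow_zero, one_mul]
  rw [h1, Tn_db, add_comm N m, Function.iterate_add_apply, dd_conj_iter (VV_smooth 0 N hh) h2 m z,
    iter_VV 0 N m hh, hhH, zero_add]

end Pool.Agent.L5helper98.AN
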