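import Mathlib
import Pool.Agent.L5helper98.AN.B2
import Pool.Agent.L5helper98.RD.J

/-! Angular classes: upper bound and lower bound in the plane. -/

set_option autoImplicit false

open MeasureTheory Set Filter Topology ENNReal
open scoped SchwartzMap

namespace Pool.Agent.L5helper98.AN

open Pool.Agent Pool.Agent.Y282.RB
open Pool.Agent.L5helper98.RD (sy sy_rot sm_rot ro_int Tn_sy Tn_cont sym eL hol Tst tst_compact dual1 int_normSqC
  lint_normSq)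
open Pool.Agent.TH55.PowA (T Ft sm)

/-- angular classes -/
def Ang (k : ℤ) (f : 𝓢(ℂ, ℂ)) : Prop := ∀ a z : ℂ, ‖a‖ = 1 → f (a * z) = a ^ k * f z

theorem Ft_ang {k : ℤ} {f : 𝓢(ℂ, ℂ)} (hf : Ang k f) (a : Circle) (ξ : ℂ) :
    Ft f (a * ξ) = (a : ℂ) ^ k * Ft f ξ := by
  unfold Ft
  rw [← ro_int a, ← integral_const_mul]
  refine integral_congr_ae (Eventually.of_forall fun x => ?_)
  simp only
  rw [sm_rot, hf a x (Circle.norm_coe a)]
  ring

theorem Tn_ang {n : ℕ} {k : ℤ} {K : ℕ} (hK : k = 2 * n - K) {f : 𝓢(ℂ, ℂ)} (hf : Ang k f) (a : Circle) (z : ℂ) :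
    Tn n f (a * z) = (starRingEnd ℂ) a ^ K * Tn n f z := by
  have h0 : Tn n f (a * z) = (starRingEnd ℂ) a ^ (2 * n) * (a : ℂ) ^ k * Tn n f z := by
    rw [Tn_sy]
    unfold T
    rw [← ro_int a, ← integral_const_mul]
    refine integral_congr_ae (Eventually.of_forall fun ξ => ?_)
    simp only
    rw [sm_rot, Ft_ang hf, sy_rot]
    ring
  rw [h0]
  congr 1
  have ha : (a : ℂ) ≠ 0 := Circle.coe_ne_zero a
  have h1 : (starRingEnd ℂ) (a : ℂ) = (a : ℂ)⁻¹ := by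
    rw [← Circle.coe_inv_eq_conj, Circle.coe_inv]
  rw [h1, hK, zpow_sub₀ ha]
  have e1 : (a : ℂ) ^ (2 * (n : ℤ)) = (a : ℂ) ^ (2 * n) := by
    rw [← zpow_natCast]; congr 1
  rw [e1, zpow_natCast, inv_pow, inv_pow]
  field_simp

theorem phase {K : ℕ} {u : ℂ → ℂ} (hu : ∀ (a : Circle) (z : ℂ), u (a * z) = (starRingEnd ℂ) a ^ K * u z)
    (z : ℂ) : ∃ c : ℂ, ‖c‖ = 1 ∧ u z = c ^ K * u ((√(Complex.normSq z) : ℝ) : ℂ) ∧
      (starRingEnd ℂ) c * ((√(Complex.normSq z) : ℝ) : ℂ) = z := by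
  have h2 : √(Complex.normSq z) = ‖z‖ := rfl
  rw [h2]
  by_cases hz : z = 0
  · subst hz
    exact ⟨1, by simp, by simp, by simp⟩
  · have hn : (‖z‖ : ℂ) ≠ 0 := Complex.ofReal_ne_zero.2 (norm_ne_zero_iff.2 hz)
    have ha : ‖z / (‖z‖ : ℂ)‖ = 1 := by
      rw [norm_div, Complex.norm_real, norm_norm]
      exact div_self (norm_ne_zero_iff.2 hz)
    set a : Circle := ⟨z / (‖z‖ : ℂ), by simpa [Submonoid.unitSphere] using ha⟩ with hadef
    have ha' : (a : ℂ) = z / (‖z‖ : ℂ) := rfl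
    refine ⟨(starRingEnd ℂ) (a : ℂ), ?_, ?_, ?_⟩
    · rw [Complex.norm_conj]; exact Circle.norm_coe a
    · rw [← hu a, ha', div_mul_cancel₀ _ hn]
    · rw [Complex.conj_conj, ha', div_mul_cancel₀ _ hn]

/-- division -/
theorem tst_div {γ : ℝ → ℂ} (hγ : Tst γ) (m N : ℕ) :
    Tst fun s => γ s * (((√s ^ m : ℝ) : ℂ) * (s : ℂ) ^ N)⁻¹ := by
  obtain ⟨h0, ⟨δ, hδ, h1⟩, R, h2⟩ := hγ
  refine ⟨?_, ⟨δ, hδ, fun x hx => by simp only [h1 x hx, zero_mul]⟩,
    ⟨R, fun x hx => by simp only [h2 x hx, zero_mul]⟩⟩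
  rw [contDiff_iff_contDiffAt]
  intro x
  rcases lt_or_ge x δ with hx | hx
  · refine (contDiffAt_const (c := (0 : ℂ))).congr_of_eventuallyEq ?_
    filter_upwards [Iio_mem_nhds hx] with y hy
    rw [h1 y (le_of_lt hy), zero_mul]
  · have hx0 : 0 < x := by linarith
    have h3 : ContDiffAt ℝ (⊤ : ℕ∞) (fun x : ℝ => ((√x ^ m : ℝ) : ℂ)) x :=
      Complex.ofRealCLM.contDiff.contDiffAt.comp x ((Real.contDiffAt_sqrt hx0.ne').pow m)
    have h4 : 0 < √x := Real.sqrt_pos.2 hx0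
    refine h0.contDiffAt.mul (ContDiffAt.inv (h3.mul ?_) (mul_ne_zero ?_ ?_))
    · exact (Complex.ofRealCLM.contDiff.pow N).contDiffAt
    · exact Complex.ofReal_ne_zero.2 (by positivity)
    · exact pow_ne_zero _ (Complex.ofReal_ne_zero.2 hx0.ne')

/-- the two cases -/
def Case (N m n : ℕ) (k : ℤ) : Prop := (n = N ∧ k = -(m : ℤ)) ∨ (n = N + m ∧ k = (m : ℤ))

theorem Case.K {N m n : ℕ} {k : ℤ} (h : Case N m n k) : k = 2 * n - (2 * N + m : ℕ) := by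
  rcases h with ⟨rfl, rfl⟩ | ⟨rfl, rfl⟩ <;> push_cast <;> ring

theorem Case.plane {N m n : ℕ} {k : ℤ} (h : Case N m n k) {H : ℝ → ℂ} (hH : ContDiff ℝ (⊤ : ℕ∞) H) {R : ℝ}
    (hR : ∀ x, R < x → H x = 0)
    {G : 𝓢(ℂ, ℂ)} (hG : ∀ z, G z = z ^ (2 * N + m) * iteratedDeriv N H (Complex.normSq z)) (z : ℂ) :
    ‖Tn n G z‖ = ‖UV m N H (Complex.normSq z)‖ := by
  have h2 : √(Complex.normSq z) = ‖z‖ := rfl
  have e : ‖UV m N H (Complex.normSq z)‖ = ‖z‖ ^ m * ‖VV m N H (Complex.normSq z)‖ := by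
    unfold UV
    rw [norm_mul, Complex.norm_real, h2, Real.norm_of_nonneg (by positivity)]
  rcases h with ⟨rfl, rfl⟩ | ⟨rfl, rfl⟩
  · rw [plane1 m _ hH hR hG, norm_mul, norm_pow, e]
  · rw [plane2 m _ hH hR hG, norm_mul, norm_pow, Complex.norm_conj, e]

theorem G_norm (m N : ℕ) {H : ℝ → ℂ}
    {G : 𝓢(ℂ, ℂ)} (hG : ∀ z, G z = z ^ (2 * N + m) * iteratedDeriv N H (Complex.normSq z)) (z : ℂ) :
    ‖G z‖ = ‖GV m N H (Complex.normSq z)‖ := by
  have h2 : √(Complex.normSq z) = ‖z‖ := rfl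
  unfold GV gg
  rw [hG, norm_mul, norm_mul, norm_mul, norm_pow, norm_pow, Complex.norm_real, Complex.norm_real, h2,
    Real.norm_of_nonneg (by positivity), Real.norm_of_nonneg (Complex.normSq_nonneg z),
    Complex.normSq_eq_norm_sq, ← mul_assoc]
  congr 1
  ring

/-- the bound on the dual side -/
theorem rad_bd {N m n : ℕ} {k : ℤ} (hc : Case N m n k) {q C : ℝ} (hq : 1 ≤ q) (hC : 0 ≤ C) (O : OneC m N q C)
    {H : ℝ → ℂ} (hH : ContDiff ℝ (⊤ : ℕ∞) H) {R : ℝ} (hR : ∀ x, R < x → H x = 0)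
    {G : 𝓢(ℂ, ℂ)} (hG : ∀ z, G z = z ^ (2 * N + m) * iteratedDeriv N H (Complex.normSq z)) :
    eLpNorm (Tn n G) (ENNReal.ofReal q) (volume : Measure ℂ)
      ≤ ENNReal.ofReal C * eLpNorm G (ENNReal.ofReal q) (volume : Measure ℂ) := by
  have hq0 : 0 < q := by linarith
  have hUc := UV_cont m N hH
  have hGc := GV_cont m N hH
  have hUR := UV_van (m := m) (n := N) hR
  have hGR := GV_van (m := m) (n := N) hR
  rw [eL hq0, eL hq0]
  have e1 : ∫⁻ z, ‖Tn n G z‖ₑ ^ q = ENNReal.ofReal Real.pi * ∫⁻ x in Ioi (0 : ℝ), ‖UV m N H x‖ₑ ^ q := by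
    rw [← lint_normSq (hUc.enorm.measurable.pow_const q)]
    refine lintegral_congr fun z => ?_
    rw [← ofReal_norm, ← ofReal_norm (UV m N H _), hc.plane hH hR hG]
  have e2 : ∫⁻ z, ‖G z‖ₑ ^ q = ENNReal.ofReal Real.pi * ∫⁻ x in Ioi (0 : ℝ), ‖GV m N H x‖ₑ ^ q := by
    rw [← lint_normSq (hGc.enorm.measurable.pow_const q)]
    refine lintegral_congr fun z => ?_
    rw [← ofReal_norm, ← ofReal_norm (GV m N H _), G_norm m N hG]
  have h1 : ∫⁻ x in Ioi (0 : ℝ), ‖UV m N H x‖ₑ ^ q ≤ ENNReal.ofReal C ^ q * ∫⁻ x in Ioi (0 : ℝ), ‖GV m N H x‖ₑ ^ q := by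
    rw [← toE hUc hUR hq0, ← toE hGc hGR hq0, ENNReal.ofReal_rpow_of_nonneg hC hq0.le,
      ← ENNReal.ofReal_mul (by positivity)]
    exact ENNReal.ofReal_le_ofReal (O H hH ⟨R, hR⟩)
  rw [e1, e2]
  calc (ENNReal.ofReal Real.pi * ∫⁻ x in Ioi (0 : ℝ), ‖UV m N H x‖ₑ ^ q) ^ (1 / q)
      ≤ (ENNReal.ofReal C ^ q * (ENNReal.ofReal Real.pi * ∫⁻ x in Ioi (0 : ℝ), ‖GV m N H x‖ₑ ^ q)) ^ (1 / q) := by
        refine ENNReal.rpow_le_rpow ?_ (by positivity)
        refine (mul_le_mul_right h1 _).trans (le_of_eq ?_)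
        ring
    _ = _ := by
        rw [ENNReal.mul_rpow_of_nonneg _ _ (by positivity), ← ENNReal.rpow_mul, mul_one_div_cancel hq0.ne',
          ENNReal.rpow_one]

theorem upper_gen {N m n : ℕ} {k : ℤ} (hcs : Case N m n k) {p q C : ℝ} (hpq : p.HolderConjugate q) (hC : 0 ≤ C)
    (O : OneC m N q C) (f : 𝓢(ℂ, ℂ)) (hf : Ang k f) :
    eLpNorm (Tn n f) (ENNReal.ofReal p) volume ≤
      ENNReal.ofReal C * eLpNorm f (ENNReal.ofReal p) volume := by
  have hp0 : 0 < p := hpq.pos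
  have hq0 : 0 < q := hpq.symm.pos
  set K : ℕ := 2 * N + m with hKd
  set u : ℂ → ℂ := Tn n f with hu
  have huc : Continuous u := Tn_cont n f
  have hur : ∀ (a : Circle) (z : ℂ), u (a * z) = (starRingEnd ℂ) a ^ K * u z := Tn_ang hcs.K hf
  set v : ℝ → ℂ := fun s => u ((√s : ℝ) : ℂ) with hv
  have hvc : Continuous v := huc.comp (Complex.continuous_ofReal.comp Real.continuous_sqrt)
  set N' : ℝ≥0∞ := eLpNorm f (ENNReal.ofReal p) volume with hN
  have hNf : N' ≠ ∞ := (f.memLp (ENNReal.ofReal p) volume).eLpNorm_ne_top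
  set P : ℝ≥0∞ := ENNReal.ofReal Real.pi with hP
  have hP0 : P ≠ 0 := by simp [hP, Real.pi_pos]
  have hPt : P ≠ ∞ := ENNReal.ofReal_ne_top
  -- the test inequality
  have htest : ∀ γ : ℝ → ℂ, Tst γ → ‖∫ x in Ioi (0 : ℝ), v x * γ x‖ₑ ≤
      (ENNReal.ofReal C * N' * P ^ (1 / q) * P⁻¹) * (∫⁻ x in Ioi (0 : ℝ), ‖γ x‖ₑ ^ q) ^ (1 / q) := by
    intro γ hγ
    set g : ℝ → ℂ := fun s => γ s * (((√s ^ m : ℝ) : ℂ) * (s : ℂ) ^ N)⁻¹ with hg
    have hgt : Tst g := tst_div hγ m N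
    obtain ⟨H, hH, ⟨R, hR⟩, hHg⟩ := A1.main N g hgt.1 (tst_compact hgt)
    have hR' : ∀ x, R < x → H x = 0 := fun x hx => hR x hx.le
    obtain ⟨R2, hR2⟩ : ∃ R2 : ℝ, ∀ x, R2 < x → g x = 0 := by
      obtain ⟨-, -, R2, h⟩ := hgt
      exact ⟨R2, fun x hx => h x hx.le⟩
    obtain ⟨G, hG0⟩ := mkS (pow_smooth' (2 * N + m)) hgt.1 hR2
    have hG : ∀ z, G z = z ^ (2 * N + m) * iteratedDeriv N H (Complex.normSq z) := by
      intro z; rw [hHg]; exact hG0 z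
    have hγ0 : γ 0 = 0 := by
      obtain ⟨-, ⟨δ, hδ, h1⟩, -⟩ := hγ
      exact h1 0 hδ.le
    have hγm : Measurable fun x => ‖γ x‖ₑ ^ q := hγ.1.continuous.enorm.measurable.pow_const q
    have e1 : ∀ z, u z * G z = v (Complex.normSq z) * γ (Complex.normSq z) := by
      intro z
      obtain ⟨c, hc, h1, h2⟩ := phase hur z
      rw [h1, hG0]
      simp only [hg, hv]
      by_cases hz : z = 0
      · subst hz
        simp [hγ0]
      · have hr : ((√(Complex.normSq z) : ℝ) : ℂ) ≠ 0 := by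
          refine Complex.ofReal_ne_zero.2 (Real.sqrt_pos.2 (Complex.normSq_pos.2 hz)).ne'
        have hcc : c * (starRingEnd ℂ) c = 1 := by
          rw [Complex.mul_conj, Complex.normSq_eq_norm_sq, hc]; simp
        have hr2 : ((Complex.normSq z : ℝ) : ℂ) = ((√(Complex.normSq z) : ℝ) : ℂ) ^ 2 := by
          rw [← Complex.ofReal_pow, Real.sq_sqrt (Complex.normSq_nonneg _)]
        have hz2 : c ^ K * z ^ (2 * N + m) =
            ((√(Complex.normSq z) ^ m : ℝ) : ℂ) * ((Complex.normSq z : ℝ) : ℂ) ^ N := by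
          have h5 : c * z = ((√(Complex.normSq z) : ℝ) : ℂ) := by
            rw [← h2, ← mul_assoc, hcc, one_mul, h2]
          rw [hKd, ← mul_pow, h5, hr2]
          push_cast
          ring
        have hne : ((√(Complex.normSq z) ^ m : ℝ) : ℂ) * ((Complex.normSq z : ℝ) : ℂ) ^ N ≠ 0 := by
          rw [hr2]
          push_cast
          exact mul_ne_zero (pow_ne_zero _ hr) (pow_ne_zero _ (pow_ne_zero _ hr))
        calc c ^ K * u ((√(Complex.normSq z) : ℝ) : ℂ) *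
              (z ^ (2 * N + m) * (γ (Complex.normSq z) *
                (((√(Complex.normSq z) ^ m : ℝ) : ℂ) * ((Complex.normSq z : ℝ) : ℂ) ^ N)⁻¹))
            = (c ^ K * z ^ (2 * N + m)) *
                (((√(Complex.normSq z) ^ m : ℝ) : ℂ) * ((Complex.normSq z : ℝ) : ℂ) ^ N)⁻¹ *
              (u ((√(Complex.normSq z) : ℝ) : ℂ) * γ (Complex.normSq z)) := by ring
          _ = u ((√(Complex.normSq z) : ℝ) : ℂ) * γ (Complex.normSq z) := by
              rw [hz2, mul_inv_cancel₀ hne, one_mul]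
    have e2 : ∫ z, u z * G z = Real.pi * ∫ x in Ioi (0 : ℝ), v x * γ x := by
      simp_rw [e1]
      exact int_normSqC fun x => v x * γ x
    have e3 : ∫⁻ z, ‖G z‖ₑ ^ q = P * ∫⁻ x in Ioi (0 : ℝ), ‖γ x‖ₑ ^ q := by
      rw [← lint_normSq hγm]
      refine lintegral_congr fun z => ?_
      congr 1
      rw [← ofReal_norm, ← ofReal_norm (γ _), G_norm m N hG]
      congr 1
      unfold GV gg
      rw [hHg]
      simp only [hg]
      by_cases hz : z = 0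
      · subst hz
        simp [hγ0]
      · have hr : 0 < √(Complex.normSq z) := Real.sqrt_pos.2 (Complex.normSq_pos.2 hz)
        have h6 : ((√(Complex.normSq z) ^ m : ℝ) : ℂ) ≠ 0 := Complex.ofReal_ne_zero.2 (by positivity)
        have h7 : ((Complex.normSq z : ℝ) : ℂ) ≠ 0 := Complex.ofReal_ne_zero.2 (Complex.normSq_pos.2 hz).ne'
        congr 1
        field_simp
    have e4 : ‖∫ z, u z * G z‖ₑ ≤ N' * (ENNReal.ofReal C * (P * ∫⁻ x in Ioi (0 : ℝ), ‖γ x‖ₑ ^ q) ^ (1 / q)) := by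
      have h6 : ∫ z, u z * G z = ∫ z, f z * Tn n G z := sym n f G
      rw [h6]
      refine (hol hpq f.continuous (Tn_cont n G)).trans ?_
      refine mul_le_mul_right ?_ N'
      refine (rad_bd hcs hpq.symm.lt.le hC O hH hR' hG).trans (le_of_eq ?_)
      rw [eL hq0 G, e3]
    rw [e2, enorm_mul] at e4
    have e5 : ‖((Real.pi : ℝ) : ℂ)‖ₑ = P := by
      rw [← ofReal_norm, Complex.norm_real, Real.norm_of_nonneg Real.pi_pos.le]
    rw [e5] at e4
    have e6 : ‖∫ x in Ioi (0 : ℝ), v x * γ x‖ₑ =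
        P⁻¹ * (P * ‖∫ x in Ioi (0 : ℝ), v x * γ x‖ₑ) := by
      rw [← mul_assoc, ENNReal.inv_mul_cancel hP0 hPt, one_mul]
    rw [e6]
    refine (mul_le_mul_right e4 _).trans (le_of_eq ?_)
    rw [ENNReal.mul_rpow_of_nonneg _ _ (by positivity)]
    ring
  have hK : ENNReal.ofReal C * N' * P ^ (1 / q) * P⁻¹ ≠ ∞ := by
    refine ENNReal.mul_ne_top (ENNReal.mul_ne_top (ENNReal.mul_ne_top ENNReal.ofReal_ne_top hNf) ?_) ?_
    · exact ENNReal.rpow_ne_top_of_nonneg (by positivity) hPt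
    · exact ENNReal.inv_ne_top.2 hP0
  have hd := dual1 hvc hpq hK htest
  have hvm : Measurable fun x => ‖v x‖ₑ ^ p := hvc.enorm.measurable.pow_const p
  have h8 : ∫⁻ z, ‖u z‖ₑ ^ p = P * ∫⁻ x in Ioi (0 : ℝ), ‖v x‖ₑ ^ p := by
    rw [← lint_normSq hvm]
    refine lintegral_congr fun z => ?_
    obtain ⟨c, hc, h1, -⟩ := phase hur z
    congr 1
    rw [h1, ← ofReal_norm, ← ofReal_norm (v _), norm_mul, norm_pow, hc, one_pow, one_mul]
  rw [eL hp0, h8]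
  have h9 : P * (ENNReal.ofReal C * N' * P ^ (1 / q) * P⁻¹) ^ p = (ENNReal.ofReal C * N') ^ p := by
    rw [ENNReal.mul_rpow_of_nonneg _ _ hp0.le, ENNReal.mul_rpow_of_nonneg _ _ hp0.le,
      ← ENNReal.rpow_mul, ← ENNReal.rpow_neg_one P, ← ENNReal.rpow_mul]
    have h10 : 1 / q * p = p - 1 := by
      have := hpq.inv_add_inv_eq_one
      have hq1 : 1 / q = 1 - 1 / p := by
        rw [one_div, one_div]; linarith
      rw [hq1]; field_simp
    rw [h10]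
    have h11 : P * ((ENNReal.ofReal C * N') ^ p * P ^ (p - 1) * P ^ (-1 * p)) =
        (ENNReal.ofReal C * N') ^ p * (P ^ (1 : ℝ) * P ^ (p - 1) * P ^ (-1 * p)) := by
      rw [ENNReal.rpow_one]; ring
    rw [h11, ← ENNReal.rpow_add _ _ hP0 hPt, ← ENNReal.rpow_add _ _ hP0 hPt]
    have : 1 + (p - 1) + -1 * p = 0 := by ring
    rw [this, ENNReal.rpow_zero, mul_one]
  calc (P * ∫⁻ x in Ioi (0 : ℝ), ‖v x‖ₑ ^ p) ^ (1 / p)
      ≤ ((ENNReal.ofReal C * N') ^ p) ^ (1 / p) := by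
        refine ENNReal.rpow_le_rpow ?_ (by positivity)
        rw [← h9]
        exact mul_le_mul_right hd P
    _ = ENNReal.ofReal C * N' := by
        rw [← ENNReal.rpow_mul, mul_one_div_cancel hp0.ne', ENNReal.rpow_one]

/-- the test functions in the class `k` -/
theorem testF {N m n : ℕ} {k : ℤ} (hcs : Case N m n k) {γ : ℝ → ℂ} (hγ : Tst γ) {H : ℝ → ℂ}
    (hH : ContDiff ℝ (⊤ : ℕ∞) H) {R : ℝ} (hR : ∀ x, R < x → H x = 0)
    {G : 𝓢(ℂ, ℂ)} (hG : ∀ z, G z = z ^ (2 * N + m) * iteratedDeriv N H (Complex.normSq z)) :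
    ∃ F : 𝓢(ℂ, ℂ), Ang k F ∧ (∀ z, ‖F z‖ = ‖γ (Complex.normSq z)‖) ∧
      ∀ z, Tn n G z * F z = UV m N H (Complex.normSq z) * γ (Complex.normSq z) := by
  set g : ℝ → ℂ := fun s => γ s * (((√s ^ m : ℝ) : ℂ) * (s : ℂ) ^ 0)⁻¹ with hg
  have hgt : Tst g := tst_div hγ m 0
  have hγ0 : γ 0 = 0 := by
    obtain ⟨-, ⟨δ, hδ, h1⟩, -⟩ := hγ
    exact h1 0 hδ.le
  have hg0 : g 0 = 0 := by simp [hg, hγ0]
  obtain ⟨R2, hR2⟩ : ∃ R2 : ℝ, ∀ x, R2 < x → g x = 0 := by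
    obtain ⟨-, -, R2, h⟩ := hgt
    exact ⟨R2, fun x hx => h x hx.le⟩
  have hsq : ∀ z : ℂ, √(Complex.normSq z) = ‖z‖ := fun z => rfl
  have hnorm : ∀ z : ℂ, ‖z‖ ^ m * ‖g (Complex.normSq z)‖ = ‖γ (Complex.normSq z)‖ := by
    intro z
    by_cases hz : z = 0
    · subst hz; simp [hg0, hγ0]
    · have h0 : 0 < ‖z‖ := norm_pos_iff.2 hz
      simp only [hg]
      rw [pow_zero, mul_one, norm_mul, norm_inv, Complex.norm_real, hsq, Real.norm_of_nonneg (by positivity)]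
      field_simp
  have hprod : ∀ z : ℂ, (z ^ m * (starRingEnd ℂ) z ^ m) * g (Complex.normSq z) =
      ((√(Complex.normSq z) ^ m : ℝ) : ℂ) * γ (Complex.normSq z) := by
    intro z
    by_cases hz : z = 0
    · subst hz; simp [hg0, hγ0]
    · have h0 : 0 < ‖z‖ := norm_pos_iff.2 hz
      have h1 : ((‖z‖ ^ m : ℝ) : ℂ) ≠ 0 := Complex.ofReal_ne_zero.2 (by positivity)
      simp only [hg]
      rw [← mul_pow, Complex.mul_conj, hsq, pow_zero, mul_one]
      have e : ((Complex.normSq z : ℝ) : ℂ) ^ m = ((‖z‖ ^ m : ℝ) : ℂ) * ((‖z‖ ^ m : ℝ) : ℂ) := by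
        rw [Complex.normSq_eq_norm_sq]
        push_cast
        ring
      rw [e]
      field_simp
  have hcirc : ∀ a z : ℂ, ‖a‖ = 1 → Complex.normSq (a * z) = Complex.normSq z := by
    intro a z ha
    rw [map_mul, Complex.normSq_eq_norm_sq a, ha]; norm_num
  rcases hcs with ⟨h1, h2⟩ | ⟨h1, h2⟩
  · obtain ⟨F, hF⟩ := mkS (conj_smooth m) hgt.1 hR2
    refine ⟨F, fun a z ha => ?_, fun z => ?_, fun z => ?_⟩
    · rw [hF, hF, hcirc a z ha, map_mul, mul_pow, h2]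
      have ha0 : a ≠ 0 := by
        intro h; rw [h, norm_zero] at ha; exact zero_ne_one ha
      have e : (starRingEnd ℂ) a = a⁻¹ := by
        rw [Complex.inv_def, Complex.normSq_eq_norm_sq, ha]; simp
      rw [e, zpow_neg, zpow_natCast, inv_pow]
      ring
    · rw [hF, norm_mul, norm_pow, Complex.norm_conj, hnorm]
    · rw [h1, plane1 m N hH hR hG, hF]
      unfold UV
      calc z ^ m * VV m N H (Complex.normSq z) * ((starRingEnd ℂ) z ^ m * g (Complex.normSq z))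
          = ((z ^ m * (starRingEnd ℂ) z ^ m) * g (Complex.normSq z)) * VV m N H (Complex.normSq z) := by ring
        _ = _ := by rw [hprod]; ring
  · obtain ⟨F, hF⟩ := mkS (pow_smooth' m) hgt.1 hR2
    refine ⟨F, fun a z ha => ?_, fun z => ?_, fun z => ?_⟩
    · rw [hF, hF, hcirc a z ha, mul_pow, h2, zpow_natCast]
      ring
    · rw [hF, norm_mul, norm_pow, hnorm]
    · rw [h1, plane2 m N hH hR hG, hF]
      unfold UV
      calc (starRingEnd ℂ) z ^ m * VV m N H (Complex.normSq z) * (z ^ m * g (Complex.normSq z))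
          = ((z ^ m * (starRingEnd ℂ) z ^ m) * g (Complex.normSq z)) * VV m N H (Complex.normSq z) := by ring
        _ = _ := by rw [hprod]; ring

theorem lower_gen {N m n : ℕ} {k : ℤ} (hcs : Case N m n k) {p q c : ℝ} (hpq : p.HolderConjugate q) (hc : 0 ≤ c)
    (hall : ∀ f : 𝓢(ℂ, ℂ), Ang k f → eLpNorm (Tn n f) (ENNReal.ofReal p) volume ≤
      ENNReal.ofReal c * eLpNorm f (ENNReal.ofReal p) volume) : OneC m N q c := by
  intro H hH ⟨R, hR⟩
  have hp0 : 0 < p := hpq.pos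
  have hq0 : 0 < q := hpq.symm.pos
  set P : ℝ≥0∞ := ENNReal.ofReal Real.pi with hP
  have hP0 : P ≠ 0 := by simp [hP, Real.pi_pos]
  have hPt : P ≠ ∞ := ENNReal.ofReal_ne_top
  have hUc := UV_cont m N hH
  have hGc := GV_cont m N hH
  have hUR := UV_van (m := m) (n := N) hR
  have hGR := GV_van (m := m) (n := N) hR
  obtain ⟨G, hG⟩ := mkS (pow_smooth' (2 * N + m)) (iter_smooth hH N) (R := R) (fun x hx => by
    have h1 : H =ᶠ[𝓝 x] fun _ => (0 : ℂ) := by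
      filter_upwards [Ioi_mem_nhds hx] with y hy
      exact hR y hy
    rw [Filter.EventuallyEq.iteratedDeriv_eq N h1]
    simp)
  have hGn : ∫⁻ z, ‖G z‖ₑ ^ q = P * ∫⁻ x in Ioi (0 : ℝ), ‖GV m N H x‖ₑ ^ q := by
    rw [← lint_normSq (hGc.enorm.measurable.pow_const q)]
    refine lintegral_congr fun z => ?_
    rw [← ofReal_norm, ← ofReal_norm (GV m N H _), G_norm m N hG]
  set I : ℝ≥0∞ := (∫⁻ x in Ioi (0 : ℝ), ‖GV m N H x‖ₑ ^ q) ^ (1 / q) with hI
  have hIf : I ≠ ∞ := by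
    rw [hI, ← toE hGc hGR hq0]
    exact ENNReal.rpow_ne_top_of_nonneg (by positivity) ENNReal.ofReal_ne_top
  have htest : ∀ γ : ℝ → ℂ, Tst γ → ‖∫ x in Ioi (0 : ℝ), UV m N H x * γ x‖ₑ ≤
      (ENNReal.ofReal c * I) * (∫⁻ x in Ioi (0 : ℝ), ‖γ x‖ₑ ^ p) ^ (1 / p) := by
    intro γ hγ
    obtain ⟨F, hFr, hFn, hFT⟩ := testF hcs hγ hH hR hG
    have hγm : Measurable fun x => ‖γ x‖ₑ ^ p := hγ.1.continuous.enorm.measurable.pow_const p
    have e2 : ∫ z, Tn n G z * F z = Real.pi * ∫ x in Ioi (0 : ℝ), UV m N H x * γ x := by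
      simp_rw [hFT]
      exact int_normSqC fun x => UV m N H x * γ x
    have e3 : ∫⁻ z, ‖F z‖ₑ ^ p = P * ∫⁻ x in Ioi (0 : ℝ), ‖γ x‖ₑ ^ p := by
      rw [← lint_normSq hγm]
      refine lintegral_congr fun z => ?_
      rw [← ofReal_norm, ← ofReal_norm (γ _), hFn]
    have e4 : ‖∫ z, Tn n G z * F z‖ₑ ≤ (ENNReal.ofReal c * (P * ∫⁻ x in Ioi (0 : ℝ), ‖γ x‖ₑ ^ p) ^ (1 / p)) *
        (P * ∫⁻ x in Ioi (0 : ℝ), ‖GV m N H x‖ₑ ^ q) ^ (1 / q) := by
      have h6 : ∫ z, Tn n G z * F z = ∫ z, Tn n F z * G z := by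
        rw [sym n G F]
        exact integral_congr_ae (Eventually.of_forall fun z => mul_comm _ _)
      rw [h6]
      refine (hol hpq (Tn_cont n F) G.continuous).trans ?_
      rw [eL hq0 G, hGn]
      refine mul_le_mul_left ?_ _
      refine (hall F hFr).trans (le_of_eq ?_)
      rw [eL hp0 F, e3]
    rw [e2, enorm_mul] at e4
    have e5 : ‖((Real.pi : ℝ) : ℂ)‖ₑ = P := by
      rw [← ofReal_norm, Complex.norm_real, Real.norm_of_nonneg Real.pi_pos.le]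
    rw [e5, ENNReal.mul_rpow_of_nonneg _ _ (by positivity), ENNReal.mul_rpow_of_nonneg _ _ (by positivity),
      ← hI] at e4
    have e6 : P ^ (1 / p) * P ^ (1 / q) = P := by
      rw [← ENNReal.rpow_add _ _ hP0 hPt]
      have : 1 / p + 1 / q = 1 := by
        have := hpq.inv_add_inv_eq_one
        rw [one_div, one_div]; exact this
      rw [this, ENNReal.rpow_one]
    have e7 : ENNReal.ofReal c * (P ^ (1 / p) * (∫⁻ x in Ioi (0 : ℝ), ‖γ x‖ₑ ^ p) ^ (1 / p)) * (P ^ (1 / q) * I) =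
        P * ((ENNReal.ofReal c * I) * (∫⁻ x in Ioi (0 : ℝ), ‖γ x‖ₑ ^ p) ^ (1 / p)) := by
      calc ENNReal.ofReal c * (P ^ (1 / p) * (∫⁻ x in Ioi (0 : ℝ), ‖γ x‖ₑ ^ p) ^ (1 / p)) * (P ^ (1 / q) * I)
          = (P ^ (1 / p) * P ^ (1 / q)) *
              ((ENNReal.ofReal c * I) * (∫⁻ x in Ioi (0 : ℝ), ‖γ x‖ₑ ^ p) ^ (1 / p)) := by ring
        _ = _ := by rw [e6]
    rw [e7] at e4
    exact (ENNReal.mul_le_mul_iff_right hP0 hPt).1 e4
  have hd := dual1 hUc hpq.symm (ENNReal.mul_ne_top ENNReal.ofReal_ne_top hIf) htest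
  rw [← toE hUc hUR hq0, ENNReal.mul_rpow_of_nonneg _ _ hq0.le, hI, ← ENNReal.rpow_mul,
    one_div_mul_cancel hq0.ne', ENNReal.rpow_one, ← toE hGc hGR hq0, ENNReal.ofReal_rpow_of_nonneg hc hq0.le,
    ← ENNReal.ofReal_mul (by positivity)] at hd
  exact (ENNReal.ofReal_le_ofReal_iff (mul_nonneg (by positivity)
    (integral_nonneg fun x => by positivity))).1 hd

end Pool.Agent.L5helper98.AN
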